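import Pool.Agent.DET.St

/-!
# ARBA: commutative algebra of finitely generated rings
-/

set_option autoImplicit false

namespace Pool.Agent.DET.ARBA

open Matrix

/-- the integers are a Jacobson ring -/
lemma jacobson_int : IsJacobsonRing ℤ := by
  rw [isJacobsonRing_iff_prime_eq]
  intro P hP
  by_cases h : P = ⊥
  · subst h
    rw [eq_bot_iff]
    intro x hx
    rw [Ideal.mem_jacobson_bot] at hx
    have h1 := hx x
    rw [Int.isUnit_iff] at h1
    have h2 : x = 0 := by
      rcases h1 with h1 | h1 <;> nlinarith [sq_nonneg x]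
    rw [h2]
    exact Submodule.zero_mem _
  · have hmax : P.IsMaximal := Ideal.IsPrime.isMaximal hP h
    exact Ideal.jacobson_eq_self_of_isMaximal

/-- a finitely generated ring is of finite type over the integers -/
lemma ft (F : Type) [Field F] (S : Set F) (hS : S.Finite) :
    Algebra.FiniteType ℤ (Subring.closure S) := by
  have h1 : Algebra.FiniteType ℤ (Algebra.adjoin ℤ S) := .adjoin_of_finite hS
  have hmem : ∀ x : F, x ∈ Algebra.adjoin ℤ S ↔ x ∈ Subring.closure S := by
    intro x
    rw [Algebra.adjoin_int]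
    exact mem_subalgebraOfSubring
  let f : Algebra.adjoin ℤ S →+* Subring.closure S :=
    { toFun := fun x => ⟨x, (hmem x).1 x.2⟩
      map_one' := rfl
      map_mul' := fun _ _ => rfl
      map_zero' := rfl
      map_add' := fun _ _ => rfl }
  exact Algebra.FiniteType.of_surjective f.toIntAlgHom
    fun y => ⟨⟨y, (hmem y).2 y.2⟩, rfl⟩

lemma part1 (A : Type) [CommRing A] [IsDomain A] (c d : A) (hA : Algebra.FiniteType ℤ A)
    (h : ∀ 𝔪 : Ideal A, 𝔪.IsMaximal → c - d ∈ 𝔪) : c = d := by
  have hZ := jacobson_int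
  have hJ : IsJacobsonRing A := isJacobsonRing_of_finiteType (A := ℤ)
  have hrad : (⊥ : Ideal A).IsRadical := by
    have h1 : (⊥ : Ideal A).IsPrime := Ideal.isPrime_bot
    exact h1.isRadical
  have h2 : (⊥ : Ideal A).jacobson = ⊥ := hJ.out hrad
  have h3 : c - d ∈ (⊥ : Ideal A).jacobson := by
    rw [Ideal.jacobson, Submodule.mem_sInf]
    intro J hJ'
    exact h J hJ'.2
  rw [h2, Ideal.mem_bot] at h3
  exact sub_eq_zero.1 h3

lemma fin_field (S : Type) [Field S] (h : Algebra.FiniteType ℤ S) : Finite S := by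
  have hZ := jacobson_int
  have hf : Module.Finite ℤ S := finite_of_finite_type_of_isJacobsonRing ℤ S
  obtain ⟨p, hp⟩ := CharP.exists S
  rcases Nat.eq_zero_or_pos p with rfl | hp0
  · exfalso
    have : CharZero S := CharP.charP_to_charZero S
    have hinj : Function.Injective (algebraMap ℤ S) := by
      intro a b hab
      exact_mod_cast hab
    have hfield : IsField ℤ := isField_of_isIntegral_of_isField hinj (Field.toIsField S)
    exact Int.not_isField hfield
  · have : NeZero p := ⟨hp0.ne'⟩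
    let : Algebra (ZMod p) S := ZMod.algebra S p
    have : IsScalarTower ℤ (ZMod p) S := IsScalarTower.of_algebraMap_eq' (RingHom.ext_int _ _)
    have : Module.Finite (ZMod p) S := Module.Finite.of_restrictScalars_finite ℤ (ZMod p) S
    exact Module.finite_of_finite (ZMod p)

lemma part2 (A : Type) [CommRing A] (𝔪 : Ideal A) (hA : Algebra.FiniteType ℤ A)
    (h : 𝔪.IsMaximal) : Finite (A ⧸ 𝔪) := by
  let : Field (A ⧸ 𝔪) := Ideal.Quotient.field 𝔪
  have : Algebra.FiniteType ℤ (A ⧸ 𝔪) := by
    exact Algebra.FiniteType.of_surjective (Ideal.Quotient.mkₐ ℤ 𝔪) Ideal.Quotient.mk_surjective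
  exact fin_field _ this

lemma part3 (G F ν : Type) [Group G] [Field F] [Fintype ν] [DecidableEq ν]
    (ρ : G →* Matrix ν ν F) (hG : Group.FG G) :
    ∃ (A : Subring F) (ρ' : G →* Matrix ν ν A), Algebra.FiniteType ℤ A ∧
      ∀ g, ρ g = (ρ' g).map A.subtype := by
  classical
  obtain ⟨T, hT⟩ := hG.out
  let E : Set F := (⋃ t ∈ T, ⋃ i : ν, ⋃ j : ν, {ρ t i j, ρ t⁻¹ i j})
  have hE : E.Finite := by
    refine Set.Finite.biUnion T.finite_toSet fun t _ => ?_
    exact Set.finite_iUnion fun i => Set.finite_iUnion fun j => Set.toFinite _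
  let A : Subring F := Subring.closure E
  have hFT : Algebra.FiniteType ℤ A := ft F E hE
  have hmem : ∀ t ∈ T, ∀ i j, ρ t i j ∈ A ∧ ρ t⁻¹ i j ∈ A := by
    intro t ht i j
    constructor
    · refine Subring.subset_closure ?_
      simp only [E, Set.mem_iUnion]
      exact ⟨t, ht, i, j, by simp⟩
    · refine Subring.subset_closure ?_
      simp only [E, Set.mem_iUnion]
      exact ⟨t, ht, i, j, by simp⟩
  have hmul : ∀ g h : G, (∀ i j, ρ g i j ∈ A) → (∀ i j, ρ h i j ∈ A) → ∀ i j, ρ (g * h) i j ∈ A := by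
    intro g h hg hh i j
    rw [map_mul, Matrix.mul_apply]
    exact Subring.sum_mem _ fun k _ => A.mul_mem (hg i k) (hh k j)
  have hall : ∀ g : G, (∀ i j, ρ g i j ∈ A) ∧ ∀ i j, ρ g⁻¹ i j ∈ A := by
    intro g
    have hg : g ∈ Subgroup.closure (T : Set G) := by rw [hT]; trivial
    induction hg using Subgroup.closure_induction with
    | mem x hx => exact ⟨fun i j => (hmem x hx i j).1, fun i j => (hmem x hx i j).2⟩
    | one =>
      have h1 : ∀ i j, ρ 1 i j ∈ A := by
        intro i j
        rw [map_one, Matrix.one_apply]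
        split
        · exact A.one_mem
        · exact A.zero_mem
      refine ⟨h1, ?_⟩
      rw [inv_one]
      exact h1
    | mul a b _ _ ha hb =>
      refine ⟨hmul a b ha.1 hb.1, ?_⟩
      rw [_root_.mul_inv_rev]
      exact hmul b⁻¹ a⁻¹ hb.2 ha.2
    | inv a _ ha =>
      refine ⟨ha.2, ?_⟩
      rw [inv_inv]
      exact ha.1
  refine ⟨A, ⟨⟨fun g => Matrix.of fun i j => ⟨ρ g i j, (hall g).1 i j⟩, ?_⟩, ?_⟩, hFT, ?_⟩
  · ext i j
    simp only [Matrix.of_apply]
    rw [map_one, Matrix.one_apply, Matrix.one_apply]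
    split <;> rfl
  · intro a b
    ext i j
    simp only [Matrix.of_apply]
    rw [map_mul, Matrix.mul_apply, Matrix.mul_apply]
    rw [AddSubmonoidClass.coe_finsetSum]
    rfl
  · intro g
    ext i j
    rfl

end Pool.Agent.DET.ARBA

namespace Pool.Agent.DET

theorem t_ARBA : s_ARBA := ⟨ARBA.part1, ARBA.part2, ARBA.part3⟩

end Pool.Agent.DET
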