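import Pool.Agent.DET.St

/-!
# Determinants for finite images (module BR of project DET)
-/

set_option autoImplicit false

namespace Pool.Agent.DET

open Pool.Agent.WhK Matrix

namespace BR

theorem permChar_punit (Q : Type) [Group Q] (q : Q) : permChar Q PUnit.{1} q = 1 := by
  classical
  unfold permChar
  have h : ∀ s : PUnit.{1}, q • s = s := fun s => Subsingleton.elim _ _
  simp [h]

theorem permChar_sigma (Q : Type) [Group Q] (m : ℕ) (S : Fin m → Type) [∀ i, Fintype (S i)]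
    [∀ i, MulAction Q (S i)] (q : Q) :
    permChar Q (Σ i, S i) q = ∑ i, permChar Q (S i) q := by
  classical
  unfold permChar
  rw [Fintype.sum_sigma]
  refine Finset.sum_congr rfl fun i _ => Finset.sum_congr rfl fun s _ => ?_
  have h : q • (⟨i, s⟩ : Σ i, S i) = ⟨i, q • s⟩ := rfl
  rw [h]
  simp only [Sigma.mk.injEq, heq_eq_eq, true_and]

theorem core (h2 : s_TPRM) (h3 : s_TSUM) (G Q n : Type) [Group G] [Group Q] [Fintype Q]
    [Fintype n] [DecidableEq n] (φ : G →* Q) (X : Matrix n n (MonoidAlgebra ℤ G)) (a b : ℕ)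
    (H : Fin a → Subgroup Q) (K : Fin b → Subgroup Q)
    [∀ i, Fintype (Q ⧸ H i)] [∀ i, Fintype (Q ⧸ K i)]
    [∀ i, DecidableEq (Q ⧸ H i)] [∀ i, DecidableEq (Q ⧸ K i)]
    (hc : ∀ q, 1 + ∑ i, permChar Q (Q ⧸ K i) q = ∑ i, permChar Q (Q ⧸ H i) q)
    (R ν : Type) [CommRing R] [Fintype ν] [DecidableEq ν] (ρ : Q →* Matrix ν ν R) :
    dt (ρ.comp φ) X * ∏ j, dt (tens φ ρ (Q ⧸ K j)) X = ∏ i, dt (tens φ ρ (Q ⧸ H i)) X := by
  have h := h2 G Q (PUnit.{1} ⊕ (Σ j, Q ⧸ K j)) (Σ i, Q ⧸ H i) R n ν φ ρ X (by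
    intro q
    rw [permChar_sum, permChar_punit, permChar_sigma, permChar_sigma]
    exact hc q)
  rw [h3.1, h3.2.1, h3.2.1, h3.2.2] at h
  exact h

end BR

theorem t_BR (h1 : s_DTB) (h2 : s_TPRM) (h3 : s_TSUM) (h4 : s_SOLQ) (h5 : s_BRH) : s_BR := by
  classical
  intro G Q n _ _ _ _ _ φ X e g hφ hFG hHTF hdab k ν _ _ _ _ ρ
  have := Fintype.ofFinite Q
  obtain ⟨a, b, H, K, hH, hK, hc⟩ := h4 Q
  have i1 : ∀ i, Fintype (Q ⧸ H i) := fun i => Fintype.ofFinite _
  have i2 : ∀ i, Fintype (Q ⧸ K i) := fun i => Fintype.ofFinite _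
  have hBH := fun i => h5 G Q n φ (H i) X hφ hFG hHTF (hH i)
  have hBK := fun i => h5 G Q n φ (K i) X hφ hFG hHTF (hK i)
  choose eH gH hHH using hBH
  choose eK gK hKK using hBK
  -- the formula for all representations
  have key : ∀ (μ : Type) [Fintype μ] [DecidableEq μ] (σ : Q →* Matrix μ μ k),
      dt (σ.comp φ) X.val *
        (((∏ j, (((eK j : ℤˣ) : ℤ) : k)) ^ Fintype.card μ) * ∏ j, (σ (φ (gK j))).det) =
        ((∏ i, (((eH i : ℤˣ) : ℤ) : k)) ^ Fintype.card μ) * ∏ i, (σ (φ (gH i))).det := by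
    intro μ _ _ σ
    have h6 := BR.core h2 h3 G Q n φ X.val a b H K (fun q => hc q) k μ σ
    rw [Finset.prod_congr rfl (fun j _ => hKK j k μ σ),
      Finset.prod_congr rfl (fun i _ => hHH i k μ σ), Finset.prod_mul_distrib,
      Finset.prod_mul_distrib, Finset.prod_pow, Finset.prod_pow] at h6
    exact h6
  set EK : k := ∏ j, (((eK j : ℤˣ) : ℤ) : k) with hEK
  set EH : k := ∏ i, (((eH i : ℤˣ) : ℤ) : k) with hEH
  have hu : ∀ z : ℤˣ, (((z : ℤ) : k)) ≠ 0 := by
    intro z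
    rcases Int.units_eq_one_or z with h | h <;> simp [h]
  have hEK0 : EK ≠ 0 := Finset.prod_ne_zero_iff.2 fun j _ => hu _
  have hEH0 : EH ≠ 0 := Finset.prod_ne_zero_iff.2 fun j _ => hu _
  -- characters
  have hchar : ∀ χ : Q →* k, ((e : ℤ) : k) * χ (φ g) * (EK * ∏ j, χ (φ (gK j))) =
      EH * ∏ i, χ (φ (gH i)) := by
    intro χ
    have h7 := key Unit ((Matrix.scalar Unit).toMonoidHom.comp χ)
    have h8 := h1.2.2.2.2.2.2.2.2 G k n (χ.comp φ) X.val g (e : ℤ) hdab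
    have h9 : (((Matrix.scalar Unit).toMonoidHom.comp χ).comp φ : G →* Matrix Unit Unit k) =
        (Matrix.scalar Unit).toMonoidHom.comp (χ.comp φ) := rfl
    have h10 : ∀ q : Q, (((Matrix.scalar Unit).toMonoidHom.comp χ) q : Matrix Unit Unit k).det =
        χ q := by
      intro q
      simp
    rw [h9, h8] at h7
    simp only [h10, Fintype.card_unit, pow_one] at h7
    exact h7
  have hone := hchar 1
  simp only [MonoidHom.one_apply, Finset.prod_const_one, mul_one] at hone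
  -- the determinant character
  have hdet := hchar (Matrix.detMonoidHom.comp ρ)
  have hd : ∀ q, (Matrix.detMonoidHom.comp ρ) q = (ρ q).det := fun q => rfl
  simp only [hd] at hdet
  have hdet0 : ∀ q, (ρ q).det ≠ 0 := by
    intro q h
    have h11 : (ρ q).det * (ρ q⁻¹).det = 1 := by
      rw [← Matrix.det_mul, ← map_mul, mul_inv_cancel, map_one, Matrix.det_one]
    rw [h, zero_mul] at h11
    exact zero_ne_one h11
  have hfin := key ν ρ
  have he0 : ((e : ℤ) : k) ≠ 0 := hu e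
  have hPK : ∏ j, (ρ (φ (gK j))).det ≠ 0 := Finset.prod_ne_zero_iff.2 fun j _ => hdet0 _
  -- det ρ(φ g) * ∏ K = ∏ H
  have h12 : (ρ (φ g)).det * ∏ j, (ρ (φ (gK j))).det = ∏ i, (ρ (φ (gH i))).det := by
    apply mul_left_cancel₀ hEH0
    rw [← hdet, ← hone]
    ring
  have h13 : (EK ^ Fintype.card ν * ∏ j, (ρ (φ (gK j))).det) ≠ 0 :=
    mul_ne_zero (pow_ne_zero _ hEK0) hPK
  apply mul_right_cancel₀ h13
  rw [hfin, ← h12, ← hone, mul_pow]
  ring

end Pool.Agent.DET
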