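import Pool.Agent.DET.St

set_option autoImplicit false

namespace Pool.Agent.DET

open Pool.Agent.WhK Matrix

namespace BRH

/-- the diagonal matrix with the unit `u` at the place `i₀` -/
noncomputable def dU {R n : Type} [Ring R] [Fintype n] [DecidableEq n] (i₀ : n) (u : Rˣ) :
    (Matrix n n R)ˣ :=
  Units.map ((Matrix.diagonalRingHom n R : (n → R) →+* Matrix n n R).toMonoidHom.comp
    (MonoidHom.mulSingle (fun _ : n => R) i₀)) u

theorem dU_val {R n : Type} [Ring R] [Fintype n] [DecidableEq n] (i₀ : n) (u : Rˣ) :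
    (dU i₀ u).val = Matrix.diagonal (Function.update 1 i₀ u.val) := rfl

noncomputable def gU {G : Type} [Group G] (g : G) : (MonoidAlgebra ℤ G)ˣ where
  val := MonoidAlgebra.single g 1
  inv := MonoidAlgebra.single g⁻¹ 1
  val_inv := by
    rw [MonoidAlgebra.single_mul_single, mul_inv_cancel, mul_one]
    rfl
  inv_val := by
    rw [MonoidAlgebra.single_mul_single, inv_mul_cancel, mul_one]
    rfl

/-- the determinants of the sign matrix -/
theorem dt_sgn {G R n ν : Type} [Group G] [CommRing R] [Fintype n] [DecidableEq n] [Fintype ν]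
    [DecidableEq ν] (ρ : G →* Matrix ν ν R) (i₀ : n) :
    dt ρ (Matrix.diagonal (Function.update 1 i₀ (-1)) : Matrix n n (MonoidAlgebra ℤ G)) =
      (-1) ^ Fintype.card ν := by
  have h1 : blk n (rh ρ) (Matrix.diagonal (Function.update 1 i₀ (-1)) :
      Matrix n n (MonoidAlgebra ℤ G)) =
      Matrix.diagonal fun p : n × ν => (if p.1 = i₀ then -1 else 1 : R) := by
    ext ⟨i, a⟩ ⟨j, b⟩
    simp only [blk, MonoidHom.coe_mk, OneHom.coe_mk, of_apply, Matrix.diagonal_apply,
      Prod.mk.injEq]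
    by_cases hij : i = j
    · subst hij
      by_cases hi : i = i₀
      · subst hi
        simp only [Function.update_self, if_true, true_and, map_neg, map_one, Matrix.neg_apply,
          Matrix.one_apply]
        by_cases hab : a = b <;> simp [hab]
      · simp only [Function.update_of_ne hi, if_true, true_and, if_neg hi, Pi.one_apply, map_one,
          Matrix.one_apply]
    · simp [hij]
  unfold dt
  rw [h1, Matrix.det_diagonal, Fintype.prod_prod_type]
  rw [Finset.prod_eq_single i₀]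
  · simp
  · intro b _ hb
    simp [hb]
  · intro h
    exact absurd (Finset.mem_univ _) h

theorem dab_sgn {G n : Type} [Group G] [Fintype n] [DecidableEq n] (i₀ : n) :
    dab (Matrix.diagonal (Function.update 1 i₀ (-1)) : Matrix n n (MonoidAlgebra ℤ G)) = -1 := by
  unfold dab
  rw [Matrix.diagonal_map (map_zero _), Matrix.det_diagonal, Finset.prod_eq_single i₀]
  · rw [Function.update_self, map_neg, map_one]
  · intro b _ hb
    simp [Function.update_of_ne hb]
  · intro h
    exact absurd (Finset.mem_univ _) h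

end BRH

open BRH in
theorem t_BRH (hD : s_DTB) (hA : s_DAB) (hC : s_CNV) (hH : s_HYP) (hF : s_GFI) (hT : s_TIND)
    (hG : s_GOOD) : s_BRH := by
  classical
  obtain ⟨-, D2, -, -, -, -, D7, -, -⟩ := hD
  obtain ⟨-, A2, -, A4, -⟩ := hA
  intro G Q n _ _ _ _ _ φ H _ _ X hφ hfg hHTF hQE
  rcases isEmpty_or_nonempty n with hn | hn
  · refine ⟨1, 1, fun k ν _ _ _ _ ρ => ?_⟩
    unfold dt
    rw [Matrix.det_isEmpty, map_one, map_one]
    simp
  set M : Subgroup G := H.comap φ with hM
  have hMfi : M.FiniteIndex := by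
    refine ⟨?_⟩
    rw [hM, H.index_comap_of_surjective hφ]
    exact Subgroup.index_ne_zero_of_finite
  haveI : Fintype (G ⧸ M) := Fintype.ofFinite _
  obtain ⟨hMfg, hMH⟩ := hF G M hfg hHTF hMfi
  have hMT : TorFin M := hMH M (MonoidHom.id M) Function.injective_id hMfg
  have hgood : Good M := hG M hMfg hMT
  set Y : (Matrix (n × (G ⧸ M)) (n × (G ⧸ M)) (MonoidAlgebra ℤ M))ˣ := blkU n (Res M) X with hY
  have hYv : Y.val = blk n (Res M) X.val := rfl
  obtain ⟨g, hg⟩ := hgood _ Y
  obtain ⟨n0⟩ := hn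
  let i₀ : n × (G ⧸ M) := (n0, ((1 : G) : G ⧸ M))
  -- the restriction of `φ`
  let ψ : M →* H := (φ.comp M.subtype).codRestrict H (fun m => m.2)
  -- the main computation
  have main : ∀ (E : (Matrix (n × (G ⧸ M)) (n × (G ⧸ M)) (MonoidAlgebra ℤ M))ˣ) (e : ℤ),
      dab (Y.val * (dU i₀ (gU g⁻¹)).val * E.val) = 1 →
      (∀ (k ν : Type) [Field k] [Fintype ν] [DecidableEq ν] (σ : M →* Matrix ν ν k),
        dt σ E.val = ((e : ℤ) : k) ^ Fintype.card ν) → e * e = 1 →
      ∀ (k ν : Type) [Field k] [IsAlgClosed k] [Fintype ν] [DecidableEq ν]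
        (ρ : Q →* Matrix ν ν k),
      dt (tens φ ρ (Q ⧸ H)) X.val = ((e : ℤ) : k) ^ Fintype.card ν * (ρ (φ g)).det := by
    intro E e h1 h2 h3 k ν _ _ _ _ ρ
    rw [hT G Q k n ν φ ρ H X.val hφ]
    have h4 := hH M H k (ν → k) (n × (G ⧸ M)) ψ (linRep (ρ.comp H.subtype))
      (Y * dU i₀ (gU g⁻¹) * E) hMfg hMH hQE h1
    have h5 : (linRep (ρ.comp H.subtype)).comp ψ =
        linRep ((ρ.comp φ).comp M.subtype) := rfl
    rw [h5, hC, Units.val_mul, Units.val_mul, D2, D2, h2] at h4
    have h6 : dt ((ρ.comp φ).comp M.subtype) (dU i₀ (gU g⁻¹)).val =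
        (((ρ.comp φ).comp M.subtype) g⁻¹).det := D7 _ _ _ _ _ i₀ g⁻¹
    rw [h6, hYv] at h4
    have h7 : (((ρ.comp φ).comp M.subtype) g⁻¹).det * (ρ (φ g)).det = 1 := by
      rw [← Matrix.det_mul]
      have : ((ρ.comp φ).comp M.subtype) g⁻¹ * ρ (φ g) = 1 := by
        have h8 : ρ (φ g) = ((ρ.comp φ).comp M.subtype) g := rfl
        rw [h8, ← map_mul, inv_mul_cancel, map_one]
      rw [this, Matrix.det_one]
    have h9 : (((e : ℤ) : k) ^ Fintype.card ν) * (((e : ℤ) : k) ^ Fintype.card ν) = 1 := by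
      rw [← mul_pow, ← Int.cast_mul, h3, Int.cast_one, one_pow]
    linear_combination (((e : ℤ) : k) ^ Fintype.card ν * (ρ (φ g)).det) * h4 -
      (((e : ℤ) : k) ^ Fintype.card ν * ((e : ℤ) : k) ^ Fintype.card ν *
        dt ((ρ.comp φ).comp M.subtype) (blk n (Res M) X.val)) * h7 -
      (dt ((ρ.comp φ).comp M.subtype) (blk n (Res M) X.val)) * h9
  have hdabD : dab (dU i₀ (gU g⁻¹)).val = MonoidAlgebra.single (Abelianization.of g⁻¹) 1 :=
    A4 M _ i₀ g⁻¹
  rcases hg with hg | hg
  · refine ⟨1, g, ?_⟩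
    have h1 := main 1 1 ?_ ?_ (by norm_num)
    · exact h1
    · rw [Units.val_one, mul_one, A2, hg, hdabD, MonoidAlgebra.single_mul_single, ← map_mul,
        mul_inv_cancel, map_one, mul_one]
      rfl
    · intro k ν _ _ _ σ
      rw [Units.val_one, Int.cast_one, one_pow]
      unfold dt
      rw [map_one, Matrix.det_one]
  · refine ⟨-1, g, ?_⟩
    have h1 := main (dU i₀ (-1)) (-1) ?_ ?_ (by norm_num)
    · exact h1
    · have h2 : dab (dU i₀ (-1 : (MonoidAlgebra ℤ M)ˣ)).val = -1 := dab_sgn i₀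
      rw [A2, A2, hg, hdabD, MonoidAlgebra.single_mul_single, ← map_mul,
        mul_inv_cancel, map_one, mul_one, h2]
      rw [mul_neg, mul_one, ← MonoidAlgebra.single_neg, neg_neg]
      rfl
    · intro k ν _ _ _ σ
      have h2 := dt_sgn σ i₀
      rw [Int.cast_neg, Int.cast_one]
      exact h2

end Pool.Agent.DET
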