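import Pool.Agent.DET.St

set_option autoImplicit false

namespace Pool.Agent.DET

namespace CLFA

variable {Q k V : Type} [Group Q] [Field k] [AddCommGroup V] [Module k V]

/-- the elements which act by scalars -/
def Z [Nontrivial V] (ρ : Q →* Module.End k V) : Subgroup Q where
  carrier := {q | ∃ μ : k, ρ q = μ • 1}
  one_mem' := ⟨1, by rw [map_one, one_smul]⟩
  mul_mem' := by
    rintro a b ⟨μ, hμ⟩ ⟨ν, hν⟩
    refine ⟨μ * ν, ?_⟩
    rw [map_mul, hμ, hν, smul_mul_smul_comm, one_mul]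
  inv_mem' := by
    rintro a ⟨μ, hμ⟩
    have h1 : μ • ρ a⁻¹ = 1 := by
      have h2 : ρ a * ρ a⁻¹ = 1 := by rw [← map_mul, mul_inv_cancel, map_one]
      rwa [hμ, smul_mul_assoc, one_mul] at h2
    have hμ0 : μ ≠ 0 := by
      rintro rfl
      rw [zero_smul] at h1
      exact zero_ne_one h1
    refine ⟨μ⁻¹, ?_⟩
    rw [← h1, smul_smul, inv_mul_cancel₀ hμ0, one_smul]

theorem mem_Z [Nontrivial V] (ρ : Q →* Module.End k V) (q : Q) :
    q ∈ Z ρ ↔ ∃ μ : k, ρ q = μ • 1 := Iff.rfl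

theorem Z_normal [Nontrivial V] (ρ : Q →* Module.End k V) : (Z ρ).Normal := by
  refine ⟨fun a ha g => ?_⟩
  obtain ⟨μ, hμ⟩ := ha
  refine ⟨μ, ?_⟩
  rw [map_mul, map_mul, hμ, mul_smul_comm, mul_one, smul_mul_assoc, ← map_mul, mul_inv_cancel,
    map_one]

theorem Z_ne_top [Nontrivial V] [FiniteDimensional k V] (ρ : Q →* Module.End k V)
    (hdim : 2 ≤ Module.finrank k V)
    (hirr : ∀ W : Submodule k V, (∀ q, W ≤ W.comap (ρ q)) → W = ⊥ ∨ W = ⊤) : Z ρ ≠ ⊤ := by
  intro hZ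
  obtain ⟨v, hv⟩ := exists_ne (0 : V)
  have hinv : ∀ q, Submodule.span k {v} ≤ (Submodule.span k {v}).comap (ρ q) := by
    intro q x hx
    have hq : q ∈ Z ρ := by rw [hZ]; exact Subgroup.mem_top q
    obtain ⟨μ, hμ⟩ := hq
    rw [Submodule.mem_comap, hμ, LinearMap.smul_apply, Module.End.one_apply]
    exact Submodule.smul_mem _ _ hx
  rcases hirr _ hinv with h | h
  · rw [Submodule.span_singleton_eq_bot] at h
    exact hv h
  · have h1 := finrank_span_singleton (K := k) hv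
    rw [h, finrank_top] at h1
    omega

end CLFA

open CLFA in
theorem t_CLFA : s_CLFA := by
  classical
  intro Q k V _ _ _ _ _ _ ρ hQE hdim hirr
  have : Nontrivial V := by
    apply Module.nontrivial_of_finrank_pos (R := k)
    omega
  obtain ⟨p, m, C, hp, hC, hcyc, hidx⟩ := hQE
  have : C.Normal := hC
  obtain ⟨c, hc⟩ := hcyc.exists_generator
  by_cases hsc : (c : Q) ∈ Z ρ
  · -- the cyclic group acts by scalars
    have hCZ : C ≤ Z ρ := by
      intro x hx
      obtain ⟨z, hz⟩ := hc ⟨x, hx⟩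
      have hz' : (c : Q) ^ z = x := by
        have := congrArg Subtype.val hz
        simpa using this
      rw [← hz']
      exact Subgroup.zpow_mem _ hsc z
    have : (Z ρ).Normal := Z_normal ρ
    have : Fact p.Prime := ⟨hp⟩
    have hdvd : (Z ρ).index ∣ p ^ m := by
      rw [← hidx]; exact Subgroup.index_dvd_of_le hCZ
    obtain ⟨e, -, he⟩ := (Nat.dvd_prime_pow hp).1 hdvd
    have hP : IsPGroup p (Q ⧸ Z ρ) := IsPGroup.of_card (by rw [← Subgroup.index_eq_card]; exact he)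
    have : Nontrivial (Q ⧸ Z ρ) := by
      by_contra hn
      rw [not_nontrivial_iff_subsingleton] at hn
      exact Z_ne_top ρ hdim hirr (QuotientGroup.subgroup_eq_top_of_subsingleton _ hn)
    have := hP.center_nontrivial
    obtain ⟨x, hx⟩ := exists_ne (1 : Subgroup.center (Q ⧸ Z ρ))
    obtain ⟨a₀, ha₀⟩ := QuotientGroup.mk_surjective (x : Q ⧸ Z ρ)
    have hnot : a₀ ∉ Z ρ := by
      intro h
      apply hx
      apply Subtype.ext
      rw [← ha₀]
      exact (QuotientGroup.eq_one_iff a₀).2 h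
    have hcen : ∀ q : Q, ∃ μ : k, ρ a₀ * ρ q = μ • (ρ q * ρ a₀) := by
      intro q
      have h1 : ((q⁻¹ * a₀ * q * a₀⁻¹ : Q) : Q ⧸ Z ρ) = 1 := by
        have h2 := (Subgroup.mem_center_iff.1 x.2) (q : Q ⧸ Z ρ)
        rw [← ha₀] at h2
        rw [QuotientGroup.mk_mul, QuotientGroup.mk_mul, QuotientGroup.mk_mul,
          QuotientGroup.mk_inv, QuotientGroup.mk_inv,
          mul_assoc (q : Q ⧸ Z ρ)⁻¹ (a₀ : Q ⧸ Z ρ) (q : Q ⧸ Z ρ), ← h2]
        group
      rw [QuotientGroup.eq_one_iff] at h1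
      obtain ⟨μ, hμ⟩ := h1
      refine ⟨μ, ?_⟩
      have h3 : a₀ * q = q * ((q⁻¹ * a₀ * q * a₀⁻¹) * a₀) := by group
      rw [← map_mul, h3, map_mul, map_mul, hμ, smul_mul_assoc, one_mul, mul_smul_comm]
    choose lam hlam using hcen
    refine ⟨ρ a₀, lam, fun _ => 1, p, m, C, ⟨hp, hC, hidx, ?_, ?_, Or.inr fun _ => rfl, ?_⟩⟩
    · intro x hx
      obtain ⟨μ, hμ⟩ := hCZ hx
      rw [hμ, mul_smul_comm, smul_mul_assoc, mul_one, one_mul]
    · intro q
      rw [pow_one]
      exact hlam q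
    · intro μ hμ
      exact hnot ⟨μ, hμ⟩
  · have hj : ∀ q : Q, ∃ j : ℕ, ρ (c : Q) * ρ q = ρ q * ρ (c : Q) ^ j := by
      intro q
      have h1 : q⁻¹ * (c : Q) * q ∈ C := by
        have := hC.conj_mem (c : Q) c.2 q⁻¹
        simpa using this
      have h2 := hc ⟨_, h1⟩
      rw [← mem_powers_iff_mem_zpowers] at h2
      obtain ⟨j, hj⟩ := h2
      have hj' : (c : Q) ^ j = q⁻¹ * (c : Q) * q := by
        have := congrArg Subtype.val hj
        simpa using this
      refine ⟨j, ?_⟩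
      rw [← map_pow, ← map_mul, ← map_mul, hj']
      congr 1
      group
    choose j hj using hj
    refine ⟨ρ c, fun _ => 1, j, p, m, C, ⟨hp, hC, hidx, ?_, ?_, Or.inl fun _ => rfl, ?_⟩⟩
    · intro x hx
      obtain ⟨z, hz⟩ := hc ⟨x, hx⟩
      have hz' : (c : Q) ^ z = x := by
        have := congrArg Subtype.val hz
        simpa using this
      rw [← hz', ← map_mul, ← map_mul]
      congr 1
      group
    · intro q
      rw [one_smul]
      exact hj q
    · intro μ hμ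
      exact hsc ⟨μ, hμ⟩

end Pool.Agent.DET
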