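import Pool.Agent.DET.St

/-!
# DET, module CLFB: an irreducible representation with Clifford data is induced
-/

set_option autoImplicit false

namespace Pool.Agent.DET

open Pool.Agent.WhK Matrix

namespace CLFB

/-- eigenvectors at different eigenvalues with sum zero are zero -/
lemma sum_eigen {k V : Type} [Field k] [AddCommGroup V] [Module k V] (a : Module.End k V)
    {ι : Type} [Fintype ι] (μ : ι → k) (hμ : Function.Injective μ) (w : ι → V)
    (hw : ∀ i, w i ∈ Module.End.eigenspace a (μ i)) (hsum : ∑ i, w i = 0) : ∀ i, w i = 0 := by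
  classical
  by_contra hcon
  push Not at hcon
  obtain ⟨i₀, hi₀⟩ := hcon
  have hli : LinearIndependent k (fun i : {i // w i ≠ 0} => w i.1) :=
    Module.End.eigenvectors_linearIndependent' a (fun i : {i // w i ≠ 0} => μ i.1)
      (fun x y h => Subtype.ext (hμ h)) _ (fun i => ⟨hw i.1, i.2⟩)
  have hs : ∑ i : {i // w i ≠ 0}, (1 : k) • w i.1 = 0 := by
    simp only [one_smul]
    have h1 : ∑ i ∈ Finset.univ.filter (fun i => w i ≠ 0), w i = 0 := by
      rw [Finset.sum_filter_ne_zero, hsum]
    have h2 : ∑ i ∈ Finset.univ.filter (fun i => w i ≠ 0), w i =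
        ∑ i : {i // w i ≠ 0}, w i.1 :=
      Finset.sum_subtype (Finset.univ.filter fun i => w i ≠ 0) (fun x => by simp) (fun i => w i)
    rw [← h2, h1]
  have := Fintype.linearIndependent_iff.1 hli (fun _ => (1 : k)) hs ⟨i₀, hi₀⟩
  exact one_ne_zero this

lemma pow_apply_eigen {k V : Type} [Field k] [AddCommGroup V] [Module k V] {a : Module.End k V}
    {μ : k} {v : V} (hv : v ∈ Module.End.eigenspace a μ) (n : ℕ) : (a ^ n) v = μ ^ n • v := by
  induction n with
  | zero => simp
  | succ n ih =>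
    rw [pow_succ', Module.End.mul_apply, ih, map_smul, Module.End.mem_eigenspace_iff.1 hv,
      smul_smul, pow_succ]

/-- an eigenvector has only one eigenvalue -/
lemma eig_unique {k V : Type} [Field k] [AddCommGroup V] [Module k V] {a : Module.End k V}
    {α β : k} {v : V} (hα : v ∈ Module.End.eigenspace a α) (hβ : v ∈ Module.End.eigenspace a β)
    (hv : v ≠ 0) : α = β := by
  rw [Module.End.mem_eigenspace_iff] at hα hβ
  have h : (α - β) • v = 0 := by rw [sub_smul, ← hα, ← hβ, sub_self]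
  rcases smul_eq_zero.1 h with h | h
  · exact sub_eq_zero.1 h
  · exact absurd h hv

end CLFB

open CLFB in
theorem t_CLFB : s_CLFB := by
  classical
  intro Q k V _ _ _ _ _ _ _ ρ a lam j p e C _ hirr hcl
  -- the maps `ρ q` are injective
  have hinv : ∀ q v, ρ q⁻¹ (ρ q v) = v := by
    intro q v
    rw [← Module.End.mul_apply, ← map_mul, inv_mul_cancel, map_one, Module.End.one_apply]
  have hne : ∀ q v, v ≠ 0 → ρ q v ≠ 0 := by
    intro q v hv h
    apply hv
    rw [← hinv q v, h, map_zero]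
  set F : Q → k → k := fun q μ => lam q * μ ^ j q with hF
  have hE : ∀ q μ v, v ∈ Module.End.eigenspace a μ → ρ q v ∈ Module.End.eigenspace a (F q μ) := by
    intro q μ v hv
    rw [Module.End.mem_eigenspace_iff]
    have h1 : a (ρ q v) = (a * ρ q) v := rfl
    rw [h1, hcl.conj q, LinearMap.smul_apply, Module.End.mul_apply, pow_apply_eigen hv, map_smul,
      smul_smul]
  have hcomm : ∀ q q' μ, F q (F q' μ) = F q' (F q μ) := by
    intro q q' μ
    simp only [hF]
    rcases hcl.one with h | h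
    · rw [h q, h q']
      simp only [one_mul]
      rw [← pow_mul, ← pow_mul, mul_comm]
    · rw [h q, h q']
      ring
  have hmul : ∀ q q' μ v, v ∈ Module.End.eigenspace a μ → v ≠ 0 → F (q * q') μ = F q (F q' μ) := by
    intro q q' μ v hv hv0
    have h1 := hE (q * q') μ v hv
    have h2 := hE q _ _ (hE q' μ v hv)
    rw [← Module.End.mul_apply, ← map_mul] at h2
    exact eig_unique h1 h2 (hne _ _ hv0)
  have hone : ∀ μ v, v ∈ Module.End.eigenspace a μ → v ≠ 0 → F 1 μ = μ := by
    intro μ v hv hv0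
    have h1 := hE 1 μ v hv
    rw [map_one, Module.End.one_apply] at h1
    exact eig_unique h1 hv hv0
  obtain ⟨μ₀, hμ₀⟩ := Module.End.exists_eigenvalue a
  obtain ⟨v₀, hv₀', hv₀0⟩ := hμ₀.exists_hasEigenvector
  have hv₀ : v₀ ∈ Module.End.eigenspace a μ₀ := hv₀'
  have hFinv : ∀ q, F q⁻¹ (F q μ₀) = μ₀ := by
    intro q
    rw [← hmul q⁻¹ q μ₀ v₀ hv₀ hv₀0, inv_mul_cancel]
    exact hone μ₀ v₀ hv₀ hv₀0
  let I : Subgroup Q :=
    { carrier := {q | F q μ₀ = μ₀}
      one_mem' := hone μ₀ v₀ hv₀ hv₀0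
      mul_mem' := by
        intro q q' hq hq'
        show F (q * q') μ₀ = μ₀
        rw [hmul q q' μ₀ v₀ hv₀ hv₀0, hq', hq]
      inv_mem' := by
        intro q hq
        show F q⁻¹ μ₀ = μ₀
        have h := hFinv q
        rw [hq] at h
        exact h }
  have hI : ∀ q, q ∈ I ↔ F q μ₀ = μ₀ := fun q => Iff.rfl
  have hInormal : I.Normal := by
    refine ⟨fun q hq g => ?_⟩
    rw [hI] at hq ⊢
    have hv1 := hE g⁻¹ μ₀ v₀ hv₀
    have hv10 := hne g⁻¹ v₀ hv₀0
    rw [hmul (g * q) g⁻¹ μ₀ v₀ hv₀ hv₀0, hmul g q _ _ hv1 hv10, hcomm q g⁻¹, hq,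
      ← hmul g g⁻¹ μ₀ v₀ hv₀ hv₀0, mul_inv_cancel]
    exact hone μ₀ v₀ hv₀ hv₀0
  have hCI : C ≤ I := by
    intro c hc
    rw [hI]
    have h1 : ρ c v₀ ∈ Module.End.eigenspace a μ₀ := by
      rw [Module.End.mem_eigenspace_iff, ← Module.End.mul_apply, hcl.comm c hc,
        Module.End.mul_apply, Module.End.mem_eigenspace_iff.1 hv₀, map_smul]
    exact (eig_unique h1 (hE c μ₀ v₀ hv₀) (hne _ _ hv₀0)).symm
  obtain ⟨m, hm, hindex⟩ : ∃ m ≤ e, I.index = p ^ m := by
    have h := Subgroup.index_dvd_of_le hCI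
    rw [hcl.index] at h
    exact (Nat.dvd_prime_pow hcl.prime).1 h
  have hWinv : ∀ q ∈ I, Module.End.eigenspace a μ₀ ≤ (Module.End.eigenspace a μ₀).comap (ρ q) := by
    intro q hq v hv
    rw [Submodule.mem_comap]
    have := hE q μ₀ v hv
    rw [(hI q).1 hq] at this
    exact this
  have hcm : ∀ q q' : Q, (q' * q)⁻¹ * (q * q') ∈ I := by
    intro q q'
    rw [hI, hmul _ _ μ₀ v₀ hv₀ hv₀0, hmul q q' μ₀ v₀ hv₀ hv₀0, hcomm q q',
      ← hmul q' q μ₀ v₀ hv₀ hv₀0]
    exact hFinv _
  refine ⟨m, I, Module.End.eigenspace a μ₀, ?_, hInormal, hindex, hcm, hWinv, ?_⟩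
  · -- `m > 0`
    rcases Nat.eq_zero_or_pos m with h | h
    · exfalso
      rw [h, pow_zero, Subgroup.index_eq_one] at hindex
      have hall : ∀ q, Module.End.eigenspace a μ₀ ≤ (Module.End.eigenspace a μ₀).comap (ρ q) :=
        fun q => hWinv q (by rw [hindex]; exact Subgroup.mem_top q)
      rcases hirr _ hall with h0 | h0
      · rw [h0] at hv₀
        exact hv₀0 ((Submodule.mem_bot k).1 hv₀)
      · apply hcl.nonscalar μ₀
        apply LinearMap.ext
        intro v
        have hv : v ∈ Module.End.eigenspace a μ₀ := by rw [h0]; exact Submodule.mem_top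
        rw [Module.End.mem_eigenspace_iff.1 hv, LinearMap.smul_apply, Module.End.one_apply]
    · exact h
  · intro ι _ t ht
    -- the linear map
    set W := Module.End.eigenspace a μ₀ with hW
    let Φ : (ι → W) →ₗ[k] V :=
      ∑ i, (ρ (t i)) ∘ₗ W.subtype ∘ₗ (LinearMap.proj i : (ι → W) →ₗ[k] W)
    have hΦ : ∀ f : ι → W, Φ f = ∑ i, ρ (t i) (f i : V) := by
      intro f
      simp only [Φ, LinearMap.sum_apply, LinearMap.comp_apply, LinearMap.proj_apply,
        Submodule.subtype_apply]
    have hfun : (fun f : ι → W => ∑ i, ρ (t i) (f i : V)) = Φ := by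
      funext f
      exact (hΦ f).symm
    rw [hfun]
    have hsingle : ∀ i (w : W), Φ (Pi.single i w) = ρ (t i) (w : V) := by
      intro i w
      rw [hΦ, Finset.sum_eq_single i]
      · rw [Pi.single_eq_same]
      · intro i' _ hi'
        rw [Pi.single_eq_of_ne hi']
        simp
      · intro h
        exact absurd (Finset.mem_univ i) h
    constructor
    · -- injective
      rw [← LinearMap.ker_eq_bot, LinearMap.ker_eq_bot']
      intro f hf
      rw [hΦ] at hf
      have hinj : Function.Injective (fun i => F (t i) μ₀) := by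
        intro i i' hii
        simp only at hii
        apply ht.1
        show (t i : Q ⧸ I) = (t i' : Q ⧸ I)
        apply Eq.symm
        rw [QuotientGroup.eq, hI, hmul _ _ μ₀ v₀ hv₀ hv₀0, hii]
        exact hFinv (t i')
      have h0 := sum_eigen a (fun i => F (t i) μ₀) hinj (fun i => ρ (t i) (f i : V))
        (fun i => hE (t i) μ₀ _ (f i).2) hf
      funext i
      apply Subtype.ext
      by_contra hcon
      exact hne (t i) (f i : V) hcon (h0 i)
    · -- surjective
      rw [← LinearMap.range_eq_top]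
      have hinvR : ∀ q, LinearMap.range Φ ≤ (LinearMap.range Φ).comap (ρ q) := by
        rintro q _ ⟨f, rfl⟩
        rw [Submodule.mem_comap, hΦ, map_sum]
        apply Submodule.sum_mem
        intro i _
        obtain ⟨i', hi'⟩ := ht.2 ((q * t i : Q) : Q ⧸ I)
        simp only at hi'
        have hmem : (t i')⁻¹ * (q * t i) ∈ I := QuotientGroup.eq.1 hi'
        have hw := hWinv _ hmem (f i).2
        rw [Submodule.mem_comap] at hw
        refine ⟨Pi.single i' ⟨_, hw⟩, ?_⟩
        rw [hsingle]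
        show ρ (t i') (ρ ((t i')⁻¹ * (q * t i)) (f i : V)) = ρ q (ρ (t i) (f i : V))
        rw [← Module.End.mul_apply, ← Module.End.mul_apply, ← map_mul, ← map_mul]
        congr 2
        group
      rcases hirr _ hinvR with h | h
      · exfalso
        obtain ⟨i, -⟩ := ht.2 ((1 : Q) : Q ⧸ I)
        have h1 : Φ (Pi.single i ⟨v₀, hv₀⟩) ∈ LinearMap.range Φ := ⟨_, rfl⟩
        rw [h, Submodule.mem_bot, hsingle] at h1
        exact hne _ _ hv₀0 h1
      · exact h

end Pool.Agent.DET
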