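import Pool.Agent.DET.St

/-!
Module DET_CNV (MP_e40716_gt): determinants of representations by matrices and by endomorphisms.
-/

set_option autoImplicit false

namespace Pool.Agent.DET

open Pool.Agent.WhK Matrix

namespace CNV

variable {G k ν : Type} [Group G] [Field k] [Fintype ν] [DecidableEq ν]

theorem rhL_single (ρ : G →* Matrix ν ν k) (g : G) (r : ℤ) :
    rhL (linRep ρ) (MonoidAlgebra.single g r) =
      Matrix.toLin' (rh ρ (MonoidAlgebra.single g r)) := by
  have h1 : rhL (linRep ρ) (MonoidAlgebra.single g r) = r • linRep ρ g :=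
    MonoidAlgebra.lift_single _ _ _
  have h2 : rh ρ (MonoidAlgebra.single g r) = r • ρ g := MonoidAlgebra.lift_single _ _ _
  rw [h1, h2, map_zsmul]
  rfl

theorem rhL_lin (ρ : G →* Matrix ν ν k) (x : MonoidAlgebra ℤ G) :
    rhL (linRep ρ) x = Matrix.toLin' (rh ρ x) := by
  induction x using MonoidAlgebra.induction_linear with
  | zero => rw [map_zero, map_zero, map_zero]
  | add a b h1 h2 => rw [map_add, map_add, map_add, h1, h2]
  | single g r => exact rhL_single ρ g r

end CNV

open CNV in
/-- **DET_CNV.** -/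
theorem t_CNV : s_CNV := by
  intro G k n ν _ _ _ _ _ _ ρ X
  let e : (n → ν → k) ≃ₗ[k] (n × ν → k) := (LinearEquiv.curry k k n ν).symm
  have h : (e : (n → ν → k) →ₗ[k] (n × ν → k)) ∘ₗ actL (linRep ρ) X ∘ₗ
      (e.symm : (n × ν → k) →ₗ[k] (n → ν → k)) = Matrix.toLin' (blk n (rh ρ) X) := by
    refine LinearMap.ext fun v => funext fun p => ?_
    have h1 : (Matrix.toLin' (blk n (rh ρ) X)) v p =
        ∑ j, ∑ t, rh ρ (X p.1 j) p.2 t * v (j, t) := by
      rw [Matrix.toLin'_apply, Matrix.mulVec, dotProduct, Fintype.sum_prod_type]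
      rfl
    rw [h1]
    show (actL (linRep ρ) X (fun i s => v (i, s))) p.1 p.2 = _
    unfold actL
    rw [LinearMap.pi_apply, LinearMap.sum_apply, Finset.sum_apply]
    refine Finset.sum_congr rfl fun j _ => ?_
    rw [LinearMap.comp_apply, rhL_lin, Matrix.toLin'_apply, Matrix.mulVec, dotProduct]
    rfl
  unfold dtL dt
  rw [← LinearMap.det_conj (actL (linRep ρ) X) e, h, LinearMap.det_toLin']

end Pool.Agent.DET
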