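import Pool.Agent.DET.St

/-!
# Determinants of the restriction to a normal subgroup of index a power of `p` (module CONG)
-/

set_option autoImplicit false

namespace Pool.Agent.DET

open Pool.Agent.WhK Matrix

namespace CONG

section Coefficient

variable {A : Type} [CommGroup A]

/-- the coefficient at `1` modulo `p` -/
noncomputable def cf (p : ℕ) (A : Type) [CommGroup A] : MonoidAlgebra ℤ A →+ ZMod p :=
  (Int.castAddHom (ZMod p)).comp ((Finsupp.applyAddHom (1 : A)).comp
    (MonoidAlgebra.coeffAddEquiv (R := ℤ) (M := A)).toAddMonoidHom)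

theorem cf_apply (p : ℕ) (w : MonoidAlgebra ℤ A) :
    cf p A w = ((MonoidAlgebra.coeff w 1 : ℤ) : ZMod p) := rfl

theorem cf_int (p : ℕ) (k : ℤ) (w : MonoidAlgebra ℤ A) :
    cf p A ((k : MonoidAlgebra ℤ A) * w) = k * cf p A w := by
  rw [← zsmul_eq_mul, map_zsmul, zsmul_eq_mul]

theorem cf_single_ne (p : ℕ) (a : A) (r : ℤ) (ha : a ≠ 1) :
    cf p A (MonoidAlgebra.single a r) = 0 := by
  rw [cf_apply, MonoidAlgebra.coeff_single, Finsupp.single_eq_of_ne (Ne.symm ha), Int.cast_zero]

theorem cf_one (p : ℕ) : cf p A 1 = 1 := by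
  rw [cf_apply, MonoidAlgebra.one_def, MonoidAlgebra.coeff_single, Finsupp.single_eq_same,
    Int.cast_one]

theorem cf_zmap (p : ℕ) (α : A →* A) (hα : Function.Injective α) (w : MonoidAlgebra ℤ A) :
    cf p A (zmap α w) = cf p A w := by
  rw [cf_apply, cf_apply]
  congr 1
  have h := Finsupp.mapDomain_apply hα (MonoidAlgebra.coeff w) 1
  rw [map_one] at h
  exact h

end Coefficient

theorem sum_single {G : Type} (x : MonoidAlgebra ℤ G) (S : Finset G)
    (h : ∀ g, MonoidAlgebra.coeff x g ≠ 0 → g ∈ S) :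
    x = ∑ g ∈ S, MonoidAlgebra.single g (MonoidAlgebra.coeff x g) := by
  classical
  apply MonoidAlgebra.coeff_injective
  rw [MonoidAlgebra.coeff_sum]
  ext g
  rw [Finsupp.finsetSum_apply]
  by_cases hg : g ∈ S
  · rw [Finset.sum_eq_single g]
    · rw [MonoidAlgebra.coeff_single, Finsupp.single_eq_same]
    · intro b _ hb
      rw [MonoidAlgebra.coeff_single, Finsupp.single_eq_of_ne (Ne.symm hb)]
    · exact fun h => absurd hg h
  · rw [Finset.sum_eq_zero]
    · by_contra hne
      exact hg (h g hne)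
    · intro b hb
      rw [MonoidAlgebra.coeff_single, Finsupp.single_eq_of_ne]
      rintro rfl
      exact hg hb

/-- the action by translations -/
def act (n T S : Type) [Group T] : MulAction T (n × T → n × S) where
  smul τ β := fun p => β (p.1, p.2 * τ)
  one_smul β := by
    funext p
    show β (p.1, p.2 * 1) = β p
    rw [mul_one]
  mul_smul a b β := by
    funext p
    show β (p.1, p.2 * (a * b)) = β (p.1, p.2 * a * b)
    rw [mul_assoc]

variable {G n : Type} [Group G] [Fintype n] [DecidableEq n] (M : Subgroup G)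
  [Fintype (G ⧸ M)] [DecidableEq (G ⧸ M)]

/-- the ring homomorphism `ℤ[G] → M_(G/M)(ℤ[M^ab])` -/
noncomputable def th : MonoidAlgebra ℤ G →+*
    Matrix (G ⧸ M) (G ⧸ M) (MonoidAlgebra ℤ (Abelianization M)) :=
  (zmap (Abelianization.of : M →* Abelianization M)).mapMatrix.comp (Res M)

theorem th_apply (x : MonoidAlgebra ℤ G) : th M x = rab M x := rfl

/-- `V(g) = det rab M g` -/
noncomputable def V : G →* MonoidAlgebra ℤ (Abelianization M) :=
  Matrix.detMonoidHom.comp ((th M).toMonoidHom.comp (MonoidAlgebra.of ℤ G))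

theorem V_apply (g : G) : V M g = (th M (MonoidAlgebra.single g 1)).det := rfl

/-- the ring homomorphism of `V` -/
noncomputable def L' : MonoidAlgebra ℤ G →+* MonoidAlgebra ℤ (Abelianization M) :=
  (MonoidAlgebra.lift ℤ (MonoidAlgebra ℤ (Abelianization M)) G (V M)).toRingHom

/-- the ring homomorphism of `V` on `ℤ[G^ab]` -/
noncomputable def L : MonoidAlgebra ℤ (Abelianization G) →+*
    MonoidAlgebra ℤ (Abelianization M) :=
  (MonoidAlgebra.lift ℤ (MonoidAlgebra ℤ (Abelianization M)) (Abelianization G)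
    ((Units.coeHom _).comp (Abelianization.lift (V M).toHomUnits))).toRingHom

theorem L'_single (g : G) (r : ℤ) : L' M (MonoidAlgebra.single g r) = r * V M g := by
  rw [← zsmul_eq_mul]
  exact MonoidAlgebra.lift_single _ _ _

theorem L_zmap (x : MonoidAlgebra ℤ G) :
    L M (zmap (Abelianization.of : G →* Abelianization G) x) = L' M x := by
  refine ext_single ((L M).comp (zmap (Abelianization.of : G →* Abelianization G))).toAddMonoidHom
    (L' M).toAddMonoidHom (fun g => ?_) x
  show L M (zmap (Abelianization.of : G →* Abelianization G) (MonoidAlgebra.single g 1)) =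
    L' M (MonoidAlgebra.single g 1)
  rw [MonoidAlgebra.mapDomainRingHom_apply, MonoidAlgebra.mapDomain_single, L'_single,
    Int.cast_one, one_mul]
  refine (MonoidAlgebra.lift_single _ _ _).trans ?_
  rw [one_smul]
  show ((Abelianization.lift (V M).toHomUnits (Abelianization.of g) : _ˣ) :
    MonoidAlgebra ℤ (Abelianization M)) = V M g
  rw [Abelianization.lift_apply_of]
  rfl

theorem L_dab (X : Matrix n n (MonoidAlgebra ℤ G)) : L M (dab X) = (X.map (L' M)).det := by
  unfold dab
  rw [RingHom.map_det]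
  congr 1
  refine Matrix.ext fun i j => ?_
  exact L_zmap M (X i j)

theorem dab_res (X : Matrix n n (MonoidAlgebra ℤ G)) :
    dab (blk n (Res M) X) = (blk n (th M) X).det := rfl

/-- the matrix of a choice -/
noncomputable def N {S : Finset G} (β : n × (G ⧸ M) → n × S) :
    Matrix (n × (G ⧸ M)) (n × (G ⧸ M)) (MonoidAlgebra ℤ (Abelianization M)) :=
  Matrix.of fun p q => if q.1 = (β p).1 then
    th M (MonoidAlgebra.single ((β p).2 : G) 1) p.2 q.2 else 0

theorem N_shift (hS : s_SHFT) [M.Normal] {S : Finset G} (β : n × (G ⧸ M) → n × S)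
    (τ : G ⧸ M) : ∃ α : Abelianization M →* Abelianization M, Function.Injective α ∧
      (N M β).det = zmap α (N M fun p => β (p.1, p.2 * τ)).det := by
  obtain ⟨α, u, hα, h⟩ := hS G M τ
  refine ⟨α, hα, ?_⟩
  let e : n × (G ⧸ M) ≃ n × (G ⧸ M) := Equiv.prodCongr (Equiv.refl n) (Equiv.mulRight τ)
  rw [← Matrix.det_submatrix_equiv_self e, RingHom.map_det]
  have h1 : (N M β).submatrix e e =
      Matrix.of fun i j => (MonoidAlgebra.single (u i.2)⁻¹ 1 :
        MonoidAlgebra ℤ (Abelianization M)) *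
        (Matrix.of fun i j : n × (G ⧸ M) => (MonoidAlgebra.single (u j.2) 1 :
          MonoidAlgebra ℤ (Abelianization M)) *
          ((zmap α).mapMatrix (N M fun p => β (p.1, p.2 * τ))) i j) i j := by
    refine Matrix.ext fun i j => ?_
    obtain ⟨i, y⟩ := i
    obtain ⟨j, x⟩ := j
    show (if j = (β (i, y * τ)).1 then
      th M (MonoidAlgebra.single ((β (i, y * τ)).2 : G) 1) (y * τ) (x * τ) else 0) =
      MonoidAlgebra.single (u y)⁻¹ 1 * (MonoidAlgebra.single (u x) 1 *
        zmap α (if j = (β (i, y * τ)).1 then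
          th M (MonoidAlgebra.single ((β (i, y * τ)).2 : G) 1) y x else 0))
    by_cases hj : j = (β (i, y * τ)).1
    · rw [if_pos hj, if_pos hj]
      have h2 := h (β (i, y * τ)).2 y x
      rw [← th_apply] at h2
      refine h2.trans ?_
      rw [mul_right_comm, mul_assoc]
    · rw [if_neg hj, if_neg hj, map_zero, mul_zero, mul_zero]
  rw [h1, Matrix.det_mul_column, Matrix.det_mul_row, ← mul_assoc, ← Finset.prod_mul_distrib,
    Finset.prod_eq_one, one_mul]
  intro i _
  rw [MonoidAlgebra.single_mul_single, inv_mul_cancel, one_mul, MonoidAlgebra.one_def]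

theorem N_fixed (hB : s_FBLK) {S : Finset G} (δ : n → n × S) :
    (N M fun p => δ p.1).det = (∏ i, V M (δ i).2) *
      (((Matrix.of fun i j : n => if j = (δ i).1 then (1 : ℤ) else 0).det : ℤ) :
        MonoidAlgebra ℤ (Abelianization M)) ^ Fintype.card (G ⧸ M) := by
  have h := hB n (G ⧸ M) (MonoidAlgebra ℤ (Abelianization M))
    (fun i => th M (MonoidAlgebra.single ((δ i).2 : G) 1)) fun i => (δ i).1
  have h2 : (((Matrix.of fun i j : n => if j = (δ i).1 then (1 : ℤ) else 0).det : ℤ) :
      MonoidAlgebra ℤ (Abelianization M)) =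
      (Matrix.of fun i j : n => if j = (δ i).1 then
        (1 : MonoidAlgebra ℤ (Abelianization M)) else 0).det := by
    show Int.castRingHom _ _ = _
    rw [RingHom.map_det]
    congr 1
    refine Matrix.ext fun i j => ?_
    show Int.castRingHom _ (if j = (δ i).1 then (1 : ℤ) else 0) = if j = (δ i).1 then _ else _
    split_ifs
    · exact map_one _
    · exact map_zero _
  rw [h2]
  exact h

theorem row_fixed {S : Finset G} (δ : n → n × S) :
    (Matrix.of fun i q : n => if q = (δ i).1 then V M (δ i).2 else 0).det =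
      (∏ i, V M (δ i).2) *
      (((Matrix.of fun i j : n => if j = (δ i).1 then (1 : ℤ) else 0).det : ℤ) :
        MonoidAlgebra ℤ (Abelianization M)) := by
  have h2 : (((Matrix.of fun i j : n => if j = (δ i).1 then (1 : ℤ) else 0).det : ℤ) :
      MonoidAlgebra ℤ (Abelianization M)) =
      (Matrix.of fun i j : n => if j = (δ i).1 then
        (1 : MonoidAlgebra ℤ (Abelianization M)) else 0).det := by
    show Int.castRingHom _ _ = _
    rw [RingHom.map_det]
    congr 1
    refine Matrix.ext fun i j => ?_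
    show Int.castRingHom _ (if j = (δ i).1 then (1 : ℤ) else 0) = if j = (δ i).1 then _ else _
    split_ifs
    · exact map_one _
    · exact map_zero _
  rw [h2, ← Matrix.det_mul_column]
  congr 1
  refine Matrix.ext fun i j => ?_
  show (if j = (δ i).1 then V M (δ i).2 else 0) =
    V M (δ i).2 * (if j = (δ i).1 then 1 else 0)
  split_ifs
  · rw [mul_one]
  · rw [mul_zero]

theorem main (hE : s_EXPA) (hF : s_FIXS) (hS : s_SHFT) (hB : s_FBLK) [M.Normal] (p m : ℕ)
    (hp : p.Prime) (hM : M.index = p ^ m) (X : Matrix n n (MonoidAlgebra ℤ G)) :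
    cf p _ (blk n (th M) X).det = cf p _ (X.map (L' M)).det := by
  classical
  have : Fact p.Prime := ⟨hp⟩
  have hcard : Fintype.card (G ⧸ M) = p ^ m := by
    rw [← hM, Subgroup.index, Nat.card_eq_fintype_card]
  let S : Finset G := Finset.univ.biUnion fun i : n => Finset.univ.biUnion fun j : n =>
    (MonoidAlgebra.coeff (X i j)).support
  have hSX : ∀ i j g, (MonoidAlgebra.coeff (X i j)) g ≠ 0 → g ∈ S := by
    intro i j g hg
    exact Finset.mem_biUnion.2 ⟨i, Finset.mem_univ _, Finset.mem_biUnion.2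
      ⟨j, Finset.mem_univ _, Finsupp.mem_support_iff.2 hg⟩⟩
  -- the coefficient
  let k : (n × (G ⧸ M) → n × S) → ℤ := fun β =>
    ∏ p, (MonoidAlgebra.coeff (X p.1 (β p).1)) (β p).2
  let f : (n × (G ⧸ M) → n × S) → ZMod p := fun β => (k β : ZMod p) * cf p _ (N M β).det
  have e1 : cf p _ (blk n (th M) X).det = ∑ β, f β := by
    rw [hE.2 G _ n (G ⧸ M) (th M) X S hSX, map_sum]
    refine Finset.sum_congr rfl fun β _ => ?_
    exact cf_int p (k β) _
  -- invariance
  have hinv : ∀ (τ : G ⧸ M) (β : n × (G ⧸ M) → n × S),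
      f (fun p => β (p.1, p.2 * τ)) = f β := by
    intro τ β
    have h1 : k (fun p => β (p.1, p.2 * τ)) = k β := by
      show ∏ p, _ = ∏ p, _
      let e : n × (G ⧸ M) ≃ n × (G ⧸ M) := Equiv.prodCongr (Equiv.refl n) (Equiv.mulRight τ)
      exact Equiv.prod_comp e fun p => (MonoidAlgebra.coeff (X p.1 (β p).1)) (β p).2
    obtain ⟨α, hα, h2⟩ := N_shift M hS β τ
    show (k _ : ZMod p) * _ = (k _ : ZMod p) * _
    rw [h1, h2, cf_zmap p α hα]
  have hP : IsPGroup p (G ⧸ M) :=
    IsPGroup.of_card (n := m) (by rw [Nat.card_eq_fintype_card, hcard])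
  have e2 := @hF p (G ⧸ M) (n × (G ⧸ M) → n × S) _ _ _ (act n (G ⧸ M) S) f hp hP
    (fun τ β => hinv τ β)
  rw [e1, e2]
  -- the fixed points
  have e3 : ∑ β ∈ Finset.univ.filter (fun β : n × (G ⧸ M) → n × S =>
      ∀ τ : G ⧸ M, (@HSMul.hSMul _ _ _ (@instHSMul _ _ (act n (G ⧸ M) S).toSMul) τ β) = β), f β =
      ∑ δ : n → n × S, f fun p => δ p.1 := by
    refine Finset.sum_bij' (fun β _ => fun i => β (i, 1)) (fun δ _ => fun p => δ p.1) ?_ ?_ ?_ ?_ ?_
    · intro β _
      exact Finset.mem_univ _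
    · intro δ _
      refine Finset.mem_filter.2 ⟨Finset.mem_univ _, fun τ => ?_⟩
      rfl
    · intro β hβ
      have h := (Finset.mem_filter.1 hβ).2
      funext p
      obtain ⟨i, y⟩ := p
      have h1 := congrFun (h y) (i, 1)
      have h2 : β (i, 1 * y) = β (i, 1) := h1
      rw [one_mul] at h2
      exact h2.symm
    · intro δ _
      rfl
    · intro β hβ
      have h := (Finset.mem_filter.1 hβ).2
      congr 1
      funext p
      obtain ⟨i, y⟩ := p
      have h1 := congrFun (h y) (i, 1)
      have h2 : β (i, 1 * y) = β (i, 1) := h1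
      rw [one_mul] at h2
      exact h2
  refine Eq.trans ?_ (Eq.trans e3 ?_)
  · exact Finset.sum_congr (by congr) fun _ _ => rfl
  -- the other expansion
  have e4 : (X.map (L' M)).det = ∑ δ : n → n × S,
      (∏ i, (((MonoidAlgebra.coeff (X i (δ i).1)) (δ i).2 : ℤ) :
        MonoidAlgebra ℤ (Abelianization M))) *
        (Matrix.of fun i q : n => if q = (δ i).1 then V M (δ i).2 else 0).det := by
    rw [← hE.1 n (n × S) (MonoidAlgebra ℤ (Abelianization M))
      (fun i a => (((MonoidAlgebra.coeff (X i a.1)) a.2 : ℤ) :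
        MonoidAlgebra ℤ (Abelianization M)))
      fun i a q => if q = a.1 then V M a.2 else 0]
    congr 1
    refine Matrix.ext fun i q => ?_
    show L' M (X i q) = ∑ a : n × S, (((MonoidAlgebra.coeff (X i a.1)) a.2 : ℤ) :
        MonoidAlgebra ℤ (Abelianization M)) * (if q = a.1 then V M a.2 else 0)
    rw [Fintype.sum_prod_type, Finset.sum_eq_single q]
    · have h1 := sum_single (X i q) S (hSX i q)
      conv_lhs => rw [h1, map_sum]
      rw [← Finset.sum_coe_sort S]
      refine Finset.sum_congr rfl fun g _ => ?_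
      rw [L'_single]
      simp
    · intro b _ hb
      refine Finset.sum_eq_zero fun x _ => ?_
      simp only
      rw [if_neg (Ne.symm hb), mul_zero]
    · exact fun h => absurd (Finset.mem_univ _) h
  rw [e4, map_sum]
  refine Finset.sum_congr rfl fun δ _ => ?_
  show (k _ : ZMod p) * cf p _ (N M fun p => δ p.1).det = _
  rw [N_fixed M hB δ, row_fixed M δ]
  set d : ℤ := (Matrix.of fun i j : n => if j = (δ i).1 then (1 : ℤ) else 0).det
  set κ : ℤ := ∏ i, (MonoidAlgebra.coeff (X i (δ i).1)) (δ i).2 with hκ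
  have e5 : k (fun p => δ p.1) = κ ^ Fintype.card (G ⧸ M) := by
    show ∏ p : n × (G ⧸ M), (MonoidAlgebra.coeff (X p.1 (δ p.1).1)) (δ p.1).2 = _
    rw [Fintype.prod_prod_type, hκ, ← Finset.prod_pow]
    refine Finset.prod_congr rfl fun i _ => ?_
    simp only
    rw [Finset.prod_const, Finset.card_univ]
  have e6 : (∏ i, (((MonoidAlgebra.coeff (X i (δ i).1)) (δ i).2 : ℤ) :
      MonoidAlgebra ℤ (Abelianization M))) = (κ : MonoidAlgebra ℤ (Abelianization M)) := by
    rw [hκ, Int.cast_prod]
  rw [e5, e6, cf_int, mul_comm (∏ i, V M (δ i).2), mul_comm (∏ i, V M (δ i).2), ← Int.cast_pow,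
    cf_int, cf_int, hcard, Int.cast_pow, Int.cast_pow, ZMod.pow_card_pow, ZMod.pow_card_pow]

end CONG

theorem t_CONG (hE : s_EXPA) (hF : s_FIXS) (hS : s_SHFT) (hB : s_FBLK) : s_CONG := by
  intro G n _ _ _ p m M _ _ _ hp hM X a hX ha
  have : Fact p.Prime := ⟨hp⟩
  by_contra hne
  have h := CONG.main M hE hF hS hB p m hp hM X
  rw [← CONG.dab_res, ← CONG.L_dab] at h
  have h0 : CONG.cf p _ (dab (blk n (Res M) X)) = 0 := by
    rcases ha with ha | ha <;> rw [ha] <;> exact CONG.cf_single_ne p a _ hne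
  rw [h0] at h
  rw [hX, map_one, CONG.cf_one] at h
  exact zero_ne_one h

end Pool.Agent.DET
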