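import Pool.Agent.DET.St

/-!
# DET: basic properties of the determinant over the abelianized group ring
-/

set_option autoImplicit false

namespace Pool.Agent.DET

open Pool.Agent.WhK Matrix

namespace DAB

theorem dab_diag (G n : Type) [Group G] [Fintype n] [DecidableEq n] (i₀ : n) (g : G) :
    dab (Matrix.diagonal (Function.update 1 i₀ (MonoidAlgebra.single g (1 : ℤ))) :
      Matrix n n (MonoidAlgebra ℤ G)) = MonoidAlgebra.single (Abelianization.of g) 1 := by
  unfold dab
  rw [Matrix.diagonal_map (map_zero _), Matrix.det_diagonal, Finset.prod_eq_single i₀]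
  · simp [zmap]
  · intro j _ hj
    simp [Function.update_of_ne hj]
  · intro h
    exact absurd (Finset.mem_univ i₀) h

end DAB

theorem t_DAB : s_DAB := by
  refine ⟨?_, ?_, ?_, ?_, ?_⟩
  · intro G n _ _ _
    unfold dab
    rw [Matrix.map_one _ (map_zero _) (map_one _), Matrix.det_one]
  · intro G n _ _ _ X Y
    unfold dab
    rw [Matrix.map_mul, Matrix.det_mul]
  · intro G n n' _ _ _ _ _ e X
    unfold dab
    rw [← Matrix.submatrix_map, Matrix.det_submatrix_equiv_self]
  · intro G n _ _ _ i₀ g
    exact DAB.dab_diag G n i₀ g
  · intro G H n _ _ _ _ i X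
    unfold dab
    rw [RingHom.map_det]
    refine congrArg Matrix.det (Matrix.ext fun a b => ?_)
    simp only [RingHom.mapMatrix_apply, Matrix.map_apply]
    have h : (zmap (Abelianization.of : G →* Abelianization G)).comp (zmap i) =
        (zmap (Abelianization.map i)).comp (zmap (Abelianization.of : H →* Abelianization H)) := by
      refine MonoidAlgebra.ringHom_ext' (RingHom.ext_int _ _) ?_
      ext x
      simp [zmap]
    exact DFunLike.congr_fun h (X a b)

end Pool.Agent.DET
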