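import Pool.Agent.DET.St

/-!
# Module DTB: basic properties of the determinants of representations
-/

set_option autoImplicit false

namespace Pool.Agent.DET

open Pool.Agent.WhK Matrix

namespace DTB

section

variable {G R n ν : Type} [Group G] [CommRing R] [Fintype n] [DecidableEq n] [Fintype ν]
  [DecidableEq ν]

theorem rh_single (ρ : G →* Matrix ν ν R) (g : G) (r : ℤ) :
    rh ρ (MonoidAlgebra.single g r) = r • ρ g :=
  MonoidAlgebra.lift_single _ _ _

theorem rh_one (ρ : G →* Matrix ν ν R) (g : G) :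
    rh ρ (MonoidAlgebra.single g 1) = ρ g := by
  rw [rh_single, one_smul]

/-- an entry of `rh ρ` as an additive map -/
noncomputable def ent (ρ : G →* Matrix ν ν R) (a b : ν) : MonoidAlgebra ℤ G →+ R where
  toFun x := rh ρ x a b
  map_zero' := by rw [map_zero]; rfl
  map_add' x y := by rw [map_add]; rfl

theorem dt_one (ρ : G →* Matrix ν ν R) : dt ρ (1 : Matrix n n (MonoidAlgebra ℤ G)) = 1 := by
  rw [dt, map_one, det_one]

theorem dt_mul (ρ : G →* Matrix ν ν R) (X Y : Matrix n n (MonoidAlgebra ℤ G)) :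
    dt ρ (X * Y) = dt ρ X * dt ρ Y := by
  rw [dt, map_mul, det_mul]
  rfl

theorem dt_map {S : Type} [CommRing S] (f : R →+* S) (ρ : G →* Matrix ν ν R)
    (X : Matrix n n (MonoidAlgebra ℤ G)) :
    dt (f.mapMatrix.toMonoidHom.comp ρ) X = f (dt ρ X) := by
  have h : ∀ x : MonoidAlgebra ℤ G,
      rh (f.mapMatrix.toMonoidHom.comp ρ) x = f.mapMatrix (rh ρ x) := by
    intro x
    refine ext_single (rh (f.mapMatrix.toMonoidHom.comp ρ)).toAddMonoidHom
      (f.mapMatrix.comp (rh ρ)).toAddMonoidHom (fun g => ?_) x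
    show rh (f.mapMatrix.toMonoidHom.comp ρ) (MonoidAlgebra.single g 1) =
      f.mapMatrix (rh ρ (MonoidAlgebra.single g 1))
    rw [rh_one, rh_one]
    rfl
  rw [dt, dt, RingHom.map_det]
  congr 1
  ext ⟨i, a⟩ ⟨j, b⟩
  show rh (f.mapMatrix.toMonoidHom.comp ρ) (X i j) a b = f (rh ρ (X i j) a b)
  rw [h]
  rfl

theorem dt_conj {ν' : Type} [Fintype ν'] [DecidableEq ν'] (ρ : G →* Matrix ν ν R)
    (ρ' : G →* Matrix ν' ν' R) (P : Matrix ν' ν R) (P' : Matrix ν ν' R)
    (X : Matrix n n (MonoidAlgebra ℤ G)) (h1 : P * P' = 1) (h2 : P' * P = 1)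
    (h : ∀ g, P * ρ g = ρ' g * P) : dt ρ X = dt ρ' X := by
  have hx : ∀ x : MonoidAlgebra ℤ G, P * rh ρ x = rh ρ' x * P := by
    intro x
    let F₁ : MonoidAlgebra ℤ G →+ Matrix ν' ν R :=
      { toFun := fun x => P * rh ρ x
        map_zero' := by rw [map_zero, Matrix.mul_zero]
        map_add' := fun x y => by rw [map_add, Matrix.mul_add] }
    let F₂ : MonoidAlgebra ℤ G →+ Matrix ν' ν R :=
      { toFun := fun x => rh ρ' x * P
        map_zero' := by rw [map_zero, Matrix.zero_mul]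
        map_add' := fun x y => by rw [map_add, Matrix.add_mul] }
    refine ext_single F₁ F₂ (fun g => ?_) x
    show P * rh ρ (MonoidAlgebra.single g 1) = rh ρ' (MonoidAlgebra.single g 1) * P
    rw [rh_one, rh_one]
    exact h g
  have e := infl_intertwine (rh ρ) (rh ρ') P hx X
  have i1 : infl n (1 : Matrix ν ν R) = 1 := by
    have := infl_smul_one (Λ := R) (n := n) (S := ν) 1
    rwa [one_smul, one_smul] at this
  have i2 : infl n (1 : Matrix ν' ν' R) = 1 := by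
    have := infl_smul_one (Λ := R) (n := n) (S := ν') 1
    rwa [one_smul, one_smul] at this
  have e1 : infl n P * infl n P' = 1 := by rw [infl_mul, h1, i2]
  have e2 : infl n P' * infl n P = 1 := by rw [infl_mul, h2, i1]
  rw [dt, dt, ← det_conj_of_mul_eq_one e1 e2, e, Matrix.mul_assoc, e1, Matrix.mul_one]

theorem dt_submatrix {n' : Type} [Fintype n'] [DecidableEq n'] (ρ : G →* Matrix ν ν R)
    (e : n' ≃ n) (X : Matrix n n (MonoidAlgebra ℤ G)) : dt ρ (X.submatrix e e) = dt ρ X := by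
  rw [dt, dt, ← det_submatrix_equiv_self (e.prodCongr (Equiv.refl ν))]
  rfl

theorem dt_blocks {ν₁ ν₂ : Type} [Fintype ν₁] [DecidableEq ν₁] [Fintype ν₂] [DecidableEq ν₂]
    (ρ : G →* Matrix (ν₁ ⊕ ν₂) (ν₁ ⊕ ν₂) R) (ρ₁ : G →* Matrix ν₁ ν₁ R)
    (ρ₂ : G →* Matrix ν₂ ν₂ R) (B : G → Matrix ν₁ ν₂ R) (X : Matrix n n (MonoidAlgebra ℤ G))
    (h : ∀ g, ρ g = fromBlocks (ρ₁ g) (B g) 0 (ρ₂ g)) : dt ρ X = dt ρ₁ X * dt ρ₂ X := by
  have h1 : ∀ x a b, rh ρ x (Sum.inl a) (Sum.inl b) = rh ρ₁ x a b := by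
    intro x a b
    refine ext_single (ent ρ (Sum.inl a) (Sum.inl b)) (ent ρ₁ a b) (fun g => ?_) x
    show rh ρ (MonoidAlgebra.single g 1) (Sum.inl a) (Sum.inl b) =
      rh ρ₁ (MonoidAlgebra.single g 1) a b
    rw [rh_one, rh_one, h]
    rfl
  have h2 : ∀ x a b, rh ρ x (Sum.inr a) (Sum.inr b) = rh ρ₂ x a b := by
    intro x a b
    refine ext_single (ent ρ (Sum.inr a) (Sum.inr b)) (ent ρ₂ a b) (fun g => ?_) x
    show rh ρ (MonoidAlgebra.single g 1) (Sum.inr a) (Sum.inr b) =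
      rh ρ₂ (MonoidAlgebra.single g 1) a b
    rw [rh_one, rh_one, h]
    rfl
  have h0 : ∀ x a b, rh ρ x (Sum.inr a) (Sum.inl b) = 0 := by
    intro x a b
    refine ext_single (ent ρ (Sum.inr a) (Sum.inl b)) 0 (fun g => ?_) x
    show rh ρ (MonoidAlgebra.single g 1) (Sum.inr a) (Sum.inl b) = 0
    rw [rh_one, h]
    rfl
  rw [dt, ← det_submatrix_equiv_self (Equiv.prodSumDistrib n ν₁ ν₂).symm]
  set M := (blk n (rh ρ) X).submatrix (Equiv.prodSumDistrib n ν₁ ν₂).symm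
    (Equiv.prodSumDistrib n ν₁ ν₂).symm with hM
  have e1 : M.toBlocks₁₁ = blk n (rh ρ₁) X := by
    ext ⟨i, a⟩ ⟨j, b⟩
    exact h1 (X i j) a b
  have e2 : M.toBlocks₂₂ = blk n (rh ρ₂) X := by
    ext ⟨i, a⟩ ⟨j, b⟩
    exact h2 (X i j) a b
  have e3 : M.toBlocks₂₁ = 0 := by
    ext ⟨i, a⟩ ⟨j, b⟩
    exact h0 (X i j) a b
  rw [← fromBlocks_toBlocks M, e1, e2, e3, det_fromBlocks_zero₂₁]
  rfl

theorem dt_diagonal (ρ : G →* Matrix ν ν R) (i₀ : n) (g : G) :
    dt ρ (Matrix.diagonal (Function.update 1 i₀ (MonoidAlgebra.single g (1 : ℤ)))) =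
      (ρ g).det := by
  set d : n → MonoidAlgebra ℤ G := Function.update 1 i₀ (MonoidAlgebra.single g (1 : ℤ)) with hd
  have e : (blk n (rh ρ) (Matrix.diagonal d)).submatrix (Equiv.prodComm ν n) (Equiv.prodComm ν n) =
      blockDiagonal fun i => rh ρ (d i) := by
    ext ⟨a, i⟩ ⟨b, j⟩
    show rh ρ (Matrix.diagonal d i j) a b = _
    rw [blockDiagonal_apply, diagonal_apply]
    split_ifs with h
    · rfl
    · rw [map_zero]
      rfl
  rw [dt, ← det_submatrix_equiv_self (Equiv.prodComm ν n), e, det_blockDiagonal,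
    Finset.prod_eq_single i₀]
  · rw [hd, Function.update_self, rh_one]
  · intro i _ hi
    rw [hd, Function.update_of_ne hi, Pi.one_apply, map_one, det_one]
  · simp

theorem dt_comp {H : Type} [Group H] (φ : H →* G) (ρ : G →* Matrix ν ν R)
    (X : Matrix n n (MonoidAlgebra ℤ H)) : dt (ρ.comp φ) X = dt ρ (X.map (zmap φ)) := by
  have h : ∀ x : MonoidAlgebra ℤ H, rh (ρ.comp φ) x = rh ρ (zmap φ x) := by
    intro x
    refine ext_single (rh (ρ.comp φ)).toAddMonoidHom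
      ((rh ρ).comp (zmap φ)).toAddMonoidHom (fun g => ?_) x
    show rh (ρ.comp φ) (MonoidAlgebra.single g 1) = rh ρ (zmap φ (MonoidAlgebra.single g 1))
    rw [rh_one]
    have e : zmap φ (MonoidAlgebra.single g 1) = MonoidAlgebra.single (φ g) 1 := by
      simp [zmap]
    rw [e, rh_one]
    rfl
  rw [dt, dt]
  congr 1
  ext ⟨i, a⟩ ⟨j, b⟩
  show rh (ρ.comp φ) (X i j) a b = rh ρ (zmap φ (X i j)) a b
  rw [h]

theorem dt_char (χ : G →* R) (X : Matrix n n (MonoidAlgebra ℤ G)) (g : G) (e : ℤ)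
    (hg : dab X = MonoidAlgebra.single (Abelianization.of g) e) :
    dt ((Matrix.scalar Unit).toMonoidHom.comp χ) X = (e : R) * χ g := by
  let χa : Abelianization G →* R := (Units.coeHom R).comp (Abelianization.lift χ.toHomUnits)
  have ha : ∀ x : G, χa (Abelianization.of x) = χ x := by
    intro x
    show ((Abelianization.lift χ.toHomUnits (Abelianization.of x) : Rˣ) : R) = χ x
    rw [Abelianization.lift_apply_of]
    rfl
  let ψ : MonoidAlgebra ℤ (Abelianization G) →+* R :=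
    (MonoidAlgebra.lift ℤ R (Abelianization G) χa).toRingHom
  have hψ : ∀ (x : Abelianization G) (r : ℤ), ψ (MonoidAlgebra.single x r) = r • χa x := fun x r =>
    MonoidAlgebra.lift_single _ _ _
  have key : dt ((Matrix.scalar Unit).toMonoidHom.comp χ) X = ψ (dab X) := by
    have h : ∀ x : MonoidAlgebra ℤ G, rh ((Matrix.scalar Unit).toMonoidHom.comp χ) x () () =
        ψ (zmap (Abelianization.of : G →* Abelianization G) x) := by
      intro x
      refine ext_single (ent ((Matrix.scalar Unit).toMonoidHom.comp χ) () ())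
        (ψ.comp (zmap (Abelianization.of : G →* Abelianization G))).toAddMonoidHom
        (fun g => ?_) x
      show rh ((Matrix.scalar Unit).toMonoidHom.comp χ) (MonoidAlgebra.single g 1) () () =
        ψ (zmap (Abelianization.of : G →* Abelianization G) (MonoidAlgebra.single g 1))
      have e : zmap (Abelianization.of : G →* Abelianization G) (MonoidAlgebra.single g 1) =
          MonoidAlgebra.single (Abelianization.of g) 1 := by
        simp [zmap]
      rw [rh_one, e, hψ, one_smul, ha]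
      show Matrix.scalar Unit (χ g) () () = χ g
      simp
    rw [dab, RingHom.map_det, dt, ← det_submatrix_equiv_self (Equiv.prodPUnit n).symm]
    congr 1
    ext i j
    exact h (X i j)
  rw [key, hg, hψ, ha, zsmul_eq_mul]

end

end DTB

/-- **DTB**. -/
theorem t_DTB : s_DTB :=
  ⟨fun _ _ _ _ _ _ _ _ _ _ ρ => DTB.dt_one ρ, fun _ _ _ _ _ _ _ _ _ _ ρ X Y => DTB.dt_mul ρ X Y,
    fun _ _ _ _ _ _ _ _ _ _ _ _ f ρ X => DTB.dt_map f ρ X,
    fun _ _ _ _ _ _ _ _ _ _ _ _ _ ρ ρ' P P' X h1 h2 h => DTB.dt_conj ρ ρ' P P' X h1 h2 h,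
    fun _ _ _ _ _ _ _ _ _ _ _ _ _ ρ e X => DTB.dt_submatrix ρ e X,
    fun _ _ _ _ _ _ _ _ _ _ _ _ _ ρ ρ₁ ρ₂ B X h => DTB.dt_blocks ρ ρ₁ ρ₂ B X h,
    fun _ _ _ _ _ _ _ _ _ _ ρ i₀ g => DTB.dt_diagonal ρ i₀ g,
    fun _ _ _ _ _ _ _ _ _ _ _ _ φ ρ X => DTB.dt_comp φ ρ X,
    fun _ _ _ _ _ _ _ χ X g e hg => DTB.dt_char χ X g e hg⟩

end Pool.Agent.DET
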