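import Pool.Agent.DET.St

/-!
# Project DET, module DTL: basic properties of the determinants of linear representations
-/

set_option autoImplicit false

namespace Pool.Agent.DET

open Pool.Agent.WhK Matrix

namespace DTL

section General

variable {k : Type} [Field k]

theorem det_eq {M N : Type} [AddCommGroup M] [Module k M] [AddCommGroup N] [Module k N]
    (E : M ≃ₗ[k] N) (f : M →ₗ[k] M) (g : N →ₗ[k] N) (h : ∀ x, E (f x) = g (E x)) :
    LinearMap.det f = LinearMap.det g := by
  rw [← LinearMap.det_conj f E]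
  congr 1
  ext y
  rw [LinearMap.comp_apply, LinearMap.comp_apply]
  show E (f (E.symm y)) = g y
  rw [h, LinearEquiv.apply_symm_apply]

end General

section Rep

variable {G k V V' n : Type} [Group G] [Field k] [AddCommGroup V] [Module k V]
  [AddCommGroup V'] [Module k V'] [Fintype n] [DecidableEq n]

theorem rhL_single (ρ : G →* Module.End k V) (g : G) :
    rhL ρ (MonoidAlgebra.single g 1) = ρ g := by
  show (MonoidAlgebra.lift ℤ (Module.End k V) G ρ) (MonoidAlgebra.single g 1) = ρ g
  rw [MonoidAlgebra.lift_single, one_smul]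

/-- an intertwining map commutes with the group ring -/
theorem tw (ρ : G →* Module.End k V) (ρ' : G →* Module.End k V') (T : V →ₗ[k] V')
    (h : ∀ g v, T (ρ g v) = ρ' g (T v)) (x : MonoidAlgebra ℤ G) (v : V) :
    T (rhL ρ x v) = rhL ρ' x (T v) := by
  let F1 : MonoidAlgebra ℤ G →+ (V →ₗ[k] V') :=
    { toFun := fun x => T.comp (rhL ρ x)
      map_zero' := by rw [map_zero, LinearMap.comp_zero]
      map_add' := fun x y => by rw [map_add, LinearMap.comp_add] }
  let F2 : MonoidAlgebra ℤ G →+ (V →ₗ[k] V') :=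
    { toFun := fun x => (rhL ρ' x).comp T
      map_zero' := by rw [map_zero, LinearMap.zero_comp]
      map_add' := fun x y => by rw [map_add, LinearMap.add_comp] }
  have h1 := ext_single F1 F2 (fun g => by
    show T.comp (rhL ρ (MonoidAlgebra.single g 1)) = (rhL ρ' (MonoidAlgebra.single g 1)).comp T
    rw [rhL_single, rhL_single]
    ext v
    exact h g v) x
  exact congrArg (fun f : V →ₗ[k] V' => f v) h1

theorem actL_apply (ρ : G →* Module.End k V) (X : Matrix n n (MonoidAlgebra ℤ G)) (v : n → V)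
    (i : n) : actL ρ X v i = ∑ j, rhL ρ (X i j) (v j) := by
  unfold actL
  rw [LinearMap.pi_apply, LinearMap.sum_apply]
  rfl

theorem actL_mul (ρ : G →* Module.End k V) (X Y : Matrix n n (MonoidAlgebra ℤ G)) :
    actL ρ (X * Y) = (actL ρ X).comp (actL ρ Y) := by
  refine LinearMap.ext fun v => ?_
  funext i
  rw [LinearMap.comp_apply, actL_apply, actL_apply]
  have h1 : ∀ j, rhL ρ ((X * Y) i j) (v j) = ∑ l, rhL ρ (X i l) (rhL ρ (Y l j) (v j)) := by
    intro j
    rw [Matrix.mul_apply, map_sum, LinearMap.sum_apply]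
    refine Finset.sum_congr rfl fun l _ => ?_
    rw [map_mul]
    rfl
  rw [Finset.sum_congr rfl fun j _ => h1 j, Finset.sum_comm]
  refine Finset.sum_congr rfl fun l _ => ?_
  rw [actL_apply, map_sum]

theorem dtL_mul (ρ : G →* Module.End k V) (X Y : Matrix n n (MonoidAlgebra ℤ G)) :
    dtL ρ (X * Y) = dtL ρ X * dtL ρ Y := by
  unfold dtL
  rw [actL_mul, LinearMap.det_comp]

theorem dtL_equiv (ρ : G →* Module.End k V) (ρ' : G →* Module.End k V')
    (e : V ≃ₗ[k] V') (X : Matrix n n (MonoidAlgebra ℤ G)) (h : ∀ g v, e (ρ g v) = ρ' g (e v)) :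
    dtL ρ X = dtL ρ' X := by
  unfold dtL
  refine det_eq (LinearEquiv.piCongrRight fun _ : n => e) _ _ ?_
  intro v
  funext i
  rw [LinearEquiv.piCongrRight_apply, actL_apply, actL_apply, map_sum]
  refine Finset.sum_congr rfl fun j _ => ?_
  rw [LinearEquiv.piCongrRight_apply]
  exact tw ρ ρ' e.toLinearMap h (X i j) (v j)

/-- functions with values in the subspace -/
def subPi (W : Submodule k V) : (Submodule.pi Set.univ fun _ : n => W) ≃ₗ[k] (n → W) where
  toFun v i := ⟨v.1 i, v.2 i trivial⟩
  map_add' _ _ := rfl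
  map_smul' _ _ := rfl
  invFun v := ⟨fun i => (v i : V), fun i _ => (v i).2⟩
  left_inv _ := rfl
  right_inv _ := rfl

theorem dtL_sub [FiniteDimensional k V] (ρ : G →* Module.End k V) (W : Submodule k V)
    (h : ∀ g, W ≤ W.comap (ρ g)) (X : Matrix n n (MonoidAlgebra ℤ G)) :
    dtL ρ X = dtL (subRep ρ W h) X * dtL (quoRep ρ W h) X := by
  have hs : ∀ (x : MonoidAlgebra ℤ G) (w : W),
      ((rhL (subRep ρ W h) x w : W) : V) = rhL ρ x (w : V) := fun x w =>
    tw (subRep ρ W h) ρ W.subtype (fun g v => rfl) x w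
  have hq : ∀ (x : MonoidAlgebra ℤ G) (v : V),
      W.mkQ (rhL ρ x v) = rhL (quoRep ρ W h) x (W.mkQ v) := fun x v =>
    tw ρ (quoRep ρ W h) W.mkQ (fun g v => rfl) x v
  have he : (Submodule.pi Set.univ fun _ : n => W) ≤
      (Submodule.pi Set.univ fun _ : n => W).comap (actL ρ X) := by
    intro v hv i _
    show actL ρ X v i ∈ W
    rw [actL_apply]
    refine Submodule.sum_mem _ fun j _ => ?_
    have h1 := hs (X i j) ⟨v j, hv j trivial⟩
    rw [← h1]
    exact (rhL (subRep ρ W h) (X i j) ⟨v j, hv j trivial⟩).2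
  unfold dtL
  rw [LinearMap.det_eq_det_mul_det (Submodule.pi Set.univ fun _ : n => W) (actL ρ X) he]
  congr 1
  · refine det_eq (subPi W) _ _ ?_
    intro v
    funext i
    apply Subtype.ext
    rw [actL_apply, Submodule.coe_sum]
    show actL ρ X v.1 i = _
    rw [actL_apply]
    refine Finset.sum_congr rfl fun j _ => ?_
    rw [hs]
    rfl
  · refine det_eq (Submodule.quotientPi fun _ : n => W) _ _ ?_
    intro v
    obtain ⟨v, rfl⟩ := Submodule.Quotient.mk_surjective _ v
    have e2 : ∀ u : n → V, (Submodule.quotientPi fun _ : n => W)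
        (Submodule.Quotient.mk u) = fun i => W.mkQ (u i) := fun u => rfl
    rw [Submodule.mapQ_apply, e2, e2]
    funext i
    rw [actL_apply, actL_apply, map_sum]
    exact Finset.sum_congr rfl fun j _ => hq (X i j) (v j)

/-- evaluation at one -/
def ev1 (k : Type) [Field k] : Module.End k k →+* k where
  toFun f := f 1
  map_one' := rfl
  map_zero' := rfl
  map_add' _ _ := rfl
  map_mul' f g := by
    show f (g 1) = f 1 * g 1
    have h : f (g 1) = f (g 1 • (1 : k)) := by rw [smul_eq_mul, mul_one]
    rw [h, map_smul, smul_eq_mul, mul_comm]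

theorem dtL_k (ρ : G →* Module.End k k) (X : Matrix n n (MonoidAlgebra ℤ G)) :
    dtL ρ X = (X.map ((ev1 k).comp (rhL ρ))).det := by
  unfold dtL
  have h : actL ρ X = Matrix.toLin' (X.map ((ev1 k).comp (rhL ρ))) := by
    refine LinearMap.ext fun v => ?_
    funext i
    rw [actL_apply, Matrix.toLin'_apply, Matrix.mulVec, dotProduct]
    refine Finset.sum_congr rfl fun j _ => ?_
    rw [Matrix.map_apply]
    show (rhL ρ (X i j)) (v j) = (rhL ρ (X i j)) 1 * v j
    have h : (rhL ρ (X i j)) (v j) = (rhL ρ (X i j)) (v j • (1 : k)) := by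
      rw [smul_eq_mul, mul_one]
    rw [h, map_smul, smul_eq_mul, mul_comm]
  rw [h, LinearMap.det_toLin']

theorem dtL_one' (ρ : G →* Module.End k k) (X : Matrix n n (MonoidAlgebra ℤ G))
    (h : dab X = 1) : dtL ρ X = 1 := by
  let χ : G →* k := (ev1 k).toMonoidHom.comp ρ
  let χ' : Abelianization G →* k := (Units.coeHom k).comp (Abelianization.lift χ.toHomUnits)
  let θ : MonoidAlgebra ℤ (Abelianization G) →+* k :=
    (MonoidAlgebra.lift ℤ k (Abelianization G) χ').toRingHom
  have h1 : ∀ x : MonoidAlgebra ℤ G, (ev1 k).comp (rhL ρ) x =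
      θ (zmap (Abelianization.of : G →* Abelianization G) x) := by
    intro x
    refine ext_single (((ev1 k).comp (rhL ρ)).toAddMonoidHom)
      ((θ.comp (zmap (Abelianization.of : G →* Abelianization G))).toAddMonoidHom) ?_ x
    intro g
    show ev1 k (rhL ρ (MonoidAlgebra.single g 1)) =
      θ (zmap (Abelianization.of : G →* Abelianization G) (MonoidAlgebra.single g 1))
    rw [rhL_single]
    have e1 : zmap (Abelianization.of : G →* Abelianization G) (MonoidAlgebra.single g 1) =
        MonoidAlgebra.single (Abelianization.of g) 1 := by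
      unfold zmap
      rw [MonoidAlgebra.mapDomainRingHom_apply, MonoidAlgebra.mapDomain_single]
    rw [e1]
    show _ = (MonoidAlgebra.lift ℤ k (Abelianization G) χ')
      (MonoidAlgebra.single (Abelianization.of g) 1)
    rw [MonoidAlgebra.lift_single, one_smul]
    show _ = ((Abelianization.lift χ.toHomUnits (Abelianization.of g) : kˣ) : k)
    rw [Abelianization.lift_apply_of]
    rfl
  have h2 : dtL ρ X = θ (dab X) := by
    rw [dtL_k]
    unfold dab
    rw [RingHom.map_det]
    congr 1
    ext i j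
    exact h1 (X i j)
  rw [h2, h, map_one]

end Rep

end DTL

theorem t_DTL : s_DTL := by
  refine ⟨?_, ?_, ?_, ?_, ?_⟩
  · intro G k V n _ _ _ _ _ _ _ ρ X Y
    exact DTL.dtL_mul ρ X Y
  · intro G k V V' n _ _ _ _ _ _ _ _ _ _ ρ ρ' e X h
    exact DTL.dtL_equiv ρ ρ' e X h
  · intro G k V n _ _ _ _ _ _ _ ρ W h X
    exact DTL.dtL_sub ρ W h X
  · intro G k V n _ _ _ _ _ _ _ ρ X h
    have : Subsingleton V := Module.finrank_zero_iff.1 h
    unfold dtL
    exact LinearMap.det_eq_one_of_subsingleton _
  · intro G k V n _ _ _ _ _ _ _ ρ X h hX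
    have h1 : Module.finrank k V = Module.finrank k k := by rw [h, Module.finrank_self]
    let e : V ≃ₗ[k] k := LinearEquiv.ofFinrankEq V k h1
    let ρ' : G →* Module.End k k :=
      { toFun := fun g => (e.toLinearMap.comp (ρ g)).comp e.symm.toLinearMap
        map_one' := by
          ext
          simp
        map_mul' := fun a b => by
          ext
          simp }
    rw [DTL.dtL_equiv ρ ρ' e X (fun g v => by
      show e (ρ g v) = e (ρ g (e.symm (e v)))
      rw [LinearEquiv.symm_apply_apply])]
    exact DTL.dtL_one' ρ' X hX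

end Pool.Agent.DET
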