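import Pool.Agent.SUR.St6
import Pool.Agent.Lib_helper44.Wh.Quot

/-!
# Determinants of invertible matrices over group rings: definitions

All groups, rings, vector spaces and index types live in `Type`.
-/

set_option autoImplicit false

namespace Pool.Agent.DET

open Pool.Agent.WhK Matrix

section Rep

variable {G R n ν : Type} [Group G] [CommRing R] [Fintype n] [DecidableEq n] [Fintype ν]
  [DecidableEq ν]

/-- the ring homomorphism `ℤ[G] → M_ν(R)` of a representation by matrices -/
noncomputable def rh (ρ : G →* Matrix ν ν R) : MonoidAlgebra ℤ G →+* Matrix ν ν R :=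
  (MonoidAlgebra.lift ℤ (Matrix ν ν R) G ρ).toRingHom

/-- the determinant `det ρ(X)` of the matrix of matrices `ρ(X)` -/
noncomputable def dt (ρ : G →* Matrix ν ν R) (X : Matrix n n (MonoidAlgebra ℤ G)) : R :=
  (blk n (rh ρ) X).det

/-- the determinant of the image of `X` in the matrices over `ℤ[G^ab]` -/
noncomputable def dab (X : Matrix n n (MonoidAlgebra ℤ G)) :
    MonoidAlgebra ℤ (Abelianization G) :=
  (X.map (zmap (Abelianization.of : G →* Abelianization G))).det

/-- `u = ± a` in `ℤ[A]` -/
def IsPM {A : Type} (u : MonoidAlgebra ℤ A) (a : A) : Prop :=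
  u = MonoidAlgebra.single a 1 ∨ u = MonoidAlgebra.single a (-1)

variable (G) in
/-- the determinants of the invertible matrices over `ℤ[G]` in `ℤ[G^ab]` are `± g` -/
def Good : Prop :=
  ∀ (n : Type) [Fintype n] [DecidableEq n] (X : (Matrix n n (MonoidAlgebra ℤ G))ˣ),
    ∃ g : G, IsPM (dab X.val) (Abelianization.of g)

variable (G) in
/-- the images of the Whitehead group in the Whitehead groups of finite groups are torsion -/
def TorFin : Prop :=
  ∀ (Γ : Type) [Group Γ] [Finite Γ] (π : G →* Γ) (x : Wh G), ∃ N : ℕ, 0 < N ∧ N • Wh.map π x = 0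

variable (G) in
/-- `TorFin` for all finitely generated groups which inject into `G` -/
def HTF : Prop :=
  ∀ (H : Type) [Group H] (i : H →* G), Function.Injective i → Group.FG H → TorFin H

end Rep

section Lin

variable {G k V n : Type} [Group G] [Field k] [AddCommGroup V] [Module k V] [Fintype n]
  [DecidableEq n]

/-- the ring homomorphism `ℤ[G] → End_k(V)` of a representation -/
noncomputable def rhL (ρ : G →* Module.End k V) : MonoidAlgebra ℤ G →+* Module.End k V :=
  (MonoidAlgebra.lift ℤ (Module.End k V) G ρ).toRingHom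

/-- the endomorphism of `V^n` of a matrix over `ℤ[G]` -/
noncomputable def actL (ρ : G →* Module.End k V) (X : Matrix n n (MonoidAlgebra ℤ G)) :
    (n → V) →ₗ[k] (n → V) :=
  LinearMap.pi fun i => ∑ j, (rhL ρ (X i j)).comp (LinearMap.proj j)

/-- the determinant `det ρ(X)` -/
noncomputable def dtL (ρ : G →* Module.End k V) (X : Matrix n n (MonoidAlgebra ℤ G)) : k :=
  LinearMap.det (actL ρ X)

/-- a subrepresentation -/
def subRep (ρ : G →* Module.End k V) (W : Submodule k V) (h : ∀ g, W ≤ W.comap (ρ g)) :
    G →* Module.End k W where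
  toFun g := (ρ g).restrict (h g)
  map_one' := by
    ext w
    simp
  map_mul' a b := by
    ext w
    simp

/-- a quotient representation -/
def quoRep (ρ : G →* Module.End k V) (W : Submodule k V) (h : ∀ g, W ≤ W.comap (ρ g)) :
    G →* Module.End k (V ⧸ W) where
  toFun g := W.mapQ W (ρ g) (h g)
  map_one' := by
    ext w
    simp
  map_mul' a b := by
    ext w
    simp

end Lin

/-- finite groups with a normal cyclic subgroup whose index is a power of a prime -/
def QE (Q : Type) [Group Q] : Prop :=
  ∃ (p m : ℕ) (C : Subgroup Q), p.Prime ∧ C.Normal ∧ IsCyclic C ∧ C.index = p ^ m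

/-- the permutation matrix of an element -/
def pmx {Q : Type} [Group Q] (S R : Type) [DecidableEq S] [MulAction Q S] [CommRing R] (q : Q) :
    Matrix S S R :=
  Matrix.of fun s' s => if s' = q • s then 1 else 0

/-- the tensor product of a representation with a permutation representation, pulled back -/
noncomputable def tens {G Q R ν : Type} [Group G] [Group Q] [CommRing R] [Fintype ν]
    [DecidableEq ν] (φ : G →* Q) (ρ : Q →* Matrix ν ν R) (S : Type) [Fintype S] [DecidableEq S]
    [MulAction Q S] : G →* Matrix (ν × S) (ν × S) R where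
  toFun g := kroneckerMap (· * ·) (ρ (φ g)) (pmx S R (φ g))
  map_one' := by
    rw [map_one, map_one]
    ext ⟨i, s⟩ ⟨j, s'⟩
    simp only [kroneckerMap_apply, pmx, of_apply, one_smul, one_apply, Prod.mk.injEq]
    by_cases h : i = j <;> by_cases h' : s = s' <;> simp [h, h']
  map_mul' a b := by
    rw [map_mul, map_mul]
    ext ⟨i, s⟩ ⟨j, s'⟩
    rw [Matrix.mul_apply, Fintype.sum_prod_type]
    simp only [kroneckerMap_apply, pmx, of_apply, Matrix.mul_apply]
    rw [Finset.sum_mul]
    refine Finset.sum_congr rfl fun l _ => ?_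
    rw [Finset.sum_eq_single (φ b • s')]
    · rw [if_pos rfl, mul_smul]
      by_cases h : s = φ a • φ b • s' <;> simp [h]
    · intro z _ hz
      rw [if_neg hz, mul_zero, mul_zero]
    · exact fun h => absurd (Finset.mem_univ _) h

end Pool.Agent.DET
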