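import Pool.Agent.DET.St

/-!
# Multilinear expansion of a determinant (module EXPA of DET)
-/

set_option autoImplicit false

namespace Pool.Agent.DET

open Pool.Agent.WhK Matrix

namespace EXPA

theorem part1 (P A R : Type) [Fintype P] [DecidableEq P] [Fintype A] [CommRing R]
    (c : P → A → R) (v : P → A → P → R) :
    (Matrix.of fun p q => ∑ a, c p a * v p a q).det =
      ∑ β : P → A, (∏ p, c p (β p)) * (Matrix.of fun p q => v p (β p) q).det := by
  have h1 : (Matrix.of fun p q => ∑ a, c p a * v p a q) = fun p => ∑ a, c p a • v p a := by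
    ext p q
    simp [Finset.sum_apply]
  have h2 : (Matrix.of fun p q => ∑ a, c p a * v p a q).det =
      (Matrix.detRowAlternating (R := R) (n := P)).toMultilinearMap fun p => ∑ a, c p a • v p a := by
    rw [h1]; rfl
  rw [h2, MultilinearMap.map_sum]
  refine Finset.sum_congr rfl fun β _ => ?_
  rw [MultilinearMap.map_smul_univ]
  rfl

theorem sum_form {G : Type} (x : MonoidAlgebra ℤ G) (S : Finset G)
    (h : ∀ g, (MonoidAlgebra.coeff x) g ≠ 0 → g ∈ S) :
    x = ∑ g ∈ S, MonoidAlgebra.single g ((MonoidAlgebra.coeff x) g) := by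
  classical
  apply MonoidAlgebra.ext
  ext a
  rw [MonoidAlgebra.coeff_sum, Finsupp.finsetSum_apply]
  simp only [MonoidAlgebra.coeff_single, Finsupp.single_apply]
  rw [Finset.sum_ite_eq']
  by_cases ha : a ∈ S
  · rw [if_pos ha]
  · rw [if_neg ha]
    by_contra h0
    exact ha (h a h0)

theorem map_form {G R μ : Type} [Group G] [CommRing R] [Fintype μ] [DecidableEq μ]
    (θ : MonoidAlgebra ℤ G →+* Matrix μ μ R) (x : MonoidAlgebra ℤ G) (S : Finset G)
    (h : ∀ g, (MonoidAlgebra.coeff x) g ≠ 0 → g ∈ S) (i j : μ) :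
    θ x i j = ∑ g : S, (((MonoidAlgebra.coeff x) g : ℤ) : R) *
      θ (MonoidAlgebra.single (g : G) 1) i j := by
  rw [Finset.sum_coe_sort S fun g => (((MonoidAlgebra.coeff x) g : ℤ) : R) *
      θ (MonoidAlgebra.single g 1) i j]
  conv_lhs => rw [sum_form x S h]
  rw [map_sum, Matrix.sum_apply]
  refine Finset.sum_congr rfl fun g _ => ?_
  have e : (MonoidAlgebra.single g ((MonoidAlgebra.coeff x) g) : MonoidAlgebra ℤ G) =
      ((MonoidAlgebra.coeff x) g) • MonoidAlgebra.single g 1 := by
    rw [MonoidAlgebra.smul_single, smul_eq_mul, mul_one]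
  rw [e, map_zsmul, Matrix.smul_apply, zsmul_eq_mul]

end EXPA

open EXPA in
theorem t_EXPA : s_EXPA := by
  refine ⟨fun P A R _ _ _ _ _ c v => part1 P A R c v, ?_⟩
  intro G R n μ _ _ _ _ _ _ θ X S hS
  have h := part1 (n × μ) (n × S) R
    (fun p a => (((MonoidAlgebra.coeff (X p.1 a.1)) a.2 : ℤ) : R))
    (fun p a q => if q.1 = a.1 then θ (MonoidAlgebra.single (a.2 : G) 1) p.2 q.2 else 0)
  have e : blk n θ X = Matrix.of fun p q : n × μ => ∑ a : n × S,
      (((MonoidAlgebra.coeff (X p.1 a.1)) a.2 : ℤ) : R) *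
        (if q.1 = a.1 then θ (MonoidAlgebra.single (a.2 : G) 1) p.2 q.2 else 0) := by
    ext p q
    rw [of_apply, Fintype.sum_prod_type, Finset.sum_eq_single q.1]
    · simp only [if_true]
      exact map_form θ (X p.1 q.1) S (hS p.1 q.1) p.2 q.2
    · intro b _ hb
      refine Finset.sum_eq_zero fun g _ => ?_
      rw [if_neg (Ne.symm hb), mul_zero]
    · exact fun h => absurd (Finset.mem_univ _) h
  rw [e, h]
  refine Finset.sum_congr rfl fun β _ => ?_
  rw [Int.cast_prod]

end Pool.Agent.DET
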