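import Pool.Agent.DET.St

/-!
# DET, module FBLK: block matrices along a map of the index set
-/

set_option autoImplicit false

namespace Pool.Agent.DET

open Matrix

theorem t_FBLK : s_FBLK := by
  intro n T R _ _ _ _ _ A π
  have h : (Matrix.of fun p q : n × T => if q.1 = π p.1 then A p.1 p.2 q.2 else 0) =
      ((Matrix.blockDiagonal A).submatrix (Equiv.prodComm n T) (Equiv.prodComm n T)) *
        (kroneckerMap (· * ·) (Matrix.of fun i j : n => if j = π i then (1 : R) else 0)
          (1 : Matrix T T R)) := by
    ext ⟨i, y⟩ ⟨j, z⟩
    rw [Matrix.mul_apply, Fintype.sum_prod_type]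
    rw [Finset.sum_eq_single i]
    · rw [Finset.sum_eq_single z]
      · simp only [of_apply, submatrix_apply, Equiv.prodComm_apply, Prod.swap_prod_mk,
          blockDiagonal_apply, kroneckerMap_apply, one_apply_eq, mul_one, if_true]
        split_ifs <;> simp
      · intro w _ hw
        rw [kroneckerMap_apply, one_apply_ne hw, mul_zero, mul_zero]
      · intro h
        exact absurd (Finset.mem_univ _) h
    · intro l _ hl
      refine Finset.sum_eq_zero fun w _ => ?_
      rw [submatrix_apply, Equiv.prodComm_apply, Equiv.prodComm_apply, Prod.swap_prod_mk,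
        Prod.swap_prod_mk, blockDiagonal_apply, if_neg (fun h => hl h.symm), zero_mul]
    · intro h
      exact absurd (Finset.mem_univ _) h
  rw [h, Matrix.det_mul, Matrix.det_submatrix_equiv_self, Matrix.det_blockDiagonal,
    Matrix.det_kronecker, Matrix.det_one, one_pow, mul_one]

end Pool.Agent.DET
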