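import Pool.Agent.DET.St
import Pool.Agent.SUR.LOC

/-!
# FING: reduction to finitely generated groups
-/

set_option autoImplicit false

namespace Pool.Agent.DET

open Pool.Agent.WhK Matrix

namespace FING

theorem htf_sub {G : Type} [Group G] (h : HTF G) (G₀ : Subgroup G) : HTF G₀ := by
  intro H _ i hi hfg
  exact h H (G₀.subtype.comp i) (G₀.subtype_injective.comp hi) hfg

end FING

theorem t_FING (hD : s_DTB) (hG : s_GOOD) (hA : s_ARB) : s_FING := by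
  intro G _ h m X
  obtain ⟨G₀, hfg, X₀, hX⟩ := SUR.LOC.lift m X
  have hfg' : Group.FG G₀ := (Group.fg_iff_subgroup_fg G₀).2 hfg
  have h₀ := FING.htf_sub h G₀
  have hgood : Good G₀ := hG G₀ hfg' (h₀ G₀ (MonoidHom.id G₀) (fun _ _ hab => hab) hfg')
  let Y : (Matrix (Fin m) (Fin m) (MonoidAlgebra ℤ G₀))ˣ := X₀
  obtain ⟨g, hg⟩ := hgood (Fin m) Y
  obtain ⟨e, he⟩ : ∃ e : ℤˣ, dab Y.val = MonoidAlgebra.single (Abelianization.of g) (e : ℤ) := by
    rcases hg with hg | hg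
    · exact ⟨1, hg⟩
    · exact ⟨-1, hg⟩
  refine ⟨e, (g : G), ?_⟩
  intro F _ n ρ
  have h1 := hA G₀ (Fin m) Y e g hfg' h₀ he F (Fin n) (ρ.comp G₀.subtype)
  have h2 := hD.2.2.2.2.2.2.2.1 G G₀ F (Fin m) (Fin n) G₀.subtype ρ Y.val
  have h3 : X.val = Y.val.map (zmap G₀.subtype) := by
    rw [← hX]
    rfl
  rw [h3, ← h2, h1, Fintype.card_fin]
  rfl

end Pool.Agent.DET
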