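import Pool.Agent.DET.St
import Pool.Agent.SUR.FINITE
import Pool.Agent.SUR.TF

/-!
# From fields to reduced rings, and the condition
-/

set_option autoImplicit false

namespace Pool.Agent.DET

open Pool.Agent.WhK Matrix

namespace FINR

/-- The matrix over `R` of size `m n` with the blocks `ρ(X i j)`, `ρ` being extended additively to
`ℤ[G]`. -/
noncomputable def blocks {G R : Type} [Group G] [CommRing R] {m n : ℕ} (ρ : G →* GL (Fin n) R)
    (X : Matrix (Fin m) (Fin m) (MonoidAlgebra ℤ G)) :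
    Matrix (Fin m × Fin n) (Fin m × Fin n) R :=
  Matrix.of fun p q => (MonoidAlgebra.coeff (X p.1 q.1)).sum fun g c => (c : R) * ρ g p.2 q.2

/-- the representation by matrices of a representation by invertible matrices -/
def toM {G R : Type} [Group G] [CommRing R] {n : ℕ} (ρ : G →* GL (Fin n) R) :
    G →* Matrix (Fin n) (Fin n) R := (Units.coeHom _).comp ρ

theorem rh_apply {G R ν : Type} [Group G] [CommRing R] [Fintype ν] [DecidableEq ν]
    (ρ : G →* Matrix ν ν R) (x : MonoidAlgebra ℤ G) (a b : ν) :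
    rh ρ x a b = (MonoidAlgebra.coeff x).sum fun g c => (c : R) * ρ g a b := by
  let F : MonoidAlgebra ℤ G →+ R :=
    { toFun := fun x => rh ρ x a b
      map_zero' := by rw [map_zero]; rfl
      map_add' := fun x y => by rw [map_add]; rfl }
  let F' : MonoidAlgebra ℤ G →+ R :=
    { toFun := fun x => (MonoidAlgebra.coeff x).sum fun g c => (c : R) * ρ g a b
      map_zero' := by simp
      map_add' := fun x y => by
        rw [MonoidAlgebra.coeff_add, Finsupp.sum_add_index']
        · intro g; simp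
        · intro g c d; push_cast; ring }
  refine ext_single F F' (fun g => ?_) x
  show rh ρ (MonoidAlgebra.single g 1) a b =
    (MonoidAlgebra.coeff (MonoidAlgebra.single g (1 : ℤ))).sum fun g c => (c : R) * ρ g a b
  have h1 : rh ρ (MonoidAlgebra.single g 1) = ρ g := by
    show MonoidAlgebra.lift ℤ _ _ ρ (MonoidAlgebra.single g 1) = _
    rw [MonoidAlgebra.lift_single, one_smul]
  rw [h1, MonoidAlgebra.coeff_single, Finsupp.sum_single_index]
  · simp
  · simp

theorem blocks_det {G R : Type} [Group G] [CommRing R] {m n : ℕ} (ρ : G →* GL (Fin n) R)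
    (X : Matrix (Fin m) (Fin m) (MonoidAlgebra ℤ G)) : (blocks ρ X).det = dt (toM ρ) X := by
  unfold dt
  congr 1
  refine Matrix.ext fun p q => ?_
  show _ = rh (toM ρ) (X p.1 q.1) p.2 q.2
  rw [rh_apply]
  rfl

theorem eq_of_prime {R : Type} [CommRing R] [IsReduced R] (c d : R)
    (h : ∀ (F : Type) [Field F] (f : R →+* F), f c = f d) : c = d := by
  rw [← sub_eq_zero]
  have h1 : c - d ∈ nilradical R := by
    rw [nilradical_eq_sInf, Ideal.mem_sInf]
    intro P hP
    have hP' : P.IsPrime := hP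
    have h2 := h (FractionRing (R ⧸ P))
      ((algebraMap (R ⧸ P) (FractionRing (R ⧸ P))).comp (Ideal.Quotient.mk P))
    rw [RingHom.comp_apply, RingHom.comp_apply] at h2
    have h3 := IsFractionRing.injective (R ⧸ P) (FractionRing (R ⧸ P)) h2
    rwa [Ideal.Quotient.eq] at h3
  rw [nilradical_eq_zero] at h1
  exact h1

theorem torFin_equiv {H H' : Type} [Group H] [Group H'] (e : H ≃* H') (h : TorFin H) :
    TorFin H' := by
  intro Γ _ _ π x
  obtain ⟨N, hN, h1⟩ := h Γ (π.comp e.toMonoidHom) (Wh.map e.symm.toMonoidHom x)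
  refine ⟨N, hN, ?_⟩
  rw [Wh.map_comp] at h1
  have h2 : (π.comp e.toMonoidHom).comp e.symm.toMonoidHom = π := by
    refine MonoidHom.ext fun z => ?_
    show π (e (e.symm z)) = π z
    rw [e.apply_symm_apply]
  rwa [h2] at h1

/-- torsion free groups all of whose f.g. subgroups satisfy the surjectivity in degree one -/
theorem htf (G : Type) [Group G] (hT : ∀ g : G, IsOfFinOrder g → g = 1)
    (hS : ∀ G₀ : Subgroup G, G₀.FG → Pool.Agent.SUR.SurjW G₀) : HTF G := by
  intro H _ i hi hH
  refine torFin_equiv (MonoidHom.ofInjective hi).symm ?_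
  intro Γ _ _ π x
  have hfg : i.range.FG := by
    haveI := hH
    rw [← Group.fg_iff_subgroup_fg]
    exact Group.fg_range i
  obtain ⟨n, hn, h1⟩ := hS i.range hfg Γ π x ⟨1, one_pos, by
    rw [one_smul]
    exact Pool.Agent.SUR.t_FINITE.1 Γ _⟩
  obtain ⟨n', hn', h2⟩ := Pool.Agent.SUR.t_FINITE.2 i.range Γ π (fun g hg => by
    have h3 := hT g.1 ((Submonoid.isOfFinOrder_coe).2 hg)
    exact Subtype.ext h3) _ h1
  exact ⟨n' * n, Nat.mul_pos hn' hn, by rw [mul_smul]; exact h2⟩

end FINR

open FINR in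
/-- the theorem for reduced rings -/
theorem t_FINR (hD : s_DTB) (hF : s_FING) (G : Type) [Group G] (hG : HTF G) (m : ℕ)
    (X : (Matrix (Fin m) (Fin m) (MonoidAlgebra ℤ G))ˣ) :
    ∃ (e : ℤˣ) (g : G), ∀ (R : Type) [CommRing R] [IsReduced R] (n : ℕ) (ρ : G →* GL (Fin n) R),
      (blocks ρ X.val).det = ((e : ℤ) : R) ^ n * (ρ g).val.det := by
  obtain ⟨e, g, h⟩ := hF G hG m X
  refine ⟨e, g, fun R _ _ n ρ => eq_of_prime _ _ fun F _ f => ?_⟩
  rw [blocks_det, ← hD.2.2.1 G R F (Fin m) (Fin n) f (toM ρ) X.val, map_mul, map_pow, map_intCast,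
    RingHom.map_det]
  exact h F n (f.mapMatrix.toMonoidHom.comp (toM ρ))

end Pool.Agent.DET
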