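import Pool.Agent.DET.St

/-!
# Sums of invariant functions modulo `p`
-/

set_option autoImplicit false

namespace Pool.Agent.DET

namespace FIXS

variable {p : ℕ} {P α : Type} [Group P] [MulAction P α]

/-- the level set of an invariant function -/
def lev (f : α → ZMod p) (hf : ∀ (g : P) (a : α), f (g • a) = f a) (v : ZMod p) :
    SubMulAction P α where
  carrier := {a | f a = v}
  smul_mem' g a ha := by
    change f (g • a) = v
    rw [hf]
    exact ha

theorem mem_lev (f : α → ZMod p) (hf : ∀ (g : P) (a : α), f (g • a) = f a) (v : ZMod p) (a : α) :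
    a ∈ lev f hf v ↔ f a = v := Iff.rfl

/-- the fixed points of the level set -/
def fixE (f : α → ZMod p) (hf : ∀ (g : P) (a : α), f (g • a) = f a) (v : ZMod p) :
    MulAction.fixedPoints P (lev f hf v) ≃ {a : α // (∀ g : P, g • a = a) ∧ f a = v} where
  toFun a := ⟨a.1.1, fun g => congrArg Subtype.val (a.2 g), a.1.2⟩
  invFun a := ⟨⟨a.1, a.2.2⟩, fun g => Subtype.ext (a.2.1 g)⟩
  left_inv _ := rfl
  right_inv _ := rfl

open Classical in
theorem card_lev [Finite P] [Fintype α] (hp : p.Prime) (hP : IsPGroup p P) (f : α → ZMod p)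
    (hf : ∀ (g : P) (a : α), f (g • a) = f a) (v : ZMod p) :
    ((Finset.univ.filter fun a => f a = v).card : ZMod p) =
      (((Finset.univ.filter fun a : α => ∀ g : P, g • a = a).filter fun a => f a = v).card :
        ZMod p) := by
  haveI : Fact p.Prime := ⟨hp⟩
  have h1 : Nat.card (lev f hf v) = (Finset.univ.filter fun a => f a = v).card := by
    rw [Nat.card_congr (Equiv.subtypeEquivRight fun a => mem_lev f hf v a :
      (lev f hf v) ≃ {a : α // f a = v}), Nat.card_eq_fintype_card, Fintype.card_subtype]
  have h2 : Nat.card (MulAction.fixedPoints P (lev f hf v)) =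
      ((Finset.univ.filter fun a : α => ∀ g : P, g • a = a).filter fun a => f a = v).card := by
    rw [Nat.card_congr (fixE f hf v), Nat.card_eq_fintype_card, Fintype.card_subtype,
      Finset.filter_filter]
  rw [← h1, ← h2]
  exact (ZMod.natCast_eq_natCast_iff _ _ _).2 (hP.card_modEq_card_fixedPoints (lev f hf v))

end FIXS

theorem t_FIXS : s_FIXS := by
  classical
  intro p P α _ _ _ _ f hp hP hf
  haveI : Fact p.Prime := ⟨hp⟩
  have h1 : ∀ s : Finset α, ∑ a ∈ s, f a =
      ∑ v : ZMod p, ((s.filter fun a => f a = v).card : ZMod p) * v := by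
    intro s
    rw [← Finset.sum_fiberwise s f]
    refine Finset.sum_congr rfl fun v _ => ?_
    rw [Finset.sum_congr rfl (fun a ha => (Finset.mem_filter.1 ha).2), Finset.sum_const,
      nsmul_eq_mul]
  rw [h1, h1]
  refine Finset.sum_congr rfl fun v _ => ?_
  rw [FIXS.card_lev hp hP f hf v]

end Pool.Agent.DET
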