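import Pool.Agent.DET.St

set_option autoImplicit false

namespace Pool.Agent.DET

theorem t_GFI : s_GFI := by
  intro G _ M hG hH hM
  refine ⟨Subgroup.fg_of_index_ne_zero M, ?_⟩
  intro H _ i hi hfg
  exact hH H (M.subtype.comp i) (M.subtype_injective.comp hi) hfg

end Pool.Agent.DET
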