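import Pool.Agent.DET.St

/-!
# DET: the determinants of invertible matrices over the abelianized group ring are trivial units
-/

set_option autoImplicit false

namespace Pool.Agent.DET

open Pool.Agent.WhK Matrix


theorem t_GOOD (hT : s_TRIV) (hH : s_HIG) (hR : s_RFA) : s_GOOD := by
  intro G _ hfg htf n _ _ X
  have hfa : Group.FG (Abelianization G) :=
    Group.fg_of_surjective (f := (Abelianization.of : G →* Abelianization G))
      (fun x => QuotientGroup.mk_surjective x)
  obtain ⟨a, ha⟩ := hR (Abelianization G) (dab X.val) hfa fun B _ _ π => by
    obtain ⟨N, b, hN, hb⟩ := hT G B n (π.comp Abelianization.of) X htf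
    have h : (X.val.map (zmap (π.comp Abelianization.of))).det = zmap π (dab X.val) := by
      unfold dab
      rw [RingHom.map_det]
      refine congrArg Matrix.det (Matrix.ext fun a b => ?_)
      simp only [RingHom.mapMatrix_apply, Matrix.map_apply]
      have h : zmap (π.comp Abelianization.of) =
          (zmap π).comp (zmap (Abelianization.of : G →* Abelianization G)) := by
        refine MonoidAlgebra.ringHom_ext' (RingHom.ext_int _ _) ?_
        ext x
        simp [zmap]
      exact DFunLike.congr_fun h (X.val a b)
    rw [h] at hb
    exact hH B _ N b hN hb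
  obtain ⟨g, rfl⟩ := QuotientGroup.mk_surjective a
  exact ⟨g, ha⟩

end Pool.Agent.DET
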