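import Pool.Agent.DET.St

/-!
# Higman's theorem (module HIG of project DET)
-/

set_option autoImplicit false

namespace Pool.Agent.DET

namespace HIG

open MonoidAlgebra

variable {A : Type} [CommGroup A]

/-- the involution `a ↦ a⁻¹` -/
noncomputable def star : MonoidAlgebra ℤ A →+* MonoidAlgebra ℤ A :=
  MonoidAlgebra.mapDomainRingHom ℤ (invMonoidHom : A →* A)

theorem star_single (a : A) (r : ℤ) : star (single a r) = single a⁻¹ r := by
  simp [star]

theorem star_star (x : MonoidAlgebra ℤ A) : star (star x) = x := by
  induction x using MonoidAlgebra.induction_linear with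
  | zero => simp
  | add x y hx hy => rw [map_add, map_add, hx, hy]
  | single g r => rw [star_single, star_single, inv_inv]

theorem coeff_star (x : MonoidAlgebra ℤ A) (a : A) : (star x).coeff a = x.coeff a⁻¹ := by
  classical
  induction x using MonoidAlgebra.induction_linear with
  | zero => simp
  | add x y hx hy => rw [map_add, coeff_add, coeff_add, Finsupp.add_apply, Finsupp.add_apply, hx, hy]
  | single g r =>
    rw [star_single, coeff_single, coeff_single, Finsupp.single_apply, Finsupp.single_apply]
    simp only [inv_eq_iff_eq_inv]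

/-- the trace form -/
theorem tr [Fintype A] (x y : MonoidAlgebra ℤ A) :
    (x * star y).coeff 1 = ∑ b, x.coeff b * y.coeff b := by
  classical
  induction x using MonoidAlgebra.induction_linear with
  | zero => simp
  | add x z hx hz =>
    rw [add_mul, coeff_add, Finsupp.add_apply, hx, hz, ← Finset.sum_add_distrib]
    refine Finset.sum_congr rfl fun b _ => ?_
    rw [coeff_add, Finsupp.add_apply, add_mul]
  | single g r =>
    rw [coeff_single_mul_eq_mul_coeff g⁻¹ (by
      intro a _
      constructor
      · intro h; exact eq_inv_of_mul_eq_one_right h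
      · rintro rfl; simp)]
    rw [coeff_star, inv_inv]
    simp [Finsupp.single_apply]

theorem tr_self_nonneg [Fintype A] (x : MonoidAlgebra ℤ A) : 0 ≤ (x * star x).coeff 1 := by
  rw [tr]
  exact Finset.sum_nonneg fun b _ => mul_self_nonneg _

theorem eq_zero_of_tr [Fintype A] (x : MonoidAlgebra ℤ A) (h : (x * star x).coeff 1 ≤ 0) :
    x = 0 := by
  rw [tr] at h
  have h2 : ∀ b ∈ Finset.univ, x.coeff b * x.coeff b = 0 := by
    refine (Finset.sum_eq_zero_iff_of_nonneg fun b _ => mul_self_nonneg _).1 ?_
    exact le_antisymm h (Finset.sum_nonneg fun b _ => mul_self_nonneg _)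
  apply MonoidAlgebra.coeff_injective
  ext b
  simpa using h2 b (Finset.mem_univ _)

theorem pow_one [Fintype A] (u : MonoidAlgebra ℤ A) (N : ℕ) (hN : 0 < N) (hu : u ^ N = 1) :
    ∃ b : A, IsPM u b := by
  classical
  set P := u * star u with hP
  have hPs : star P = P := by rw [hP, map_mul, star_star, mul_comm]
  have hPN : P ^ N = 1 := by rw [hP, mul_pow, hu, ← map_pow, hu, map_one, one_mul]
  set w := P - 1 with hw
  have hsum : ∑ j ∈ Finset.range N, ((w * u ^ j) * star (w * u ^ j)).coeff 1 = 0 := by
    have h1 : ∀ j, (w * u ^ j) * star (w * u ^ j) = w * star w * P ^ j := by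
      intro j
      rw [map_mul, map_pow, hP, mul_pow]
      ring
    have h2 : ∑ j ∈ Finset.range N, (w * u ^ j) * star (w * u ^ j) = 0 := by
      simp only [h1]
      rw [← Finset.mul_sum]
      have h3 : star w = P - 1 := by rw [hw, map_sub, hPs, map_one]
      have h4 : (∑ j ∈ Finset.range N, P ^ j) * (P - 1) = 0 := by
        rw [geom_sum_mul, hPN, sub_self]
      calc w * star w * ∑ j ∈ Finset.range N, P ^ j
          = w * ((∑ j ∈ Finset.range N, P ^ j) * (P - 1)) := by rw [h3]; ring
        _ = 0 := by rw [h4, mul_zero]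
    have h5 := congrArg (fun x : MonoidAlgebra ℤ A => x.coeff 1) h2
    simpa [coeff_sum, Finsupp.finsetSum_apply] using h5
  have hw0 : w = 0 := by
    apply eq_zero_of_tr
    have h6 := (Finset.sum_eq_zero_iff_of_nonneg (fun j _ => tr_self_nonneg (w * u ^ j))).1 hsum 0
      (Finset.mem_range.2 hN)
    rw [pow_zero, mul_one] at h6
    exact h6.le
  have hP1 : u * star u = 1 := by rw [← hP]; exact sub_eq_zero.1 hw0
  have h7 : ∑ b, u.coeff b * u.coeff b = 1 := by
    rw [← tr, hP1]
    simp [one_def]
  have h8 : ∃ b, u.coeff b ≠ 0 := by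
    by_contra h
    push Not at h
    simp [h] at h7
  obtain ⟨b, hb⟩ := h8
  have h9 : ∀ c, c ≠ b → u.coeff c = 0 := by
    intro c hc
    by_contra hc0
    have h10 : u.coeff b * u.coeff b + u.coeff c * u.coeff c ≤ 1 := by
      rw [← h7, ← Finset.add_sum_erase _ _ (Finset.mem_univ b)]
      refine add_le_add le_rfl ?_
      exact Finset.single_le_sum (f := fun d => u.coeff d * u.coeff d)
        (fun d _ => mul_self_nonneg _) (Finset.mem_erase.2 ⟨hc, Finset.mem_univ _⟩)
    have h11 : 1 ≤ u.coeff b * u.coeff b := by
      have := mul_self_pos.2 hb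
      omega
    have h12 : 1 ≤ u.coeff c * u.coeff c := by
      have := mul_self_pos.2 hc0
      omega
    omega
  have h13 : u.coeff b * u.coeff b = 1 := by
    rw [← h7]
    symm
    apply Finset.sum_eq_single b
    · intro c _ hc
      rw [h9 c hc, mul_zero]
    · intro h; exact absurd (Finset.mem_univ _) h
  have h14 : u = single b (u.coeff b) := by
    apply MonoidAlgebra.coeff_injective
    ext c
    rw [coeff_single, Finsupp.single_apply]
    split_ifs with h
    · rw [h]
    · exact h9 c (Ne.symm h)
  refine ⟨b, ?_⟩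
  rcases mul_self_eq_one_iff.1 h13 with h | h
  · left; rw [h14, h]
  · right; rw [h14, h]

end HIG

theorem t_HIG : s_HIG := by
  intro A _ _ u N a hN h
  have := Fintype.ofFinite A
  refine HIG.pow_one u (N * (2 * Fintype.card A)) (by positivity) ?_
  have h2 : ((-1 : ℤ)) ^ (2 * Fintype.card A) = 1 := by rw [pow_mul]; norm_num
  have h3 : a ^ (2 * Fintype.card A) = 1 := by
    rw [mul_comm, pow_mul, pow_card_eq_one, one_pow]
  rw [pow_mul]
  rcases h with h | h
  · rw [h, MonoidAlgebra.single_pow, h3, one_pow, MonoidAlgebra.one_def]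
  · rw [h, MonoidAlgebra.single_pow, h3, h2, MonoidAlgebra.one_def]

end Pool.Agent.DET
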