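import Pool.Agent.DET.St

/-! # DET: HYP, representations which factor through quasi-elementary groups -/

set_option autoImplicit false

namespace Pool.Agent.DET

open Pool.Agent.WhK Matrix

namespace HYP

theorem qe_sub {Q : Type} [Group Q] (I : Subgroup Q) (h : QE Q) : QE I := by
  obtain ⟨p, m, C, hp, hn, hc, hi⟩ := h
  have h1 : (C.subgroupOf I).index ∣ p ^ m := by
    rw [← hi]
    exact Subgroup.relIndex_dvd_index_of_normal C I
  obtain ⟨m', _, hm'⟩ := (Nat.dvd_prime_pow hp).1 h1
  refine ⟨p, m', C.subgroupOf I, hp, inferInstance, ?_, hm'⟩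
  let f : C.subgroupOf I →* C :=
    { toFun := fun x => ⟨x.1.1, x.2⟩
      map_one' := rfl
      map_mul' := fun _ _ => rfl }
  exact isCyclic_of_injective f fun x y h =>
    Subtype.ext (Subtype.ext (Subtype.mk.inj h))

theorem bij_classes {G Q : Type} [Group G] [Group Q] (φ : G →* Q) (hφ : Function.Surjective φ)
    (I : Subgroup Q) :
    Function.Bijective (fun x : G ⧸ I.comap φ => (φ x.out : Q ⧸ I)) := by
  constructor
  · intro x y h
    have h1 : (φ x.out)⁻¹ * φ y.out ∈ I := QuotientGroup.eq.1 h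
    rw [← map_inv, ← map_mul] at h1
    have h2 : ((x.out : G) : G ⧸ I.comap φ) = (y.out : G) := QuotientGroup.eq.2 h1
    rwa [QuotientGroup.out_eq', QuotientGroup.out_eq'] at h2
  · intro q
    obtain ⟨q, rfl⟩ := QuotientGroup.mk_surjective q
    obtain ⟨g, rfl⟩ := hφ q
    refine ⟨(g : G ⧸ I.comap φ), ?_⟩
    refine QuotientGroup.eq.2 ?_
    rw [← map_inv, ← map_mul]
    have h2 : (((g : G ⧸ I.comap φ).out : G) : G ⧸ I.comap φ) = (g : G) :=
      QuotientGroup.out_eq' _
    exact QuotientGroup.eq.1 h2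

theorem isPM_one {A : Type} [Group A] {u : MonoidAlgebra ℤ A} (h : IsPM u 1) :
    u = 1 ∨ u = -1 := by
  rcases h with h | h
  · left
    rw [h]
    rfl
  · right
    rw [h]
    ext a
    rw [MonoidAlgebra.one_def]
    simp

theorem finrank_mul {k V W : Type} [Field k] [AddCommGroup V] [Module k V] [AddCommGroup W]
    [Module k W] [FiniteDimensional k V] [FiniteDimensional k W] {ι : Type} [Fintype ι]
    (T : ι → W →ₗ[k] V) (h : Function.Bijective fun f : ι → W => ∑ x, T x (f x)) :
    Module.finrank k V = Fintype.card ι * Module.finrank k W := by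
  let L : (ι → W) →ₗ[k] V := ∑ x, (T x).comp (LinearMap.proj x)
  have hL : ∀ f, L f = ∑ x, T x (f x) := by
    intro f
    simp [L]
  have hL2 : Function.Bijective L := by
    have : (L : (ι → W) → V) = fun f => ∑ x, T x (f x) := funext hL
    rw [this]
    exact h
  rw [← (LinearEquiv.ofBijective L hL2).finrank_eq, Module.finrank_pi_fintype]
  simp

theorem core (hL : s_DTL) (hI : s_INDL) (hA : s_CLFA) (hB : s_CLFB) (hC : s_CONG)
    (hS : s_SGN) (hF : s_GFI) (hG : s_GOOD) (k : Type) [Field k] [IsAlgClosed k] : ∀ (d : ℕ) (G Q V n : Type) [Group G]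
    [Group Q] [Finite Q] [AddCommGroup V] [Module k V] [FiniteDimensional k V] [Fintype n]
    [DecidableEq n] (φ : G →* Q) (ρ : Q →* Module.End k V) (X : (Matrix n n (MonoidAlgebra ℤ G))ˣ),
    Function.Surjective φ → Module.finrank k V = d → Group.FG G → HTF G →
    QE Q → dab X.val = 1 → dtL (ρ.comp φ) X.val = 1 := by
  intro d
  induction d using Nat.strong_induction_on with
  | _ d ih =>
  intro G Q V n _ _ _ _ _ _ _ _ φ ρ X hφ hd hfg hht hqe hX
  rcases Nat.lt_or_ge d 2 with hd2 | hd2
  · rcases Nat.lt_or_ge d 1 with hd1 | hd1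
    · exact hL.2.2.2.1 G k V n (ρ.comp φ) X.val (by omega)
    · exact hL.2.2.2.2 G k V n (ρ.comp φ) X.val (by omega) hX
  by_cases hred : ∀ W : Submodule k V, (∀ q, W ≤ W.comap (ρ q)) → W = ⊥ ∨ W = ⊤
  · classical
    obtain ⟨a, lam, j, p, e, C, hCl⟩ := hA Q k V ρ hqe (by omega) hred
    have hnt : Nontrivial V := Module.nontrivial_of_finrank_pos (R := k) (by omega)
    obtain ⟨m, I, W, hm, hIn, hIi, hIc, hWI, hbij⟩ := hB Q k V ρ a lam j p e C hnt hred hCl
    let M : Subgroup G := I.comap φ
    have hMn : M.Normal := hIn.comap φ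
    have hMi : M.index = p ^ m := by
      rw [← hIi]
      exact Subgroup.index_comap_of_surjective I hφ
    have hp0 : p ^ m ≠ 0 := pow_ne_zero _ hCl.prime.ne_zero
    have hMf : M.FiniteIndex := ⟨by rw [hMi]; exact hp0⟩
    have : Fintype (G ⧸ M) := Fintype.ofFinite _
    have hcard : Fintype.card (G ⧸ M) = p ^ m := by
      rw [← hMi, Subgroup.index_eq_card, Nat.card_eq_fintype_card]
    have h : ∀ x : M, W ≤ W.comap (((ρ.comp φ).comp M.subtype) x) := fun x => hWI (φ x.1) x.2
    have hbij' := hbij (G ⧸ M) (fun x => φ x.out) (bij_classes φ hφ I)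
    have hdim : Module.finrank k V = p ^ m * Module.finrank k W := by
      rw [← hcard]
      exact finrank_mul (fun x => (ρ (φ x.out)).comp W.subtype) hbij'
    have h1 := hI G k V n (ρ.comp φ) M W h hbij' X.val
    let Y : (Matrix (n × (G ⧸ M)) (n × (G ⧸ M)) (MonoidAlgebra ℤ M))ˣ := blkU n (Res M) X
    obtain ⟨hMfg, hMht⟩ := hF G M hfg hht hMf
    have hgood : Good M := hG M hMfg (hMht M (MonoidHom.id M) Function.injective_id hMfg)
    obtain ⟨g, hg⟩ := hgood (n × (G ⧸ M)) Y
    have hg1 : Abelianization.of g = 1 :=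
      hC G n p m M hCl.prime hMi X.val (Abelianization.of g) hX hg
    rw [hg1] at hg
    have hY : dab Y.val = 1 := by
      rcases isPM_one hg with h2 | h2
      · exact h2
      · exact (hS G n M (fun a b => by
          change φ ((b * a)⁻¹ * (a * b)) ∈ I
          rw [map_mul, map_inv, map_mul, map_mul]
          exact hIc (φ a) (φ b)) X.val hX h2).elim
    rw [h1]
    have hlt : Module.finrank k W < d := by
      have h2 : 2 ≤ p ^ m := by
        calc 2 ≤ p := hCl.prime.two_le
          _ = p ^ 1 := (pow_one p).symm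
          _ ≤ p ^ m := Nat.pow_le_pow_right hCl.prime.pos hm
      rw [← hd, hdim]
      have h3 : 0 < Module.finrank k W := by
        rcases Nat.eq_zero_or_pos (Module.finrank k W) with h4 | h4
        · rw [h4, mul_zero] at hdim
          omega
        · exact h4
      nlinarith
    exact ih _ hlt M I W (n × (G ⧸ M)) (φ.subgroupComap I)
      (subRep (ρ.comp I.subtype) W fun q => hWI q.1 q.2) Y
      (φ.subgroupComap_surjective_of_surjective I hφ) rfl hMfg hMht (qe_sub I hqe) hY
  · push Not at hred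
    obtain ⟨W, hW, hW0, hW1⟩ := hred
    have h1 := hL.2.2.1 G k V n (ρ.comp φ) W (fun g => hW (φ g)) X.val
    have hWlt : Module.finrank k W < d := by
      rw [← hd]
      exact Submodule.finrank_lt (lt_top_iff_ne_top.2 hW1).ne
    have hWpos : 0 < Module.finrank k W := by
      rcases Nat.eq_zero_or_pos (Module.finrank k W) with h4 | h4
      · exact (hW0 (Submodule.finrank_eq_zero.1 h4)).elim
      · exact h4
    have hqlt : Module.finrank k (V ⧸ W) < d := by
      have := Submodule.finrank_quotient_add_finrank W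
      omega
    have h2 := ih _ hWlt G Q W n φ (subRep ρ W hW) X hφ rfl hfg hht hqe hX
    have h3 := ih _ hqlt G Q (V ⧸ W) n φ (quoRep ρ W hW) X hφ rfl hfg hht hqe hX
    have h4 : subRep (ρ.comp φ) W (fun g => hW (φ g)) = (subRep ρ W hW).comp φ := rfl
    have h5 : quoRep (ρ.comp φ) W (fun g => hW (φ g)) = (quoRep ρ W hW).comp φ := rfl
    rw [h1, h4, h5, h2, h3, mul_one]

end HYP

theorem t_HYP (hL : s_DTL) (hI : s_INDL) (hA : s_CLFA) (hB : s_CLFB) (hC : s_CONG) (hS : s_SGN)
    (hF : s_GFI) (hG : s_GOOD) : s_HYP := by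
  intro G Q k V n _ _ _ _ _ _ _ _ _ _ φ ρ X hfg hht hqe hX
  exact HYP.core hL hI hA hB hC hS hF hG k _ G φ.range V n φ.rangeRestrict
    (ρ.comp φ.range.subtype) X φ.rangeRestrict_surjective rfl hfg hht (HYP.qe_sub _ hqe) hX

end Pool.Agent.DET
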