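import Pool.Agent.DET.St

/-!
# INDL: determinants of induced representations
-/

set_option autoImplicit false

namespace Pool.Agent.DET

open Pool.Agent.WhK Matrix

namespace INDL

theorem rhL_single {G k V : Type} [Group G] [Field k] [AddCommGroup V] [Module k V]
    (ρ : G →* Module.End k V) (g : G) : rhL ρ (MonoidAlgebra.single g 1) = ρ g := by
  unfold rhL
  have := MonoidAlgebra.lift_single (R := ℤ) ρ g 1
  rw [one_smul] at this
  exact this

theorem actL_apply {G k V n : Type} [Group G] [Field k] [AddCommGroup V] [Module k V] [Fintype n]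
    [DecidableEq n] (ρ : G →* Module.End k V) (X : Matrix n n (MonoidAlgebra ℤ G)) (v : n → V)
    (i : n) : actL ρ X v i = ∑ j, rhL ρ (X i j) (v j) := by
  unfold actL
  rw [LinearMap.pi_apply, LinearMap.sum_apply]
  rfl

variable {G k V : Type} [Group G] [Field k] [AddCommGroup V] [Module k V]

/-- the map from the functions on the cosets -/
noncomputable def Phi (ρ : G →* Module.End k V) (M : Subgroup G) [Fintype (G ⧸ M)]
    (W : Submodule k V) : (G ⧸ M → W) →ₗ[k] V :=
  ∑ x : G ⧸ M, (ρ x.out) ∘ₗ W.subtype ∘ₗ LinearMap.proj x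

theorem Phi_apply (ρ : G →* Module.End k V) (M : Subgroup G) [Fintype (G ⧸ M)]
    (W : Submodule k V) (f : G ⧸ M → W) : Phi ρ M W f = ∑ x, ρ x.out (f x : V) := by
  unfold Phi
  rw [LinearMap.sum_apply]
  rfl

theorem key (ρ : G →* Module.End k V) (M : Subgroup G) [Fintype (G ⧸ M)] [DecidableEq (G ⧸ M)]
    (W : Submodule k V) (h : ∀ m : M, W ≤ W.comap ((ρ.comp M.subtype) m)) (f : G ⧸ M → W)
    (a : MonoidAlgebra ℤ G) :
    rhL ρ a (Phi ρ M W f) =
      Phi ρ M W (fun y => ∑ x, rhL (subRep (ρ.comp M.subtype) W h) (Res M a y x) (f x)) := by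
  set σ := subRep (ρ.comp M.subtype) W h with hσ
  let F : MonoidAlgebra ℤ G →+ V :=
    { toFun := fun a => rhL ρ a (Phi ρ M W f)
      map_zero' := by rw [map_zero]; rfl
      map_add' := fun a b => by rw [map_add]; rfl }
  let F' : MonoidAlgebra ℤ G →+ V :=
    { toFun := fun a => Phi ρ M W (fun y => ∑ x, rhL σ (Res M a y x) (f x))
      map_zero' := by
        have : (fun y : G ⧸ M => ∑ x, rhL σ (Res M (0 : MonoidAlgebra ℤ G) y x) (f x)) = 0 := by
          funext y
          apply Finset.sum_eq_zero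
          intro x _
          rw [map_zero, Matrix.zero_apply, map_zero]
          rfl
        rw [this, map_zero]
      map_add' := fun a b => by
        rw [← map_add]
        congr 1
        funext y
        rw [Pi.add_apply, ← Finset.sum_add_distrib]
        apply Finset.sum_congr rfl
        intro x _
        rw [map_add, Matrix.add_apply, map_add]
        rfl }
  refine ext_single F F' (fun g => ?_) a
  show rhL ρ (MonoidAlgebra.single g 1) (Phi ρ M W f) =
    Phi ρ M W (fun y => ∑ x, rhL σ (Res M (MonoidAlgebra.single g 1) y x) (f x))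
  rw [rhL_single, Phi_apply, Phi_apply, map_sum]
  have e1 : ∀ y : G ⧸ M, ρ y.out ((∑ x, rhL σ (Res M (MonoidAlgebra.single g 1) y x) (f x) : W) : V)
      = ∑ x, ρ y.out ((rhL σ (resEntry M g y x) (f x) : W) : V) := by
    intro y
    rw [Submodule.coe_sum, map_sum]
    apply Finset.sum_congr rfl
    intro x _
    rw [Res_single, one_smul]
    rfl
  rw [Finset.sum_congr rfl (fun y _ => e1 y), Finset.sum_comm]
  apply Finset.sum_congr rfl
  intro x _
  rw [Finset.sum_eq_single (g • x)]
  · rw [resEntry_smul, rhL_single]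
    have e2 : ((σ ⟨((g • x).out)⁻¹ * (g * x.out), (mem_iff_coset M g _ x).2 rfl⟩ (f x) : W) : V) =
        ρ (((g • x).out)⁻¹ * (g * x.out)) (f x : V) := rfl
    rw [e2, ← Module.End.mul_apply, ← map_mul, ← Module.End.mul_apply, ← map_mul]
    congr 2
    group
  · intro y _ hy
    rw [resEntry_ne hy, map_zero]
    simp
  · exact fun h => absurd (Finset.mem_univ _) h

end INDL

open INDL in
theorem t_INDL : s_INDL := by
  intro G k V n _ _ _ _ _ _ _ ρ M _ _ W h hbij X
  set σ := subRep (ρ.comp M.subtype) W h with hσ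
  have hb : Function.Bijective (Phi ρ M W) := by
    have : (Phi ρ M W : (G ⧸ M → W) → V) = fun f : G ⧸ M → W => ∑ x, ρ x.out (f x : V) := by
      funext f
      exact Phi_apply ρ M W f
    rw [this]
    exact hbij
  let Pe : (G ⧸ M → W) ≃ₗ[k] V := LinearEquiv.ofBijective (Phi ρ M W) hb
  let E : (n × (G ⧸ M) → W) ≃ₗ[k] (n → V) :=
    (LinearEquiv.curry k W n (G ⧸ M)) ≪≫ₗ LinearEquiv.piCongrRight (fun _ => Pe)
  have hE : ∀ (v : n × (G ⧸ M) → W) (i : n), E v i = Phi ρ M W (fun x => v (i, x)) :=
    fun v i => rfl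
  have hint : ∀ v, actL ρ X (E v) = E (actL σ (blk n (Res M) X) v) := by
    intro v
    funext i
    rw [actL_apply, hE]
    have e1 : ∀ j, rhL ρ (X i j) (E v j) =
        Phi ρ M W (fun y => ∑ x, rhL σ (Res M (X i j) y x) (v (j, x))) := by
      intro j
      rw [hE]
      exact key ρ M W h (fun x => v (j, x)) (X i j)
    rw [Finset.sum_congr rfl (fun j _ => e1 j), ← map_sum]
    congr 1
    funext y
    rw [Finset.sum_apply, actL_apply, Fintype.sum_prod_type]
    rfl
  have hconj : actL ρ X = (E : (n × (G ⧸ M) → W) →ₗ[k] (n → V)) ∘ₗ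
      actL σ (blk n (Res M) X) ∘ₗ (E.symm : (n → V) →ₗ[k] (n × (G ⧸ M) → W)) := by
    apply LinearMap.ext
    intro w
    obtain ⟨v, rfl⟩ := E.surjective w
    rw [hint]
    simp
  unfold dtL
  rw [hconj, LinearMap.det_conj]

end Pool.Agent.DET
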