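import Pool.Agent.DET.St

set_option autoImplicit false

namespace Pool.Agent.DET

open Pool.Agent.WhK Matrix

namespace PERM

variable {Q S T A : Type} [Group Q] [Fintype Q] [Fintype S] [DecidableEq S] [MulAction Q S]
  [Fintype T] [DecidableEq T] [MulAction Q T] [Fintype A] [DecidableEq A]

/-- The sum of the Kronecker products. -/
noncomputable def tot (S : Type) [DecidableEq S] [MulAction Q S] {R : Type} [CommRing R]
    (Z : Q → Matrix A A R) : Matrix (A × S) (A × S) R :=
  ∑ q, kroneckerMap (· * ·) (Z q) (pmx S R q)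

theorem map_tot {R k : Type} [CommRing R] [CommRing k] (f : R →+* k) (Z : Q → Matrix A A R)
    (Z' : Q → Matrix A A k) (h : ∀ q a b, f (Z q a b) = Z' q a b) :
    f (tot S Z).det = (tot S Z').det := by
  rw [RingHom.map_det]
  congr 1
  ext ⟨a, s⟩ ⟨b, s'⟩
  rw [RingHom.mapMatrix_apply, Matrix.map_apply, tot, tot, Matrix.sum_apply, Matrix.sum_apply,
    map_sum]
  refine Finset.sum_congr rfl fun q _ => ?_
  rw [kroneckerMap_apply, kroneckerMap_apply, map_mul, h, pmx, pmx, of_apply, of_apply]
  by_cases hs : s = q • s' <;> simp [hs]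

omit [Fintype Q] in
theorem inter {R : Type} [CommRing R] (φ : Matrix T S R)
    (h : ∀ (g : Q) (t : T) (s : S), φ (g • t) (g • s) = φ t s) (q : Q) :
    φ * pmx S R q = pmx T R q * φ := by
  ext t s
  rw [Matrix.mul_apply, Matrix.mul_apply, Finset.sum_eq_single (q • s),
    Finset.sum_eq_single (q⁻¹ • t)]
  · rw [pmx, of_apply, if_pos rfl, pmx, of_apply, if_pos (by rw [smul_inv_smul]), mul_one, one_mul,
      ← h q (q⁻¹ • t) s, smul_inv_smul]
  · intro t' _ ht
    rw [pmx, of_apply, if_neg, zero_mul]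
    intro h'
    exact ht (by rw [h', inv_smul_smul])
  · exact fun h => absurd (Finset.mem_univ _) h
  · intro s' _ hs
    rw [pmx, of_apply, if_neg hs, mul_zero]
  · exact fun h => absurd (Finset.mem_univ _) h

theorem rat_case {R : Type} [CommRing R] [Algebra ℚ R]
    (h : ∀ q, permChar Q S q = permChar Q T q) (Z : Q → Matrix A A R) :
    (tot S Z).det = (tot T Z).det := by
  obtain ⟨D, φ, ψ, hD, h1, h2, h3⟩ := exists_int_intertwiner h
  have hDR : ((D : ℤ) : R) * algebraMap ℚ R ((D : ℚ)⁻¹) = 1 := by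
    have : ((D : ℤ) : R) = algebraMap ℚ R (D : ℚ) := by simp
    rw [this, ← map_mul, mul_inv_cancel₀ (by exact_mod_cast hD), map_one]
  have m1 : (φ.map (Int.cast : ℤ → R)) * (ψ.map (Int.cast : ℤ → R)) = ((D : ℤ) : R) • 1 := by
    have := congrArg (fun M : Matrix T T ℤ => M.map (Int.castRingHom R)) h1
    simp only [Matrix.map_mul] at this
    refine this.trans ?_
    ext i j
    rw [Matrix.map_apply, Matrix.smul_apply, Matrix.smul_apply, Matrix.one_apply, Matrix.one_apply]
    by_cases hij : i = j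
    · rw [if_pos hij, if_pos hij]
      simp
    · rw [if_neg hij, if_neg hij]
      simp
  have m2 : (ψ.map (Int.cast : ℤ → R)) * (φ.map (Int.cast : ℤ → R)) = ((D : ℤ) : R) • 1 := by
    have := congrArg (fun M : Matrix S S ℤ => M.map (Int.castRingHom R)) h2
    simp only [Matrix.map_mul] at this
    refine this.trans ?_
    ext i j
    rw [Matrix.map_apply, Matrix.smul_apply, Matrix.smul_apply, Matrix.one_apply, Matrix.one_apply]
    by_cases hij : i = j
    · rw [if_pos hij, if_pos hij]
      simp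
    · rw [if_neg hij, if_neg hij]
      simp
  let P : Matrix (A × T) (A × S) R := kroneckerMap (· * ·) (1 : Matrix A A R) (φ.map Int.cast)
  let P' : Matrix (A × S) (A × T) R := kroneckerMap (· * ·) (1 : Matrix A A R)
    (algebraMap ℚ R ((D : ℚ)⁻¹) • ψ.map Int.cast)
  have hPP' : P * P' = 1 := by
    change kroneckerMap (· * ·) (1 : Matrix A A R) (φ.map Int.cast) *
      kroneckerMap (· * ·) (1 : Matrix A A R) (algebraMap ℚ R ((D : ℚ)⁻¹) • ψ.map Int.cast) = 1
    rw [← Matrix.mul_kronecker_mul, Matrix.mul_smul, m1, smul_smul, mul_comm, hDR, one_smul,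
      one_mul, Matrix.one_kronecker_one]
  have hP'P : P' * P = 1 := by
    change kroneckerMap (· * ·) (1 : Matrix A A R) (algebraMap ℚ R ((D : ℚ)⁻¹) • ψ.map Int.cast) *
      kroneckerMap (· * ·) (1 : Matrix A A R) (φ.map Int.cast) = 1
    rw [← Matrix.mul_kronecker_mul, Matrix.smul_mul, m2, smul_smul, mul_comm, hDR, one_smul,
      one_mul, Matrix.one_kronecker_one]
  have hI : P * tot S Z = tot T Z * P := by
    rw [tot, tot, Matrix.mul_sum, Matrix.sum_mul]
    refine Finset.sum_congr rfl fun q _ => ?_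
    change kroneckerMap (· * ·) (1 : Matrix A A R) (φ.map Int.cast) *
        kroneckerMap (· * ·) (Z q) (pmx S R q) =
      kroneckerMap (· * ·) (Z q) (pmx T R q) *
        kroneckerMap (· * ·) (1 : Matrix A A R) (φ.map Int.cast)
    rw [← Matrix.mul_kronecker_mul, ← Matrix.mul_kronecker_mul, one_mul, mul_one,
      inter (φ.map (Int.cast : ℤ → R)) (fun g t s => by
        rw [Matrix.map_apply, Matrix.map_apply, h3])]
  rw [← Matrix.det_conj_of_mul_eq_one hPP' hP'P (N := tot S Z), hI, Matrix.mul_assoc, hPP',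
    Matrix.mul_one]

end PERM

theorem t_PERM : s_PERM := by
  intro Q S T A k _ _ _ _ _ _ _ _ _ _ _ h Z
  let Z0 : Q → Matrix A A (MvPolynomial (Q × A × A) ℤ) := fun q => Matrix.of fun a b =>
    MvPolynomial.X (q, a, b)
  let Z1 : Q → Matrix A A (MvPolynomial (Q × A × A) ℚ) := fun q => Matrix.of fun a b =>
    MvPolynomial.X (q, a, b)
  have h1 : (PERM.tot S Z0).det = (PERM.tot T Z0).det := by
    apply MvPolynomial.map_injective (Int.castRingHom ℚ) (Int.cast_injective)
    rw [PERM.map_tot (MvPolynomial.map (Int.castRingHom ℚ)) Z0 Z1 fun q a b => by simp [Z0, Z1],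
      PERM.map_tot (MvPolynomial.map (Int.castRingHom ℚ)) Z0 Z1 fun q a b => by simp [Z0, Z1]]
    exact PERM.rat_case h Z1
  have h2 := congrArg (MvPolynomial.eval₂Hom (Int.castRingHom k)
    fun p : Q × A × A => Z p.1 p.2.1 p.2.2) h1
  rwa [PERM.map_tot _ Z0 Z fun q a b => by simp [Z0],
    PERM.map_tot _ Z0 Z fun q a b => by simp [Z0]] at h2

end Pool.Agent.DET
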