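import Pool.Agent.DET.St

/-!
# Finitely generated abelian groups are residually finite (module RFA of project DET)
-/

set_option autoImplicit false

namespace Pool.Agent.DET

open Pool.Agent.WhK

namespace RFA

theorem sep (A : Type) [CommGroup A] (hA : Group.FG A) (S : Finset A) :
    ∃ (B : Type) (_ : CommGroup B) (_ : Finite B) (π : A →* B), Set.InjOn π (S : Set A) := by
  classical
  obtain ⟨ι, j, _, _, p, hp, e, ⟨E⟩⟩ := CommGroup.equiv_free_prod_prod_multiplicative_zmod A
  have hne : ∀ i, NeZero (p i ^ e i) := fun i => ⟨pow_ne_zero _ (hp i).ne_zero⟩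
  let N : ℕ := 1 + ∑ x ∈ S, ∑ y ∈ S, ∑ l : j,
    (Multiplicative.toAdd ((E x).1 l) - Multiplicative.toAdd ((E y).1 l)).natAbs
  have hN : NeZero N := ⟨by simp [N]⟩
  have hfin : ∀ i, Finite (Multiplicative (ZMod (p i ^ e i))) := fun i =>
    inferInstanceAs (Finite (ZMod (p i ^ e i)))
  have hfin2 : Finite (Multiplicative (ZMod N)) := inferInstanceAs (Finite (ZMod N))
  let f : Multiplicative ℤ →* Multiplicative (ZMod N) :=
    AddMonoidHom.toMultiplicative (Int.castAddHom (ZMod N))
  let π : A →* (j → Multiplicative (ZMod N)) × ((i : ι) → Multiplicative (ZMod (p i ^ e i))) :=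
    ((MonoidHom.compLeft f j).prodMap (MonoidHom.id _)).comp E.toMonoidHom
  refine ⟨_, inferInstance, inferInstance, π, ?_⟩
  intro x hx y hy hxy
  have hxy' : ((MonoidHom.compLeft f j) (E x).1, (E x).2) =
      ((MonoidHom.compLeft f j) (E y).1, (E y).2) := hxy
  have h1 : (MonoidHom.compLeft f j) (E x).1 = (MonoidHom.compLeft f j) (E y).1 :=
    (Prod.ext_iff.1 hxy').1
  have h2 : (E x).2 = (E y).2 := (Prod.ext_iff.1 hxy').2
  apply E.injective
  refine Prod.ext ?_ h2
  funext l
  have h3 : f ((E x).1 l) = f ((E y).1 l) := congrFun h1 l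
  have h4 : ((Multiplicative.toAdd ((E x).1 l) : ℤ) : ZMod N) =
      ((Multiplicative.toAdd ((E y).1 l) : ℤ) : ZMod N) := h3
  have h5 := (ZMod.intCast_eq_intCast_iff_dvd_sub _ _ _).1 h4
  have h6 : (Multiplicative.toAdd ((E x).1 l) - Multiplicative.toAdd ((E y).1 l)).natAbs < N := by
    have h7 : (Multiplicative.toAdd ((E x).1 l) - Multiplicative.toAdd ((E y).1 l)).natAbs ≤
        ∑ x ∈ S, ∑ y ∈ S, ∑ l : j,
          (Multiplicative.toAdd ((E x).1 l) - Multiplicative.toAdd ((E y).1 l)).natAbs := by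
      refine le_trans ?_ (Finset.single_le_sum (fun _ _ => Nat.zero_le _) hx)
      refine le_trans ?_ (Finset.single_le_sum (fun _ _ => Nat.zero_le _) hy)
      exact Finset.single_le_sum (f := fun l =>
        (Multiplicative.toAdd ((E x).1 l) - Multiplicative.toAdd ((E y).1 l)).natAbs)
        (fun _ _ => Nat.zero_le _) (Finset.mem_univ l)
    simp only [N]
    omega
  have h8 : Multiplicative.toAdd ((E y).1 l) - Multiplicative.toAdd ((E x).1 l) = 0 := by
    apply Int.eq_zero_of_abs_lt_dvd h5
    rw [abs_sub_comm, Int.abs_eq_natAbs]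
    exact_mod_cast h6
  have h9 : Multiplicative.toAdd ((E y).1 l) = Multiplicative.toAdd ((E x).1 l) :=
    sub_eq_zero.1 h8
  exact (Multiplicative.toAdd.injective h9).symm

end RFA

theorem t_RFA : s_RFA := by
  classical
  intro A _ u hA hu
  obtain ⟨B, _, _, π, hπ⟩ := RFA.sep A hA u.coeff.support
  obtain ⟨b, hb⟩ := hu B π
  obtain ⟨ε, hε, hb'⟩ : ∃ ε : ℤ, (ε = 1 ∨ ε = -1) ∧ zmap π u = MonoidAlgebra.single b ε := by
    rcases hb with h | h
    · exact ⟨1, Or.inl rfl, h⟩
    · exact ⟨-1, Or.inr rfl, h⟩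
  have h1 : ∀ x ∈ u.coeff.support, u.coeff x = if b = π x then ε else 0 := by
    intro x hx
    have h2 : (zmap π u).coeff (π x) = u.coeff x :=
      Finsupp.mapDomain_apply' (↑u.coeff.support) u.coeff (by simp) hπ hx
    rw [← h2, hb', MonoidAlgebra.coeff_single, Finsupp.single_apply]
  have h0 : ∃ x, x ∈ u.coeff.support := by
    by_contra h
    push Not at h
    have h3 : u = 0 := by
      apply MonoidAlgebra.coeff_injective
      ext x
      have := h x
      simpa using this
    rw [h3, map_zero] at hb'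
    have h4 := congrArg (fun x : MonoidAlgebra ℤ B => x.coeff b) hb'
    simp at h4
    rcases hε with h | h <;> omega
  obtain ⟨x, hx⟩ := h0
  have hbx : ∀ y ∈ u.coeff.support, b = π y := by
    intro y hy
    by_contra h
    have := h1 y hy
    rw [if_neg h] at this
    exact (Finsupp.mem_support_iff.1 hy) this
  have hux : u = MonoidAlgebra.single x ε := by
    apply MonoidAlgebra.coeff_injective
    ext y
    rw [MonoidAlgebra.coeff_single, Finsupp.single_apply]
    split_ifs with h
    · rw [← h, h1 x hx, if_pos (hbx x hx)]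
    · by_contra hy
      have hy' := Finsupp.mem_support_iff.2 hy
      exact h (hπ hx hy' (by rw [← hbx x hx, ← hbx y hy']))
  refine ⟨x, ?_⟩
  rcases hε with h | h
  · left; rw [hux, h]
  · right; rw [hux, h]

end Pool.Agent.DET
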