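import Pool.Agent.DET.St

/-!
# DET, module SGN: the sign
-/

set_option autoImplicit false

namespace Pool.Agent.DET

open Pool.Agent.WhK Matrix

namespace SGN

/-- the regular representation of a finite group by permutation matrices -/
noncomputable def reg (B : Type) [Group B] [Fintype B] [DecidableEq B] : B →* Matrix B B ℤ where
  toFun b := Matrix.of fun y x => if y = b * x then 1 else 0
  map_one' := by
    ext y x
    simp [Matrix.one_apply]
  map_mul' a b := by
    ext y x
    rw [Matrix.mul_apply, Finset.sum_eq_single (b * x)]
    · simp [mul_assoc]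
    · intro z _ hz
      simp [hz]
    · intro h
      exact absurd (Finset.mem_univ _) h

/-- the augmentation -/
noncomputable def aug (A : Type) [Group A] : MonoidAlgebra ℤ A →+* ℤ :=
  (MonoidAlgebra.lift ℤ ℤ A 1).toRingHom

theorem aug_single {A : Type} [Group A] (a : A) (r : ℤ) : aug A (MonoidAlgebra.single a r) = r := by
  show (MonoidAlgebra.lift ℤ ℤ A 1) (MonoidAlgebra.single a r) = r
  rw [MonoidAlgebra.lift_single]
  simp

end SGN

open SGN in
theorem t_SGN : s_SGN := by
  intro G n _ _ _ M _ _ _ hc X hX hneg
  -- the quotient is commutative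
  let cg : CommGroup (G ⧸ M) :=
    { (inferInstance : Group (G ⧸ M)) with
      mul_comm := by
        intro a b
        induction a using QuotientGroup.induction_on with
        | H a =>
          induction b using QuotientGroup.induction_on with
          | H b =>
            show ((a * b : G) : G ⧸ M) = ((b * a : G) : G ⧸ M)
            exact (QuotientGroup.eq.2 (hc a b)).symm }
  let φ : Abelianization G →* G ⧸ M := @Abelianization.lift G _ (G ⧸ M) cg (QuotientGroup.mk' M)
  let f : MonoidAlgebra ℤ (Abelianization G) →+* Matrix (G ⧸ M) (G ⧸ M) ℤ :=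
    (MonoidAlgebra.lift ℤ (Matrix (G ⧸ M) (G ⧸ M) ℤ) (Abelianization G)
      ((reg (G ⧸ M)).comp φ)).toRingHom
  have hf : ∀ (g : G) (r : ℤ), f (MonoidAlgebra.single (Abelianization.of g) r) =
      r • reg (G ⧸ M) (g : G ⧸ M) := by
    intro g r
    exact MonoidAlgebra.lift_single _ _ _
  -- the entries
  have key : ∀ (x : MonoidAlgebra ℤ G) (y z : G ⧸ M),
      aug (Abelianization M) (zmap Abelianization.of (Res M x y z)) =
        f (zmap Abelianization.of x) y z := by
    intro x y z
    let F₁ : MonoidAlgebra ℤ G →+ ℤ :=
      { toFun := fun x => aug (Abelianization M) (zmap Abelianization.of (Res M x y z))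
        map_zero' := by rw [map_zero, Matrix.zero_apply, map_zero, map_zero]
        map_add' := fun a b => by rw [map_add, Matrix.add_apply, map_add, map_add] }
    let F₂ : MonoidAlgebra ℤ G →+ ℤ :=
      { toFun := fun x => f (zmap Abelianization.of x) y z
        map_zero' := by rw [map_zero, map_zero, Matrix.zero_apply]
        map_add' := fun a b => by rw [map_add, map_add, Matrix.add_apply] }
    refine ext_single F₁ F₂ (fun g => ?_) x
    show aug (Abelianization M) (zmap Abelianization.of (Res M (MonoidAlgebra.single g 1) y z)) =
      f (zmap Abelianization.of (MonoidAlgebra.single g 1)) y z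
    rw [Res_single, one_smul, MonoidAlgebra.mapDomainRingHom_apply, MonoidAlgebra.mapDomainRingHom_apply,
      MonoidAlgebra.mapDomain_single, hf, one_smul]
    show aug (Abelianization M) (MonoidAlgebra.mapDomain _ (resEntry M g y z)) =
      if y = (g : G ⧸ M) * z then 1 else 0
    by_cases hy : y = g • z
    · subst hy
      rw [resEntry_smul, MonoidAlgebra.mapDomain_single, aug_single, if_pos]
      rfl
    · rw [resEntry_ne hy, MonoidAlgebra.mapDomain_zero, map_zero, if_neg]
      exact hy
  have h1 : aug (Abelianization M) (dab (blk n (Res M) X)) = 1 := by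
    unfold dab
    rw [RingHom.map_det, RingHom.mapMatrix_apply, Matrix.map_map]
    have h2 : ((blk n (Res M) X).map
        (aug (Abelianization M) ∘ zmap (Abelianization.of : M →* Abelianization M))) =
        (((X.map (zmap (Abelianization.of : G →* Abelianization G))).map f).comp n n
          (G ⧸ M) (G ⧸ M) ℤ) := by
      ext ⟨i, y⟩ ⟨j, z⟩
      exact key (X i j) y z
    rw [h2, ← Matrix.det_det]
    have h3 : (X.map (zmap (Abelianization.of : G →* Abelianization G))).det = 1 := hX
    rw [h3, map_one, Matrix.det_one]
  rw [hneg, map_neg, map_one] at h1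
  norm_num at h1

end Pool.Agent.DET
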