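import Pool.Agent.DET.St

/-!
# The restriction matrix and the translations by the quotient group
-/

set_option autoImplicit false

namespace Pool.Agent.DET

open Pool.Agent.WhK

namespace SHFT

variable {G : Type} [Group G] (M : Subgroup G) [M.Normal]

theorem smul_eq (g : G) (x : G ⧸ M) : g • x = (g : G ⧸ M) * x := by
  induction x using QuotientGroup.induction_on with
  | H x => rfl

theorem mem (τ y : G ⧸ M) : (τ.out)⁻¹ * (y.out)⁻¹ * (y * τ).out ∈ M := by
  rw [← mul_inv_rev]
  rw [← QuotientGroup.eq, QuotientGroup.mk_mul, QuotientGroup.out_eq', QuotientGroup.out_eq',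
    QuotientGroup.out_eq']

theorem rab_single [Fintype (G ⧸ M)] [DecidableEq (G ⧸ M)] (g : G) (y x : G ⧸ M) :
    rab M (MonoidAlgebra.single g 1) y x =
      zmap (Abelianization.of : M →* Abelianization M) (resEntry M g y x) := by
  unfold rab
  rw [Matrix.map_apply, Res_single, one_smul]
  rfl

end SHFT

theorem t_SHFT : s_SHFT := by
  intro G _ M _ _ _ τ
  let e : M ≃* M := MulAut.conjNormal (τ.out)⁻¹
  have he : ∀ m : M, ((e m : M) : G) = (τ.out)⁻¹ * m * τ.out := fun m => by
    show ((MulAut.conjNormal (τ.out)⁻¹ m : M) : G) = _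
    rw [MulAut.conjNormal_apply, inv_inv]
  refine ⟨e.abelianizationCongr.toMonoidHom,
    fun y => Abelianization.of ⟨_, SHFT.mem M τ y⟩, e.abelianizationCongr.injective, ?_⟩
  intro g y x
  rw [SHFT.rab_single, SHFT.rab_single]
  by_cases hy : y = g • x
  · have h1 : (y.out)⁻¹ * (g * x.out) ∈ M := (mem_iff_coset M g y x).2 hy
    have hy2 : y * τ = g • (x * τ) := by
      rw [hy, SHFT.smul_eq, SHFT.smul_eq, mul_assoc]
    have h2 : ((y * τ).out)⁻¹ * (g * (x * τ).out) ∈ M := (mem_iff_coset M g _ _).2 hy2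
    have e1 : resEntry M g y x = MonoidAlgebra.single (⟨_, h1⟩ : M) 1 := dif_pos h1
    have e2 : resEntry M g (y * τ) (x * τ) = MonoidAlgebra.single (⟨_, h2⟩ : M) 1 := dif_pos h2
    rw [e1, e2]
    simp only [MonoidAlgebra.mapDomainRingHom_apply, MonoidAlgebra.mapDomain_single,
      MonoidAlgebra.single_mul_single, mul_one]
    congr 1
    have h3 : (e.abelianizationCongr.toMonoidHom (Abelianization.of (⟨_, h1⟩ : M))) =
        Abelianization.of (e ⟨_, h1⟩) := rfl
    rw [h3, ← map_inv, ← map_mul, ← map_mul]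
    congr 1
    apply Subtype.ext
    rw [Subgroup.coe_mul, Subgroup.coe_mul, Subgroup.coe_inv, he]
    show ((y * τ).out)⁻¹ * (g * (x * τ).out) = ((τ.out)⁻¹ * (y.out)⁻¹ * (y * τ).out)⁻¹ *
      ((τ.out)⁻¹ * ((y.out)⁻¹ * (g * x.out)) * τ.out) * ((τ.out)⁻¹ * (x.out)⁻¹ * (x * τ).out)
    group
  · have hy2 : y * τ ≠ g • (x * τ) := fun h => hy (by
      have h1 : y * τ = (g • x) * τ := by rw [h, SHFT.smul_eq, SHFT.smul_eq, mul_assoc]
      exact mul_right_cancel h1)
    rw [resEntry_ne hy, resEntry_ne hy2]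
    simp only [map_zero, mul_zero, zero_mul]

end Pool.Agent.DET
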