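import Pool.Agent.DET.St
import Pool.Agent.Stark.SOL

/-!
# SOLQ: Solomon's induction theorem with positive coefficients
-/

set_option autoImplicit false

namespace Pool.Agent.DET

open Pool.Agent.WhK Matrix

namespace SOLQ

open StarkC StarkC.SOL

open scoped Classical in
theorem permChar_eq {Q : Type} [Group Q] (H : Subgroup Q) [Fintype (Q ⧸ H)] (q : Q) :
    permChar Q (Q ⧸ H) q = (fxq H q : ℤ) := by
  unfold permChar fxq
  rw [Nat.card_eq_fintype_card, Fintype.card_subtype, Finset.card_filter]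
  push_cast
  apply Finset.sum_congr rfl
  intro s _
  by_cases h : q • s = s
  · rw [if_pos h, if_pos h]
  · rw [if_neg h, if_neg h]

theorem sum_rep {Q : Type} [Group Q] {m : ℕ} (H : Fin m → Subgroup Q) (c : Fin m → ℕ) (q : Q) :
    ∑ j : Fin (∑ i, c i), (fxq (H (finSigmaFinEquiv.symm j).1) q : ℤ) =
      ∑ i, (c i : ℤ) * (fxq (H i) q : ℤ) := by
  rw [Equiv.sum_comp (finSigmaFinEquiv (n := c)).symm
    (fun p : (i : Fin m) × Fin (c i) => (fxq (H p.1) q : ℤ)), Fintype.sum_sigma]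
  apply Finset.sum_congr rfl
  intro i _
  show ∑ _y : Fin (c i), (fxq (H i) q : ℤ) = _
  rw [Finset.sum_const, Finset.card_univ, Fintype.card_fin, nsmul_eq_mul]

theorem qe {Q : Type} [Group Q] (h : IsQuasiElem Q) : QE Q := by
  obtain ⟨p, C, hp, hn, hc, _, m, hm⟩ := h
  exact ⟨p, m, C, hp, hn, hc, hm⟩

end SOLQ

open SOLQ StarkC StarkC.SOL in
theorem t_SOLQ : s_SOLQ := by
  intro Q _ _
  have : Fintype Q := Fintype.ofFinite Q
  obtain ⟨m, H, n, hH, hsum⟩ := SOL_thm Q
  refine ⟨∑ i, (n i).toNat, ∑ i, (-n i).toNat, fun j => H (finSigmaFinEquiv.symm j).1,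
    fun j => H (finSigmaFinEquiv.symm j).1, fun j => qe (hH _), fun j => qe (hH _), ?_⟩
  intro _ _ q
  rw [Finset.sum_congr rfl (fun j _ => permChar_eq (H (finSigmaFinEquiv.symm j).1) q),
    Finset.sum_congr rfl (fun j _ => permChar_eq (H (finSigmaFinEquiv.symm j).1) q),
    sum_rep H (fun i => (-n i).toNat) q, sum_rep H (fun i => (n i).toNat) q]
  have h1 : (1 : ℤ) = ∑ i, n i * (fxq (H i) q : ℤ) := by
    have h2 := hsum q
    simp only [indFun_eq] at h2
    exact_mod_cast h2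
  rw [h1, ← Finset.sum_add_distrib]
  apply Finset.sum_congr rfl
  intro i _
  rw [← add_mul]
  congr 1
  have := Int.toNat_sub_toNat_neg (n i)
  linarith

end Pool.Agent.DET
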