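import Pool.Agent.DET.St

/-!
# DET: the tensor product with a transitive permutation representation is induced
-/

set_option autoImplicit false

namespace Pool.Agent.DET

open Pool.Agent.WhK Matrix

namespace TIND

theorem rh_single {G R ν : Type} [Group G] [CommRing R] [Fintype ν] [DecidableEq ν]
    (ρ : G →* Matrix ν ν R) (g : G) : rh ρ (MonoidAlgebra.single g 1) = ρ g := by
  show MonoidAlgebra.lift ℤ (Matrix ν ν R) G ρ (MonoidAlgebra.single g 1) = ρ g
  rw [MonoidAlgebra.lift_single, one_smul]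

/-- `blk` as a ring homomorphism -/
def blkR {Λ Λ' : Type} [Ring Λ] [Ring Λ'] (S T : Type) [Fintype S] [DecidableEq S] [Fintype T]
    [DecidableEq T] (θ : Λ →+* Matrix T T Λ') : Matrix S S Λ →+* Matrix (S × T) (S × T) Λ' :=
  { blk S θ with
    map_zero' := by
      ext ⟨i, s⟩ ⟨j, s'⟩
      show θ 0 s s' = 0
      rw [map_zero]
      rfl
    map_add' := by
      intro X Y
      ext ⟨i, s⟩ ⟨j, s'⟩
      show θ (X i j + Y i j) s s' = θ (X i j) s s' + θ (Y i j) s s'
      rw [map_add]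
      rfl }

section
variable {G Q : Type} [Group G] [Group Q] (φ : G →* Q) (H : Subgroup Q)

/-- the map of the cosets -/
noncomputable def ec (x : G ⧸ H.comap φ) : Q ⧸ H := (φ x.out : Q ⧸ H)

theorem ec_mk (a : G) : ec φ H (a : G ⧸ H.comap φ) = (φ a : Q ⧸ H) := by
  obtain ⟨m, hm⟩ := QuotientGroup.mk_out_eq_mul (H.comap φ) a
  unfold ec
  rw [hm, map_mul]
  exact QuotientGroup.mk_mul_of_mem _ m.2

theorem ec_smul (g : G) (x : G ⧸ H.comap φ) : ec φ H (g • x) = φ g • ec φ H x := by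
  obtain ⟨a, rfl⟩ := QuotientGroup.mk_surjective x
  have h1 : g • ((a : G) : G ⧸ H.comap φ) = ((g * a : G) : G ⧸ H.comap φ) := rfl
  rw [h1, ec_mk, ec_mk, map_mul]
  rfl

theorem ec_inj : Function.Injective (ec φ H) := by
  intro x y hxy
  obtain ⟨a, rfl⟩ := QuotientGroup.mk_surjective x
  obtain ⟨b, rfl⟩ := QuotientGroup.mk_surjective y
  rw [ec_mk, ec_mk, QuotientGroup.eq] at hxy
  rw [QuotientGroup.eq]
  show φ (a⁻¹ * b) ∈ H
  rw [map_mul, map_inv]
  exact hxy

theorem ec_surj (hφ : Function.Surjective φ) : Function.Surjective (ec φ H) := by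
  intro y
  obtain ⟨q, rfl⟩ := QuotientGroup.mk_surjective y
  obtain ⟨a, rfl⟩ := hφ q
  exact ⟨(a : G ⧸ H.comap φ), ec_mk φ H a⟩

variable {R ν : Type} [CommRing R] [Fintype ν] [DecidableEq ν] (ρ : Q →* Matrix ν ν R)
  [DecidableEq (Q ⧸ H)]

/-- the intertwining matrix and its inverse -/
noncomputable def P : Matrix (ν × (Q ⧸ H)) ((G ⧸ H.comap φ) × ν) R :=
  Matrix.of fun p q => if p.2 = ec φ H q.1 then ρ (φ q.1.out) p.1 q.2 else 0

noncomputable def P' : Matrix ((G ⧸ H.comap φ) × ν) (ν × (Q ⧸ H)) R :=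
  Matrix.of fun q p => if p.2 = ec φ H q.1 then ρ (φ q.1.out)⁻¹ q.2 p.1 else 0

theorem rho_inv (q : Q) (a b : ν) : ∑ c, ρ q a c * ρ q⁻¹ c b = (1 : Matrix ν ν R) a b := by
  rw [← Matrix.mul_apply, ← map_mul, mul_inv_cancel, map_one]

theorem rho_inv' (q : Q) (a b : ν) : ∑ c, ρ q⁻¹ a c * ρ q c b = (1 : Matrix ν ν R) a b := by
  rw [← Matrix.mul_apply, ← map_mul, inv_mul_cancel, map_one]

theorem P_mul [Fintype (G ⧸ H.comap φ)] (hφ : Function.Surjective φ) :
    P φ H ρ * P' φ H ρ = 1 := by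
  ext ⟨a, s⟩ ⟨a', s'⟩
  rw [Matrix.mul_apply, Fintype.sum_prod_type]
  obtain ⟨x, rfl⟩ := ec_surj φ H hφ s
  rw [Finset.sum_eq_single x]
  · by_cases h : s' = ec φ H x
    · have e1 : ∀ b, P φ H ρ (a, ec φ H x) (x, b) * P' φ H ρ (x, b) (a', s') =
          ρ (φ x.out) a b * ρ (φ x.out)⁻¹ b a' := by
        intro b
        simp only [P, P', of_apply, if_true, h]
      rw [Finset.sum_congr rfl fun b _ => e1 b, rho_inv, one_apply, one_apply]
      simp [h]
    · have e1 : ∀ b, P φ H ρ (a, ec φ H x) (x, b) * P' φ H ρ (x, b) (a', s') = 0 := by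
        intro b
        simp only [P', of_apply, if_neg h, mul_zero]
      rw [Finset.sum_congr rfl fun b _ => e1 b, Finset.sum_const_zero, one_apply, if_neg]
      intro h2
      exact h (Prod.mk.inj h2).2.symm
  · intro y _ hy
    refine Finset.sum_eq_zero fun b _ => ?_
    have : ¬ (ec φ H x = ec φ H y) := fun h => hy (ec_inj φ H h).symm
    simp only [P, of_apply, if_neg this, zero_mul]
  · exact fun h => absurd (Finset.mem_univ _) h

theorem P_mul' [Fintype (Q ⧸ H)] [DecidableEq (G ⧸ H.comap φ)] :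
    P' φ H ρ * P φ H ρ = 1 := by
  ext ⟨x, b⟩ ⟨x', b'⟩
  rw [Matrix.mul_apply, Fintype.sum_prod_type, Finset.sum_comm,
    Finset.sum_eq_single (ec φ H x)]
  · by_cases h : x = x'
    · subst h
      have e1 : ∀ a, P' φ H ρ (x, b) (a, ec φ H x) * P φ H ρ (a, ec φ H x) (x, b') =
          ρ (φ x.out)⁻¹ b a * ρ (φ x.out) a b' := by
        intro a
        simp only [P, P', of_apply, if_true]
      rw [Finset.sum_congr rfl fun a _ => e1 a, rho_inv', one_apply, one_apply]
      simp
    · have h2 : ¬ (ec φ H x = ec φ H x') := fun h3 => h (ec_inj φ H h3)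
      have e1 : ∀ a, P' φ H ρ (x, b) (a, ec φ H x) * P φ H ρ (a, ec φ H x) (x', b') = 0 := by
        intro a
        simp only [P, of_apply, if_neg h2, mul_zero]
      rw [Finset.sum_congr rfl fun a _ => e1 a, Finset.sum_const_zero, one_apply, if_neg]
      intro h4
      exact h (Prod.mk.inj h4).1
  · intro s _ hs
    refine Finset.sum_eq_zero fun a _ => ?_
    simp only [P', of_apply, if_neg hs, zero_mul]
  · exact fun h => absurd (Finset.mem_univ _) h

variable [Fintype (Q ⧸ H)] [Fintype (G ⧸ H.comap φ)] [DecidableEq (G ⧸ H.comap φ)]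

/-- the induced representation on the group ring -/
noncomputable def ind : MonoidAlgebra ℤ G →+*
    Matrix ((G ⧸ H.comap φ) × ν) ((G ⧸ H.comap φ) × ν) R :=
  (blkR (G ⧸ H.comap φ) ν (rh ((ρ.comp φ).comp (H.comap φ).subtype))).comp (Res (H.comap φ))

theorem ind_apply (x : MonoidAlgebra ℤ G) (y z : G ⧸ H.comap φ) (c b : ν) :
    ind φ H ρ x (y, c) (z, b) =
      rh ((ρ.comp φ).comp (H.comap φ).subtype) (Res (H.comap φ) x y z) c b := rfl

theorem ind_single_ne (g : G) (y z : G ⧸ H.comap φ) (c b : ν) (h : y ≠ g • z) :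
    ind φ H ρ (MonoidAlgebra.single g 1) (y, c) (z, b) = 0 := by
  rw [ind_apply, Res_single, one_smul]
  show rh _ (resEntry (H.comap φ) g y z) c b = 0
  rw [resEntry_ne h, map_zero]
  rfl

theorem ind_single (g : G) (z : G ⧸ H.comap φ) (c b : ν) :
    ind φ H ρ (MonoidAlgebra.single g 1) (g • z, c) (z, b) =
      ρ (φ (((g • z).out)⁻¹ * (g * z.out))) c b := by
  rw [ind_apply, Res_single, one_smul]
  show rh _ (resEntry (H.comap φ) g (g • z) z) c b = _
  rw [resEntry_smul, rh_single]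
  rfl

theorem P_single (g : G) :
    P φ H ρ * ind φ H ρ (MonoidAlgebra.single g 1) = tens φ ρ (Q ⧸ H) g * P φ H ρ := by
  ext ⟨a, s⟩ ⟨x, b⟩
  rw [Matrix.mul_apply, Matrix.mul_apply, Fintype.sum_prod_type, Fintype.sum_prod_type,
    Finset.sum_eq_single (g • x)]
  · have e2 : ∀ c, ∑ t, tens φ ρ (Q ⧸ H) g (a, s) (c, t) * P φ H ρ (c, t) (x, b) =
        if s = ec φ H (g • x) then ρ (φ g) a c * ρ (φ x.out) c b else 0 := by
      intro c
      rw [Finset.sum_eq_single (ec φ H x)]
      · show ρ (φ g) a c * (if s = φ g • ec φ H x then 1 else 0) *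
          (if ec φ H x = ec φ H x then ρ (φ x.out) c b else 0) = _
        rw [if_pos rfl, ec_smul]
        by_cases h : s = φ g • ec φ H x
        · rw [if_pos h, if_pos h, mul_one]
        · rw [if_neg h, if_neg h, mul_zero, zero_mul]
      · intro t _ ht
        simp only [P, of_apply, if_neg ht, mul_zero]
      · exact fun h => absurd (Finset.mem_univ _) h
    rw [Finset.sum_congr rfl fun c _ => e2 c]
    by_cases h : s = ec φ H (g • x)
    · subst h
      have e1 : ∀ c, P φ H ρ (a, ec φ H (g • x)) (g • x, c) *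
          ind φ H ρ (MonoidAlgebra.single g 1) (g • x, c) (x, b) =
          ρ (φ (g • x).out) a c * ρ (φ (((g • x).out)⁻¹ * (g * x.out))) c b := by
        intro c
        rw [ind_single]
        simp only [P, of_apply, if_true]
      rw [Finset.sum_congr rfl fun c _ => e1 c]
      simp only [if_true]
      rw [← Matrix.mul_apply, ← Matrix.mul_apply, ← map_mul, ← map_mul, ← map_mul, ← map_mul]
      congr 3
      group
    · have e1 : ∀ c, P φ H ρ (a, s) (g • x, c) *
          ind φ H ρ (MonoidAlgebra.single g 1) (g • x, c) (x, b) = 0 := by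
        intro c
        simp only [P, of_apply, if_neg h, zero_mul]
      rw [Finset.sum_congr rfl fun c _ => e1 c]
      simp only [if_neg h]
  · intro y _ hy
    refine Finset.sum_eq_zero fun c _ => ?_
    rw [ind_single_ne φ H ρ g y x c b hy, mul_zero]
  · exact fun h => absurd (Finset.mem_univ _) h

theorem P_intertwine (x : MonoidAlgebra ℤ G) :
    P φ H ρ * ind φ H ρ x = rh (tens φ ρ (Q ⧸ H)) x * P φ H ρ := by
  let F : MonoidAlgebra ℤ G →+ Matrix (ν × (Q ⧸ H)) ((G ⧸ H.comap φ) × ν) R :=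
    { toFun := fun x => P φ H ρ * ind φ H ρ x
      map_zero' := by rw [map_zero, Matrix.mul_zero]
      map_add' := fun x y => by rw [map_add, Matrix.mul_add] }
  let F' : MonoidAlgebra ℤ G →+ Matrix (ν × (Q ⧸ H)) ((G ⧸ H.comap φ) × ν) R :=
    { toFun := fun x => rh (tens φ ρ (Q ⧸ H)) x * P φ H ρ
      map_zero' := by rw [map_zero, Matrix.zero_mul]
      map_add' := fun x y => by rw [map_add, Matrix.add_mul] }
  refine ext_single F F' (fun g => ?_) x
  show P φ H ρ * ind φ H ρ (MonoidAlgebra.single g 1) =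
    rh (tens φ ρ (Q ⧸ H)) (MonoidAlgebra.single g 1) * P φ H ρ
  rw [rh_single, P_single]

end

end TIND

open TIND in
theorem t_TIND : s_TIND := by
  intro G Q R n ν _ _ _ _ _ _ _ φ ρ H _ _ _ _ X hφ
  have h1 : infl n (P φ H ρ) * infl n (P' φ H ρ) = 1 := by
    rw [infl_mul, P_mul φ H ρ hφ]
    have := infl_smul_one (n := n) (S := ν × (Q ⧸ H)) (Λ := R) 1
    rwa [one_smul, one_smul] at this
  have h2 : infl n (P' φ H ρ) * infl n (P φ H ρ) = 1 := by
    rw [infl_mul, P_mul' φ H ρ]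
    have := infl_smul_one (n := n) (S := (G ⧸ H.comap φ) × ν) (Λ := R) 1
    rwa [one_smul, one_smul] at this
  have h3 := infl_intertwine (n := n) (ind φ H ρ) (rh (tens φ ρ (Q ⧸ H))) (P φ H ρ)
    (P_intertwine φ H ρ) X
  have h4 : dt (tens φ ρ (Q ⧸ H)) X = (blk n (ind φ H ρ) X).det := by
    unfold dt
    rw [← Matrix.det_conj_of_mul_eq_one h1 h2 (N := blk n (ind φ H ρ) X), h3, Matrix.mul_assoc,
      h1, Matrix.mul_one]
  rw [h4]
  unfold dt
  rw [← Matrix.det_submatrix_equiv_self (Equiv.prodAssoc n (G ⧸ H.comap φ) ν)]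
  rfl

end Pool.Agent.DET
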