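import Pool.Agent.DET.St

/-!
# Tensor products with permutation representations of the same character
-/

set_option autoImplicit false

open Pool.Agent.WhK Matrix

namespace Pool.Agent.DET

namespace TPRM

section

variable {G Q R ν : Type} [Group G] [Group Q] [CommRing R] [Fintype ν] [DecidableEq ν]
  [DecidableEq Q]

/-- the part of the entry `(a, b)` over `q` -/
noncomputable def F (φ : G →* Q) (ρ : Q →* Matrix ν ν R) (q : Q) (a b : ν) :
    MonoidAlgebra ℤ G →+ R :=
  MonoidAlgebra.liftNC (Int.castAddHom R) (fun g => if φ g = q then ρ q a b else 0)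

theorem entry [Fintype Q] (φ : G →* Q) (ρ : Q →* Matrix ν ν R) (S : Type) [Fintype S]
    [DecidableEq S] [MulAction Q S] (x : MonoidAlgebra ℤ G) (a b : ν) (s s' : S) :
    rh (tens φ ρ S) x (a, s) (b, s') = ∑ q, F φ ρ q a b x * pmx S R q s s' := by
  induction x using MonoidAlgebra.induction_linear with
  | zero => simp
  | add x y hx hy =>
    rw [map_add, Matrix.add_apply, hx, hy, ← Finset.sum_add_distrib]
    exact Finset.sum_congr rfl fun q _ => by rw [map_add, add_mul]
  | single g r =>
    have h1 : rh (tens φ ρ S) (MonoidAlgebra.single g r) = r • tens φ ρ S g :=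
      MonoidAlgebra.lift_single _ _ _
    rw [h1, Finset.sum_eq_single (φ g)]
    · unfold F
      rw [MonoidAlgebra.liftNC_single, if_pos rfl, Matrix.smul_apply]
      show r • (ρ (φ g) a b * pmx S R (φ g) s s') = ((r : ℤ) : R) * ρ (φ g) a b * pmx S R (φ g) s s'
      rw [zsmul_eq_mul, mul_assoc]
    · intro q _ hq
      unfold F
      rw [MonoidAlgebra.liftNC_single, if_neg (Ne.symm hq), mul_zero, zero_mul]
    · exact fun h => absurd (Finset.mem_univ _) h

theorem dt_eq [Fintype Q] {n : Type} [Fintype n] [DecidableEq n] (φ : G →* Q)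
    (ρ : Q →* Matrix ν ν R) (S : Type) [Fintype S] [DecidableEq S] [MulAction Q S]
    (X : Matrix n n (MonoidAlgebra ℤ G)) :
    dt (tens φ ρ S) X = (∑ q, kroneckerMap (· * ·)
      (Matrix.of fun p p' : n × ν => F φ ρ q p.2 p'.2 (X p.1 p'.1)) (pmx S R q)).det := by
  rw [← Matrix.det_submatrix_equiv_self (Equiv.prodAssoc n ν S).symm]
  unfold dt
  congr 1
  ext ⟨i, a, s⟩ ⟨j, b, s'⟩
  rw [submatrix_apply, Matrix.sum_apply]
  show rh (tens φ ρ S) (X i j) (a, s) (b, s') = _
  rw [entry]
  rfl

end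

end TPRM

open TPRM in
theorem t_TPRM (h : s_PERM) : s_TPRM := by
  classical
  intro G Q S T R n ν _ _ _ _ _ _ _ _ _ _ _ _ _ _ φ ρ X hc
  rw [dt_eq, dt_eq]
  exact h Q S T (n × ν) R hc _

end Pool.Agent.DET
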