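import Pool.Agent.DET.St

/-!
# DET, module TRIV: the determinant on `K₁` of a commutative ring and the trivial units
-/

set_option autoImplicit false

namespace Pool.Agent.DET.TRIV

open Pool.Agent.WhK Matrix

section Det

variable {R : Type} [CommRing R]

theorem det_stab (m n : ℕ) (hmn : m ≤ n) (X : Matrix (Fin m) (Fin m) R) :
    (stabMat R m n X).det = X.det := by
  obtain ⟨k, rfl⟩ := Nat.exists_eq_add_of_le hmn
  have h : (stabMat R m (m + k) X).submatrix finSumFinEquiv finSumFinEquiv =
      fromBlocks X 0 0 (1 : Matrix (Fin k) (Fin k) R) := by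
    ext i j
    rcases i with i | i <;> rcases j with j | j
    · simp [stabMat]
    · have h1 : (Fin.castAdd k i : Fin (m + k)) ≠ Fin.natAdd m j := by
        intro h
        have := congrArg Fin.val h
        simp only [Fin.val_castAdd, Fin.val_natAdd] at this
        omega
      simp [stabMat, h1]
    · have h1 : (Fin.natAdd m i : Fin (m + k)) ≠ Fin.castAdd k j := by
        intro h
        have := congrArg Fin.val h
        simp only [Fin.val_castAdd, Fin.val_natAdd] at this
        omega
      simp [stabMat, h1]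
    · simp [stabMat, one_apply]
  rw [← Matrix.det_submatrix_equiv_self finSumFinEquiv, h, det_fromBlocks_zero₂₁, det_one,
    mul_one]

/-- the determinant of an invertible matrix as a unit -/
def dU (n : ℕ) : GLn R n →* Rˣ := Units.map (Matrix.detMonoidHom (n := Fin n) (R := R))

/-- the determinant of a pair -/
def dP (x : MatPair R) : Additive Rˣ := Additive.ofMul (dU x.n x.X)

theorem rel : AddSubgroup.closure (K1.relMul R ∪ K1.relStab R) ≤
    (FreeAbelianGroup.lift (dP (R := R))).ker := by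
  rw [AddSubgroup.closure_le]
  rintro x (⟨n, X, Y, rfl⟩ | ⟨m, n, hmn, X, rfl⟩)
  · rw [SetLike.mem_coe, AddMonoidHom.mem_ker, K1.relMulElt, map_sub, map_sub, K1.gen, K1.gen,
      K1.gen, FreeAbelianGroup.lift_apply_of, FreeAbelianGroup.lift_apply_of,
      FreeAbelianGroup.lift_apply_of, sub_sub, sub_eq_zero]
    show Additive.ofMul (dU n (X * Y)) = Additive.ofMul (dU n X) + Additive.ofMul (dU n Y)
    rw [map_mul]
    rfl
  · rw [SetLike.mem_coe, AddMonoidHom.mem_ker, K1.relStabElt, map_sub, K1.gen, K1.gen,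
      FreeAbelianGroup.lift_apply_of, FreeAbelianGroup.lift_apply_of, sub_eq_zero]
    show Additive.ofMul (dU n (stabGL R m n hmn X)) = Additive.ofMul (dU m X)
    congr 1
    refine Units.ext ?_
    exact det_stab m n hmn X.val

/-- the determinant on `K₁` -/
noncomputable def dK : K1 R →+ Additive Rˣ :=
  QuotientAddGroup.lift _ (FreeAbelianGroup.lift dP) rel

theorem dK_mk (n : ℕ) (X : GLn R n) : dK (K1.mk n X) = Additive.ofMul (dU n X) := by
  show QuotientAddGroup.lift _ _ _ (QuotientAddGroup.mk _) = _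
  rw [QuotientAddGroup.lift_mk]
  exact FreeAbelianGroup.lift_apply_of _ _

theorem dK_cls {ι : Type} [Fintype ι] [DecidableEq ι] (X : (Matrix ι ι R)ˣ) :
    ((dK (cls X)).toMul : R) = X.val.det := by
  unfold cls
  rw [dK_mk]
  show (X.val.submatrix (Fintype.equivFin ι).symm (Fintype.equivFin ι).symm).det = _
  exact Matrix.det_submatrix_equiv_self _ _

theorem dK_ofUnit (u : Rˣ) : ((dK (K1.ofUnit u)).toMul : R) = u := by
  unfold K1.ofUnit
  rw [dK_mk]
  show (Matrix.scalar (Fin 1) (u : R)).det = u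
  simp

end Det

section Triv

variable {A : Type} [CommGroup A]

theorem pm_one : IsPM (1 : MonoidAlgebra ℤ A) 1 := Or.inl rfl

theorem pm_mul {u v : MonoidAlgebra ℤ A} {a b : A} (hu : IsPM u a) (hv : IsPM v b) :
    IsPM (u * v) (a * b) := by
  rcases hu with rfl | rfl <;> rcases hv with rfl | rfl
  · left
    rw [MonoidAlgebra.single_mul_single, one_mul]
  · right
    rw [MonoidAlgebra.single_mul_single, one_mul]
  · right
    rw [MonoidAlgebra.single_mul_single, mul_one]
  · left
    rw [MonoidAlgebra.single_mul_single]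
    norm_num

theorem pm_inv {u : (MonoidAlgebra ℤ A)ˣ} {a : A} (hu : IsPM (u : MonoidAlgebra ℤ A) a) :
    IsPM ((u⁻¹ : (MonoidAlgebra ℤ A)ˣ) : MonoidAlgebra ℤ A) a⁻¹ := by
  rcases hu with hu | hu
  · left
    apply Units.inv_eq_of_mul_eq_one_right
    rw [hu, MonoidAlgebra.single_mul_single, mul_inv_cancel, one_mul]
    rfl
  · right
    apply Units.inv_eq_of_mul_eq_one_right
    rw [hu, MonoidAlgebra.single_mul_single, mul_inv_cancel]
    norm_num
    rfl

theorem triv_mem {y : K1 (MonoidAlgebra ℤ A)} (hy : y ∈ trivUnits A) :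
    ∃ a : A, IsPM ((dK y).toMul : MonoidAlgebra ℤ A) a := by
  unfold trivUnits at hy
  induction hy using AddSubgroup.closure_induction with
  | mem x hx =>
    obtain ⟨g, rfl | rfl⟩ := hx
    · exact ⟨g, Or.inl (by rw [dK_ofUnit]; rfl)⟩
    · refine ⟨g, Or.inr ?_⟩
      rw [dK_ofUnit, Units.val_neg]
      show -(MonoidAlgebra.single g (1 : ℤ) : MonoidAlgebra ℤ A) = _
      rw [← MonoidAlgebra.single_neg]
  | zero =>
    refine ⟨1, ?_⟩
    rw [map_zero]
    exact pm_one
  | add x y _ _ hx hy =>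
    obtain ⟨a, ha⟩ := hx
    obtain ⟨b, hb⟩ := hy
    refine ⟨a * b, ?_⟩
    rw [map_add, toMul_add, Units.val_mul]
    exact pm_mul ha hb
  | neg x _ hx =>
    obtain ⟨a, ha⟩ := hx
    refine ⟨a⁻¹, ?_⟩
    rw [map_neg, toMul_neg]
    exact pm_inv ha

end Triv

end Pool.Agent.DET.TRIV

namespace Pool.Agent.DET

open Pool.Agent.WhK Matrix

open TRIV in
theorem t_TRIV : s_TRIV := by
  intro G A n _ _ _ _ _ π X hT
  obtain ⟨N, hN, h⟩ := hT A π (Wh.mk (cls X))
  rw [Wh.map_mk, K1.map_cls] at h
  set Y : (Matrix n n (MonoidAlgebra ℤ A))ˣ :=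
    Units.map (ringMap π).mapMatrix.toMonoidHom X with hY
  have h1 : N • cls Y ∈ trivUnits A := by
    rw [← QuotientAddGroup.eq_zero_iff]
    exact h
  obtain ⟨a, ha⟩ := triv_mem h1
  refine ⟨N, a, hN, ?_⟩
  rw [map_nsmul, toMul_nsmul, Units.val_pow_eq_pow_val, dK_cls] at ha
  exact ha

end Pool.Agent.DET
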