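import Pool.Agent.DET.DTB
import Pool.Agent.DET.DAB
import Pool.Agent.DET.DTL
import Pool.Agent.DET.CNV
import Pool.Agent.DET.INDL
import Pool.Agent.DET.CLFA
import Pool.Agent.DET.CLFB
import Pool.Agent.DET.EXPA
import Pool.Agent.DET.FIXS
import Pool.Agent.DET.SHFT
import Pool.Agent.DET.FBLK
import Pool.Agent.DET.CONG
import Pool.Agent.DET.SGN
import Pool.Agent.DET.GFI
import Pool.Agent.DET.HYP
import Pool.Agent.DET.PERM
import Pool.Agent.DET.TPRM
import Pool.Agent.DET.TSUM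
import Pool.Agent.DET.TIND
import Pool.Agent.DET.SOLQ
import Pool.Agent.DET.BRH
import Pool.Agent.DET.BR
import Pool.Agent.DET.ARBA
import Pool.Agent.DET.ARB
import Pool.Agent.DET.TRIV
import Pool.Agent.DET.HIG
import Pool.Agent.DET.RFA
import Pool.Agent.DET.GOOD
import Pool.Agent.DET.FING
import Pool.Agent.DET.FINR

/-!
# The theorem on determinants for groups with torsion images of Whitehead groups
-/

set_option autoImplicit false

namespace Pool.Agent.DET

open Pool.Agent.WhK Matrix FINR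

theorem t_CONG' : s_CONG := t_CONG t_EXPA t_FIXS t_SHFT t_FBLK

theorem t_GOOD' : s_GOOD := t_GOOD t_TRIV t_HIG t_RFA

theorem t_HYP' : s_HYP := t_HYP t_DTL t_INDL t_CLFA t_CLFB t_CONG' t_SGN t_GFI t_GOOD'

theorem t_BRH' : s_BRH := t_BRH t_DTB t_DAB t_CNV t_HYP' t_GFI t_TIND t_GOOD'

theorem t_BR' : s_BR := t_BR t_DTB (t_TPRM t_PERM) (t_TSUM t_DTB) t_SOLQ t_BRH'

theorem t_FING' : s_FING := t_FING t_DTB t_GOOD' (t_ARB t_DTB t_BR' t_ARBA)

/-- the theorem for all groups `G` with `HTF G`, over all reduced rings -/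
theorem det_main (G : Type) [Group G] (hG : HTF G) (m : ℕ)
    (X : (Matrix (Fin m) (Fin m) (MonoidAlgebra ℤ G))ˣ) :
    ∃ (e : ℤˣ) (g : G), ∀ (R : Type) [CommRing R] [IsReduced R] (n : ℕ) (ρ : G →* GL (Fin n) R),
      (blocks ρ X.val).det = ((e : ℤ) : R) ^ n * (ρ g).val.det :=
  t_FINR t_DTB t_FING' G hG m X

end Pool.Agent.DET
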