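import Pool.Agent.SUR.CondN

/-!
# The condition `LocE` passes to groups which inject
-/

set_option autoImplicit false

universe u

namespace Pool.Agent.DET

open Pool.Agent.SUR

namespace LocE

section

variable {Z Z' R : Type*} [Group Z] [Group Z'] [CommRing R]

theorem eu_comp (θ : Z →* Z') (s : Z' → R) (x y w : Z) :
    eu (fun z => s (θ z)) x y w = eu s (θ x) (θ y) (θ w) := by
  unfold eu
  simp only [map_mul, map_inv]

theorem cupE_comp (θ : Z →* Z') (s : Z' → R) :
    ∀ l : List Z, cupE (fun z => s (θ z)) l = cupE s (l.map θ)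
  | [] => rfl
  | [_] => rfl
  | [_, _] => rfl
  | x :: y :: w :: l => by
    have h := cupE_comp θ s (w :: l)
    show eu (fun z => s (θ z)) x y w * cupE (fun z => s (θ z)) (w :: l) =
      eu s (θ x) (θ y) (θ w) * cupE s (θ w :: l.map θ)
    rw [eu_comp, h]
    rfl

theorem eraseIdx_map {α β : Type*} (f : α → β) : ∀ (l : List α) (i : ℕ),
    (l.map f).eraseIdx i = (l.eraseIdx i).map f
  | [], _ => rfl
  | _ :: _, 0 => rfl
  | a :: l, i + 1 => by
    show f a :: (l.map f).eraseIdx i = f a :: (l.eraseIdx i).map f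
    rw [eraseIdx_map f l i]

theorem nilEuler_comp (θ : Z →* Z') {c : Z} {r : ℕ} {v : R} {s : Z' → R} {φ : List Z' → R}
    (h : NilEuler (θ c) r v s φ) :
    NilEuler c r v (fun z => s (θ z)) (fun l => φ (l.map θ)) where
  shift z := by
    show s (θ (c * z)) = s (θ z) + v
    rw [map_mul, h.shift]
  inv w l := by
    show φ ((l.map fun x => w * x).map θ) = φ (l.map θ)
    rw [← h.inv (θ w) (l.map θ), List.map_map, List.map_map]
    congr 2
    funext x
    exact map_mul θ w x
  per l₁ x l₂ := by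
    show φ ((l₁ ++ c * x :: l₂).map θ) = φ ((l₁ ++ x :: l₂).map θ)
    rw [List.map_append, List.map_cons, map_mul, h.per, List.map_append, List.map_cons]
  cob l hl := by
    have h1 := h.cob (l.map θ) (by rw [List.length_map]; exact hl)
    rw [cupE_comp θ s l, ← h1]
    unfold cobL
    rw [List.length_map]
    refine Finset.sum_congr rfl fun i _ => ?_
    show (-1) ^ i * φ ((l.eraseIdx i).map θ) = _
    rw [eraseIdx_map]

end

variable {H G : Type u} [Group H] [Group G]

/-- the homomorphism of the centralisers -/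
def cmap (f : H →* G) (g : H) : Subgroup.centralizer {g} →* Subgroup.centralizer {f g} where
  toFun z := ⟨f z.1, by
    rw [Subgroup.mem_centralizer_singleton_iff]
    have h := Subgroup.mem_centralizer_singleton_iff.1 z.2
    rw [← map_mul, ← map_mul, h]⟩
  map_one' := Subtype.ext (map_one f)
  map_mul' a b := Subtype.ext (map_mul f a.1 b.1)

theorem notFin (f : H →* G) (hf : Function.Injective f) {g : H} (hg : ¬IsOfFinOrder g) :
    ¬IsOfFinOrder (f g) := fun h => hg ((isOfFinOrder_iff_pow_eq_one).2 (by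
  obtain ⟨n, hn, h1⟩ := isOfFinOrder_iff_pow_eq_one.1 h
  exact ⟨n, hn, hf (by rw [map_pow, h1, map_one])⟩))

theorem step (f : H →* G) (g : H) {F : Type u} [Field F] {S : Set F} {n : ℕ}
    (h : (∃ ρ : Subgroup.centralizer {f g} →* Matrix (Fin n) (Fin n) (Subring.closure S),
        ¬IsOfFinOrder (ρ ⟨f g, Subgroup.mem_centralizer_singleton_iff.2 rfl⟩)) ∨
      (CharZero F ∧ ∃ (j : ℕ) (v : Subring.closure S)
        (s : Subgroup.centralizer {f g} → Subring.closure S)
        (φ : List (Subgroup.centralizer {f g}) → Subring.closure S), 0 < j ∧ v ≠ 0 ∧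
        NilEuler ((⟨f g, Subgroup.mem_centralizer_singleton_iff.2 rfl⟩ :
          Subgroup.centralizer {f g}) ^ j) n v s φ)) :
    (∃ ρ : Subgroup.centralizer {g} →* Matrix (Fin n) (Fin n) (Subring.closure S),
        ¬IsOfFinOrder (ρ ⟨g, Subgroup.mem_centralizer_singleton_iff.2 rfl⟩)) ∨
      (CharZero F ∧ ∃ (j : ℕ) (v : Subring.closure S)
        (s : Subgroup.centralizer {g} → Subring.closure S)
        (φ : List (Subgroup.centralizer {g}) → Subring.closure S), 0 < j ∧ v ≠ 0 ∧
        NilEuler ((⟨g, Subgroup.mem_centralizer_singleton_iff.2 rfl⟩ :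
          Subgroup.centralizer {g}) ^ j) n v s φ) := by
  rcases h with ⟨ρ, hρ⟩ | ⟨h0, j, v, s, φ, hj, hv, hN⟩
  · exact Or.inl ⟨ρ.comp (cmap f g), hρ⟩
  · refine Or.inr ⟨h0, j, v, fun z => s (cmap f g z), fun l => φ (l.map (cmap f g)), hj, hv, ?_⟩
    refine nilEuler_comp (cmap f g) ?_
    rw [map_pow]
    exact hN

theorem centEul_of_injective (f : H →* G) (hf : Function.Injective f) (h : CentEul G) :
    CentEul H := by
  obtain ⟨F, _, S, n, hS, hn, h1⟩ := h
  exact ⟨F, inferInstance, S, n, hS, hn, fun g hg => step f g (h1 (f g) (notFin f hf hg))⟩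

theorem centEulN_of_injective (f : H →* G) (hf : Function.Injective f) (h : CentEulN G) :
    CentEulN H := by
  obtain ⟨F, _, S, hS, h1⟩ := h
  refine ⟨F, inferInstance, S, hS, fun g hg => ?_⟩
  obtain ⟨n, hn, h2⟩ := h1 (f g) (notFin f hf hg)
  exact ⟨n, hn, step f g h2⟩

theorem uniqExp_of_injective (f : H →* G) (hf : Function.Injective f) (h : UniqExp G) :
    UniqExp H := by
  obtain ⟨N, hN⟩ := h
  refine ⟨N, fun p hp hNp x y hxy => hf (hN p hp hNp _ _ ?_)⟩
  rw [← map_pow, hxy, map_pow]

end LocE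

/-- the condition `LocE` passes to groups which inject -/
theorem locE_of_injective {H G : Type u} [Group H] [Group G] (f : H →* G)
    (hf : Function.Injective f) (h : Pool.Agent.SUR.LocE G) : Pool.Agent.SUR.LocE H := by
  intro H₀ h₀
  let f₀ : H₀ →* H₀.map f := f.subgroupMap H₀
  have hf₀ : Function.Injective f₀ := by
    intro a b hab
    have h1 : f a.1 = f b.1 := congrArg Subtype.val hab
    exact Subtype.ext (hf h1)
  have h1 : (H₀.map f).FG := by
    rw [Subgroup.FG] at h₀ ⊢
    obtain ⟨S, hS⟩ := h₀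
    classical
    exact ⟨S.image f, by rw [Finset.coe_image, ← MonoidHom.map_closure, hS]⟩
  rcases h _ h1 with h2 | ⟨h2, h3⟩
  · exact Or.inl (LocE.centEul_of_injective f₀ hf₀ h2)
  · exact Or.inr ⟨LocE.uniqExp_of_injective f₀ hf₀ h2, LocE.centEulN_of_injective f₀ hf₀ h3⟩

end Pool.Agent.DET
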