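import Pool.Agent.DET.Final
import Pool.Agent.DET.LocE
import Pool.Agent.SUR.FinalN

/-!
# The theorem on determinants for groups with the condition `LocE`
-/

set_option autoImplicit false

namespace Pool.Agent.DET

open Pool.Agent.WhK Matrix FINR

/-- the Whitehead groups of the finite subgroups are torsion groups -/
def FinTors (G : Type) [Group G] : Prop :=
  ∀ (H : Subgroup G) [Finite H] (z : Wh H), ∃ N : ℕ, 0 < N ∧ N • z = 0

theorem finTors_of_torsionFree (G : Type) [Group G] (hT : ∀ g : G, IsOfFinOrder g → g = 1) :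
    FinTors G := by
  intro H _ z
  have hs : Subsingleton H := ⟨fun a b => by
    have ha : ∀ a : H, a = 1 := fun a => Subtype.ext (hT _
      (MonoidHom.isOfFinOrder H.subtype (isOfFinOrder_of_finite a)))
    rw [ha a, ha b]⟩
  exact Pool.Agent.SUR.Wh_torsion_of_subsingleton H z

theorem finTors_of_injective {H G : Type} [Group H] [Group G] (f : H →* G)
    (hf : Function.Injective f) (h : FinTors G) : FinTors H := by
  intro K _ z
  let e : K ≃* K.map f := K.equivMapOfInjective f hf
  haveI : Finite (K.map f) := Finite.of_equiv K e.toEquiv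
  obtain ⟨N, hN, h1⟩ := h (K.map f) (Wh.map e.toMonoidHom z)
  refine ⟨N, hN, ?_⟩
  have h2 : Wh.map e.symm.toMonoidHom (Wh.map e.toMonoidHom z) = z := by
    rw [Wh.map_comp]
    have h3 : e.symm.toMonoidHom.comp e.toMonoidHom = (MulAut.conj (1 : K)).toMonoidHom := by
      refine MonoidHom.ext fun x => ?_
      show e.symm (e x) = 1 * x * 1⁻¹
      rw [e.symm_apply_apply, one_mul, inv_one, mul_one]
    rw [h3]
    exact Wh.map_conj 1 z
  rw [← h2, ← map_nsmul, h1, map_zero]

theorem htf_of_surj (G : Type) [Group G] (hT : FinTors G)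
    (hS : ∀ (H : Type) [Group H] (i : H →* G), Function.Injective i →
      Pool.Agent.SUR.SurjW H) : HTF G := by
  intro H _ i hi _ Γ _ _ π x
  obtain ⟨n, hn, h1⟩ := hS H i hi Γ π x ⟨1, one_pos, by
    rw [one_smul]
    exact Pool.Agent.SUR.t_FINITE.1 Γ _⟩
  have hK := finTors_of_injective i hi hT
  have h2 : AddSubgroup.closure
      {y | ∃ (K : Subgroup H) (_ : Finite K) (z : Wh K), y = Wh.map (π.comp K.subtype) z} ≤
      sat (⊥ : AddSubgroup (Wh Γ)) := by
    refine (AddSubgroup.closure_le _).2 ?_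
    rintro y ⟨K, hKf, z, rfl⟩
    obtain ⟨N, hN, hz⟩ := hK K z
    exact mem_sat.2 ⟨N, hN, by rw [AddSubgroup.mem_bot, ← map_nsmul, hz, map_zero]⟩
  obtain ⟨N, hN, h3⟩ := mem_sat.1 (h2 h1)
  rw [AddSubgroup.mem_bot] at h3
  exact ⟨N * n, Nat.mul_pos hN hn, by rw [mul_smul]; exact h3⟩

theorem htf_of_locE (G : Type) [Group G] (hT : FinTors G) (h : Pool.Agent.SUR.LocE G) : HTF G :=
  htf_of_surj G hT fun H _ i hi => Pool.Agent.SUR.surjW_N H (locE_of_injective i hi h)

/-- the theorem -/
theorem det_locE (G : Type) [Group G] (hT : FinTors G) (h : Pool.Agent.SUR.LocE G) (m : ℕ)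
    (X : (Matrix (Fin m) (Fin m) (MonoidAlgebra ℤ G))ˣ) :
    ∃ (e : ℤˣ) (g : G), ∀ (R : Type) [CommRing R] [IsReduced R] (n : ℕ) (ρ : G →* GL (Fin n) R),
      (blocks ρ X.val).det = ((e : ℤ) : R) ^ n * (ρ g).val.det :=
  det_main G (htf_of_locE G hT h) m X

end Pool.Agent.DET
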