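import Pool.Agent.SUR.StV
import Pool.Agent.DET.LocE

/-!
# The condition `LocED` passes to groups which inject
-/

set_option autoImplicit false

universe u

namespace Pool.Agent.DET

open Pool.Agent.SUR

namespace LocE

variable {H G : Type u} [Group H] [Group G]

theorem stepD (f : H →* G) (g : H) {F : Type u} [Field F] {S : Set F} {n : ℕ}
    (h : EulD G F S n (f g)) : EulD H F S n g := by
  rcases h with ⟨ρ, d, hd, h1, h2⟩ | ⟨h0, j, v, s, φ, hj, hv, hN⟩
  · exact Or.inl ⟨ρ.comp (cmap f g), d, hd, fun z => h1 (cmap f g z), h2⟩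
  · refine Or.inr ⟨h0, j, v, fun z => s (cmap f g z), fun l => φ (l.map (cmap f g)), hj, hv, ?_⟩
    refine nilEuler_comp (cmap f g) ?_
    rw [map_pow]
    exact hN

theorem centEulD_of_injective (f : H →* G) (hf : Function.Injective f) (h : CentEulD G) :
    CentEulD H := by
  obtain ⟨F, _, S, n, hS, hn, h1⟩ := h
  exact ⟨F, inferInstance, S, n, hS, hn, fun g hg => stepD f g (h1 (f g) (notFin f hf hg))⟩

theorem centEulDN_of_injective (f : H →* G) (hf : Function.Injective f) (h : CentEulDN G) :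
    CentEulDN H := by
  obtain ⟨F, _, S, hS, h1⟩ := h
  refine ⟨F, inferInstance, S, hS, fun g hg => ?_⟩
  obtain ⟨n, hn, h2⟩ := h1 (f g) (notFin f hf hg)
  exact ⟨n, hn, stepD f g h2⟩

end LocE

/-- the condition `LocED` passes to groups which inject -/
theorem locED_of_injective {H G : Type u} [Group H] [Group G] (f : H →* G)
    (hf : Function.Injective f) (h : Pool.Agent.SUR.LocED G) : Pool.Agent.SUR.LocED H := by
  intro H₀ h₀
  let f₀ : H₀ →* H₀.map f := f.subgroupMap H₀
  have hf₀ : Function.Injective f₀ := by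
    intro a b hab
    have h1 : f a.1 = f b.1 := congrArg Subtype.val hab
    exact Subtype.ext (hf h1)
  have h1 : (H₀.map f).FG := by
    rw [Subgroup.FG] at h₀ ⊢
    obtain ⟨S, hS⟩ := h₀
    classical
    exact ⟨S.image f, by rw [Finset.coe_image, ← MonoidHom.map_closure, hS]⟩
  rcases h _ h1 with h2 | ⟨h2, h3⟩
  · exact Or.inl (LocE.centEulD_of_injective f₀ hf₀ h2)
  · exact Or.inr ⟨LocE.uniqExp_of_injective f₀ hf₀ h2, LocE.centEulDN_of_injective f₀ hf₀ h3⟩

end Pool.Agent.DET
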