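import Pool.Agent.DET.Final2
import Pool.Agent.DET.LocED
import Pool.Agent.SUR.FinalV

/-!
# The theorem on determinants for groups with the condition `LocED`
-/

set_option autoImplicit false

namespace Pool.Agent.DET

open Pool.Agent.WhK Matrix FINR

theorem htf_of_locED (G : Type) [Group G] (hT : FinTors G) (h : Pool.Agent.SUR.LocED G) : HTF G :=
  htf_of_surj G hT fun H _ i hi => Pool.Agent.SUR.surjW_D H (locED_of_injective i hi h)

/-- the theorem -/
theorem det_locED (G : Type) [Group G] (hT : FinTors G) (h : Pool.Agent.SUR.LocED G) (m : ℕ)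
    (X : (Matrix (Fin m) (Fin m) (MonoidAlgebra ℤ G))ˣ) :
    ∃ (e : ℤˣ) (g : G), ∀ (R : Type) [CommRing R] [IsReduced R] (n : ℕ) (ρ : G →* GL (Fin n) R),
      (blocks ρ X.val).det = ((e : ℤ) : R) ^ n * (ρ g).val.det :=
  det_main G (htf_of_locED G hT h) m X

end Pool.Agent.DET
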