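import Pool.Agent.DET.Defs

/-!
# Determinants of invertible matrices over group rings: statements of the modules

Theorem D. Let `G` be a torsion free group with `LocCentEul` (more generally with `HTF G`), `X` in
`GL_m(ℤ[G])`. There are one sign `e` and one `g` in `G` such that `det ρ(X) = e ^ n * det ρ(g)`, the
determinant of `ρ(e g)`, for all fields `F`, all `n` and all `ρ : G → GL_n(F)`.

All modules: namespace `Pool.Agent.DET.<MODULE>` for the auxiliary lemmas, the theorem
`Pool.Agent.DET.t_<NAME>` with hypotheses `s_<...>` as named in the doc string, file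
`Pool/Agent/DET/<MODULE>.lean`. Everything is in `Type` (universe 0).
-/

set_option autoImplicit false

namespace Pool.Agent.DET

open Pool.Agent.WhK Matrix

/-! ### Basic properties -/

/-- DTB (80 lines), no hypotheses. Basic properties of `dt`.
(1), (2) `blk n (rh ρ)` is a monoid homomorphism. (3) change of rings: `RingHom.map_det` and
`rh (f ρ) x = (rh ρ x).map f` (`ext_single`). (4) `infl_intertwine` and `Matrix.det_comm'`
(or `Matrix.det_conj_of_mul_eq_one`), `infl_mul`; the hypothesis extends to `ℤ[G]` by `ext_single`.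
(5) `Matrix.det_submatrix_equiv_self`. (6) reindex `n × (ν₁ ⊕ ν₂) ≃ n × ν₁ ⊕ n × ν₂`
(`Equiv.prodSumDistrib`), `Matrix.det_fromBlocks_zero₂₁`; `B` extends additively, but one only needs
that the block `(2,1)` is zero and the diagonal blocks are `rh ρ₁`, `rh ρ₂` (`ext_single` for each).
(7) `blk n (rh ρ)` of the diagonal matrix is block diagonal up to `Prod.swap`: use
`Matrix.det_blockDiagonal` after reindexing with `Equiv.prodComm`. (8) `rh (ρ.comp φ) x = rh ρ (zmap φ x)`
(`ext_single`). (9) `rh` of the character `χ` is, at the only entry, `χ' (zmap of x)` with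
`χ' : ℤ[G^ab] →+* R` the lift of `Abelianization.lift χ`; `RingHom.map_det`; for `χ` with values in the
multiplicative monoid `R` first make it a homomorphism to `Rˣ` (`MonoidHom.toHomUnits`). -/
def s_DTB : Prop :=
  (∀ (G R n ν : Type) [Group G] [CommRing R] [Fintype n] [DecidableEq n] [Fintype ν]
    [DecidableEq ν] (ρ : G →* Matrix ν ν R), dt ρ (1 : Matrix n n (MonoidAlgebra ℤ G)) = 1) ∧
  (∀ (G R n ν : Type) [Group G] [CommRing R] [Fintype n] [DecidableEq n] [Fintype ν]
    [DecidableEq ν] (ρ : G →* Matrix ν ν R) (X Y : Matrix n n (MonoidAlgebra ℤ G)),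
    dt ρ (X * Y) = dt ρ X * dt ρ Y) ∧
  (∀ (G R S n ν : Type) [Group G] [CommRing R] [CommRing S] [Fintype n] [DecidableEq n]
    [Fintype ν] [DecidableEq ν] (f : R →+* S) (ρ : G →* Matrix ν ν R)
    (X : Matrix n n (MonoidAlgebra ℤ G)),
    dt (f.mapMatrix.toMonoidHom.comp ρ) X = f (dt ρ X)) ∧
  (∀ (G R n ν ν' : Type) [Group G] [CommRing R] [Fintype n] [DecidableEq n] [Fintype ν]
    [DecidableEq ν] [Fintype ν'] [DecidableEq ν'] (ρ : G →* Matrix ν ν R)
    (ρ' : G →* Matrix ν' ν' R) (P : Matrix ν' ν R) (P' : Matrix ν ν' R)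
    (X : Matrix n n (MonoidAlgebra ℤ G)), P * P' = 1 → P' * P = 1 →
    (∀ g, P * ρ g = ρ' g * P) → dt ρ X = dt ρ' X) ∧
  (∀ (G R n n' ν : Type) [Group G] [CommRing R] [Fintype n] [DecidableEq n] [Fintype n']
    [DecidableEq n'] [Fintype ν] [DecidableEq ν] (ρ : G →* Matrix ν ν R) (e : n' ≃ n)
    (X : Matrix n n (MonoidAlgebra ℤ G)), dt ρ (X.submatrix e e) = dt ρ X) ∧
  (∀ (G R n ν₁ ν₂ : Type) [Group G] [CommRing R] [Fintype n] [DecidableEq n] [Fintype ν₁]
    [DecidableEq ν₁] [Fintype ν₂] [DecidableEq ν₂] (ρ : G →* Matrix (ν₁ ⊕ ν₂) (ν₁ ⊕ ν₂) R)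
    (ρ₁ : G →* Matrix ν₁ ν₁ R) (ρ₂ : G →* Matrix ν₂ ν₂ R) (B : G → Matrix ν₁ ν₂ R)
    (X : Matrix n n (MonoidAlgebra ℤ G)), (∀ g, ρ g = fromBlocks (ρ₁ g) (B g) 0 (ρ₂ g)) →
    dt ρ X = dt ρ₁ X * dt ρ₂ X) ∧
  (∀ (G R n ν : Type) [Group G] [CommRing R] [Fintype n] [DecidableEq n] [Fintype ν]
    [DecidableEq ν] (ρ : G →* Matrix ν ν R) (i₀ : n) (g : G),
    dt ρ (Matrix.diagonal (Function.update 1 i₀ (MonoidAlgebra.single g (1 : ℤ)))) =
      (ρ g).det) ∧
  (∀ (G H R n ν : Type) [Group G] [Group H] [CommRing R] [Fintype n] [DecidableEq n] [Fintype ν]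
    [DecidableEq ν] (φ : H →* G) (ρ : G →* Matrix ν ν R) (X : Matrix n n (MonoidAlgebra ℤ H)),
    dt (ρ.comp φ) X = dt ρ (X.map (zmap φ))) ∧
  (∀ (G R n : Type) [Group G] [CommRing R] [Fintype n] [DecidableEq n] (χ : G →* R)
    (X : Matrix n n (MonoidAlgebra ℤ G)) (g : G) (e : ℤ),
    dab X = MonoidAlgebra.single (Abelianization.of g) e →
    dt ((Matrix.scalar Unit).toMonoidHom.comp χ) X = (e : R) * χ g)

/-- DAB (40 lines), no hypotheses. Basic properties of `dab` (all `RingHom.map_det`, `Matrix.map_mul`,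
`Matrix.det_submatrix_equiv_self`, `Matrix.det_diagonal`; (5) naturality:
`(Abelianization.map i) ∘ of = of ∘ i`). -/
def s_DAB : Prop :=
  (∀ (G n : Type) [Group G] [Fintype n] [DecidableEq n],
    dab (1 : Matrix n n (MonoidAlgebra ℤ G)) = 1) ∧
  (∀ (G n : Type) [Group G] [Fintype n] [DecidableEq n] (X Y : Matrix n n (MonoidAlgebra ℤ G)),
    dab (X * Y) = dab X * dab Y) ∧
  (∀ (G n n' : Type) [Group G] [Fintype n] [DecidableEq n] [Fintype n'] [DecidableEq n']
    (e : n' ≃ n) (X : Matrix n n (MonoidAlgebra ℤ G)), dab (X.submatrix e e) = dab X) ∧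
  (∀ (G n : Type) [Group G] [Fintype n] [DecidableEq n] (i₀ : n) (g : G),
    dab (Matrix.diagonal (Function.update 1 i₀ (MonoidAlgebra.single g (1 : ℤ))) :
      Matrix n n (MonoidAlgebra ℤ G)) = MonoidAlgebra.single (Abelianization.of g) 1) ∧
  (∀ (G H n : Type) [Group G] [Group H] [Fintype n] [DecidableEq n] (i : H →* G)
    (X : Matrix n n (MonoidAlgebra ℤ H)),
    dab (X.map (zmap i)) = zmap (Abelianization.map i) (dab X))

/-- DTL (80 lines), no hypotheses. Basic properties of `dtL`.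
(1) `actL` of a product is the composition, `LinearMap.det_comp`. (2) an intertwining equivalence:
conjugation by `LinearEquiv.piCongrRight fun _ => e`, `LinearMap.det_conj`; extend `h` to `ℤ[G]` by
`ext_single`. (3) invariant subspaces: the subspace `Submodule.pi Set.univ fun _ => W` of `n → V`
(it is invariant under `actL ρ X`; it is equivalent to `n → W`, and the quotient to `n → V ⧸ W`,
`Submodule.quotientPi`), `LinearMap.det_eq_det_mul_det` (or its name in Mathlib; see also
`LinearMap.det_restrict`, `Submodule.mapQ`), and (2)-like conjugations. (4) `finrank V = 0`: the space is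
trivial. (5) `finrank V = 1`: `ρ g = χ g • id` with `χ g := LinearMap.det (ρ g)`, a homomorphism; `actL ρ X`
is conjugate to `Matrix.toLin'` of `X.map (χ')`, where `χ' : ℤ[G] →+* k` factors through `zmap of`; so
`dtL ρ X` is the image of `dab X` under a ring homomorphism. -/
def s_DTL : Prop :=
  (∀ (G k V n : Type) [Group G] [Field k] [AddCommGroup V] [Module k V] [FiniteDimensional k V]
    [Fintype n] [DecidableEq n] (ρ : G →* Module.End k V) (X Y : Matrix n n (MonoidAlgebra ℤ G)),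
    dtL ρ (X * Y) = dtL ρ X * dtL ρ Y) ∧
  (∀ (G k V V' n : Type) [Group G] [Field k] [AddCommGroup V] [Module k V]
    [FiniteDimensional k V] [AddCommGroup V'] [Module k V'] [FiniteDimensional k V']
    [Fintype n] [DecidableEq n] (ρ : G →* Module.End k V) (ρ' : G →* Module.End k V')
    (e : V ≃ₗ[k] V') (X : Matrix n n (MonoidAlgebra ℤ G)), (∀ g v, e (ρ g v) = ρ' g (e v)) →
    dtL ρ X = dtL ρ' X) ∧
  (∀ (G k V n : Type) [Group G] [Field k] [AddCommGroup V] [Module k V] [FiniteDimensional k V]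
    [Fintype n] [DecidableEq n] (ρ : G →* Module.End k V) (W : Submodule k V)
    (h : ∀ g, W ≤ W.comap (ρ g)) (X : Matrix n n (MonoidAlgebra ℤ G)),
    dtL ρ X = dtL (subRep ρ W h) X * dtL (quoRep ρ W h) X) ∧
  (∀ (G k V n : Type) [Group G] [Field k] [AddCommGroup V] [Module k V] [FiniteDimensional k V]
    [Fintype n] [DecidableEq n] (ρ : G →* Module.End k V) (X : Matrix n n (MonoidAlgebra ℤ G)),
    Module.finrank k V = 0 → dtL ρ X = 1) ∧
  (∀ (G k V n : Type) [Group G] [Field k] [AddCommGroup V] [Module k V] [FiniteDimensional k V]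
    [Fintype n] [DecidableEq n] (ρ : G →* Module.End k V) (X : Matrix n n (MonoidAlgebra ℤ G)),
    Module.finrank k V = 1 → dab X = 1 → dtL ρ X = 1)

/-- the representation on column vectors -/
noncomputable def linRep {G k ν : Type} [Group G] [Field k] [Fintype ν] [DecidableEq ν]
    (ρ : G →* Matrix ν ν k) : G →* Module.End k (ν → k) :=
  (Matrix.toLinAlgEquiv' : Matrix ν ν k ≃ₐ[k] _).toAlgHom.toRingHom.toMonoidHom.comp ρ

/-- CNV (30 lines), no hypotheses. Conjugate `actL` by `(n → ν → k) ≃ₗ (n × ν → k)`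
(`LinearEquiv.curry`); it becomes `Matrix.toLin'` of `blk n (rh ρ) X`; `LinearMap.det_conj`,
`LinearMap.det_toLin'`. The entries: `rhL (linRep ρ) x = Matrix.toLin' (rh ρ x)` by `ext_single`. -/
def s_CNV : Prop :=
  ∀ (G k n ν : Type) [Group G] [Field k] [Fintype n] [DecidableEq n] [Fintype ν]
    [DecidableEq ν] (ρ : G →* Matrix ν ν k) (X : Matrix n n (MonoidAlgebra ℤ G)),
    dtL (linRep ρ) X = dt ρ X

/-! ### Induced representations -/

/-- INDL (60 lines), no hypotheses. Determinants of induced representations.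
Let `Φ f = ∑ x, ρ(x.out) (f x)`, an isomorphism from `G ⧸ M → W` to `V`, and `σ` the representation of `M`
on `W`. Key: for `a` in `ℤ[G]` and `f`, `rhL ρ a (Φ f) = Φ (fun y => ∑ x, rhL σ (Res M a y x) (f x))`;
by `ext_single` it suffices to take `a = g`: by `resEntry_ne`, `resEntry_smul` only `y = g • x` occurs and
`ρ(g) ρ(x.out) w = ρ((g • x).out) ρ((g • x).out⁻¹ * (g * x.out)) w`. Therefore the equivalence
`(n × G ⧸ M → W) ≃ (n → V)`, `v ↦ fun i => Φ (fun x => v (i, x))`, conjugates `actL σ (blk n (Res M) X)`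
into `actL ρ X`; `LinearMap.det_conj`. -/
def s_INDL : Prop :=
  ∀ (G k V n : Type) [Group G] [Field k] [AddCommGroup V] [Module k V] [FiniteDimensional k V]
    [Fintype n] [DecidableEq n] (ρ : G →* Module.End k V) (M : Subgroup G) [Fintype (G ⧸ M)]
    [DecidableEq (G ⧸ M)] (W : Submodule k V) (h : ∀ m : M, W ≤ W.comap ((ρ.comp M.subtype) m)),
    Function.Bijective (fun f : G ⧸ M → W => ∑ x, ρ x.out (f x : V)) →
    ∀ X : Matrix n n (MonoidAlgebra ℤ G),
      dtL ρ X = dtL (subRep (ρ.comp M.subtype) W h) (blk n (Res M) X)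

/-- the data of CLFA: `a` is not scalar, `a ρ(q) = λ_q ρ(q) a^(j_q)` with all `λ_q = 1` or all
`j_q = 1`, and `a` commutes with `ρ(C)`, `C` normal of index a power of `p` -/
structure Cliff {Q k V : Type} [Group Q] [Field k] [AddCommGroup V] [Module k V]
    (ρ : Q →* Module.End k V) (a : Module.End k V) (lam : Q → k) (j : Q → ℕ) (p e : ℕ)
    (C : Subgroup Q) : Prop where
  prime : p.Prime
  normal : C.Normal
  index : C.index = p ^ e
  comm : ∀ c ∈ C, a * ρ c = ρ c * a
  conj : ∀ q, a * ρ q = lam q • (ρ q * a ^ j q)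
  one : (∀ q, lam q = 1) ∨ (∀ q, j q = 1)
  nonscalar : ∀ μ : k, a ≠ μ • 1

/-- CLFA (60 lines), no hypotheses. Let `C` be the normal cyclic subgroup.
Case 1: the generator `c` of `C` acts by a non-scalar (if it acts by a scalar, so do all elements of `C`):
`a = ρ(c)`, `q⁻¹ c q = c^(j q)` with `j q` natural (`c` has finite order), `λ = 1`; `C` is commutative.
Case 2: `C` acts by scalars. `Z = {q | ρ(q) scalar}` is a normal subgroup which contains `C`, `Q ⧸ Z` is a
`p`-group (its order divides the index of `C`), not trivial: otherwise each line is an invariant subspace,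
which is neither `⊥` nor `⊤` as `finrank ≥ 2`. So the centre of `Q ⧸ Z` is not trivial
(`IsPGroup.center_nontrivial`): there is `a₀ ∉ Z` with `q⁻¹ a₀ q a₀⁻¹ ∈ Z` for all `q`; `a = ρ(a₀)`, `j = 1`. -/
def s_CLFA : Prop :=
  ∀ (Q k V : Type) [Group Q] [Finite Q] [Field k] [AddCommGroup V] [Module k V]
    [FiniteDimensional k V] (ρ : Q →* Module.End k V), QE Q → 2 ≤ Module.finrank k V →
    (∀ W : Submodule k V, (∀ q, W ≤ W.comap (ρ q)) → W = ⊥ ∨ W = ⊤) →
    ∃ (a : Module.End k V) (lam : Q → k) (j : Q → ℕ) (p e : ℕ) (C : Subgroup Q),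
      Cliff ρ a lam j p e C

/-- CLFB (120 lines), no hypotheses. Let `E_μ` be the eigenspace of `a` at `μ`
(`Module.End.eigenspace a μ`), `F_q(μ) = λ_q μ^(j_q)`. Then `ρ(q) E_μ ⊆ E_(F_q μ)` (from `conj`), all `F_q`
commute (from `one`). `μ₀`: an eigenvalue (`Module.End.exists_eigenvalue`, `k` algebraically closed). On the
set `Λ` of eigenvalues (`E_μ ≠ ⊥`) `F` is an action: `ρ(q)` is injective, `ρ(q q') E_μ` is not zero and is
contained in `E_(F_(q q') μ)` and in `E_(F_q F_q' μ)`, which meet in `0` if the two numbers are different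
(`Module.End.disjoint_eigenspace` or eigenvalue equation); `F_1 = id` on `Λ`. `I = {q | F_q μ₀ = μ₀}`, a
subgroup; `(q' q)⁻¹ (q q') ∈ I` as `F_q F_q' μ₀ = F_q' F_q μ₀`; normal, as it contains the commutators. `C ≤ I` by `comm`; so the index of
`I` divides `p ^ e` and is `p ^ m` (`Nat.dvd_prime_pow`, `Subgroup.index_dvd_of_le`). `W = E_μ₀` is
invariant under `I`. If `I = ⊤` then `W` is invariant under `Q`, not zero, so `⊤` and `a = μ₀`:
contradiction; so `m > 0`. For `t : ι → Q` with bijective classes: surjective since the range of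
`f ↦ ∑ ρ(t i) (f i)` is invariant under `Q` and not zero; injective since the numbers `F_(t i) μ₀` are
different (`F_(t i) μ₀ = F_(t i') μ₀` gives `(t i')⁻¹ t i ∈ I`) and eigenvectors at different eigenvalues are
independent (`Module.End.eigenspaces_iSupIndep`), and `ρ(t i)` is injective. -/
def s_CLFB : Prop :=
  ∀ (Q k V : Type) [Group Q] [Finite Q] [Field k] [IsAlgClosed k] [AddCommGroup V] [Module k V]
    [FiniteDimensional k V] (ρ : Q →* Module.End k V) (a : Module.End k V) (lam : Q → k)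
    (j : Q → ℕ) (p e : ℕ) (C : Subgroup Q), Nontrivial V →
    (∀ W : Submodule k V, (∀ q, W ≤ W.comap (ρ q)) → W = ⊥ ∨ W = ⊤) →
    Cliff ρ a lam j p e C →
    ∃ (m : ℕ) (I : Subgroup Q) (W : Submodule k V), 0 < m ∧ I.Normal ∧ I.index = p ^ m ∧
      (∀ q q' : Q, (q' * q)⁻¹ * (q * q') ∈ I) ∧ (∀ q ∈ I, W ≤ W.comap (ρ q)) ∧
      ∀ (ι : Type) [Fintype ι] (t : ι → Q), Function.Bijective (fun i => (t i : Q ⧸ I)) →
        Function.Bijective (fun f : ι → W => ∑ i, ρ (t i) (f i : V))

/-! ### The congruence -/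

/-- EXPA (40 lines), no hypotheses. Multilinear expansion of a determinant.
(1) `Matrix.detRowAlternating` (or `Matrix.det_apply` / `MultilinearMap.map_sum`,
`MultilinearMap.map_smul_univ`). (2) is (1) for `P = n × μ`, `A = n × S`, with
`Z i j = ∑ g : S, single g (Z i j g)` (support in `S`). -/
def s_EXPA : Prop :=
  (∀ (P A R : Type) [Fintype P] [DecidableEq P] [Fintype A] [DecidableEq A] [CommRing R]
    (c : P → A → R) (v : P → A → P → R),
    (Matrix.of fun p q => ∑ a, c p a * v p a q).det =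
      ∑ β : P → A, (∏ p, c p (β p)) * (Matrix.of fun p q => v p (β p) q).det) ∧
  (∀ (G R n μ : Type) [Group G] [CommRing R] [Fintype n] [DecidableEq n] [Fintype μ]
    [DecidableEq μ] (θ : MonoidAlgebra ℤ G →+* Matrix μ μ R) (X : Matrix n n (MonoidAlgebra ℤ G))
    (S : Finset G), (∀ i j g, (MonoidAlgebra.coeff (X i j)) g ≠ 0 → g ∈ S) →
    (blk n θ X).det = ∑ β : n × μ → n × S,
      ((∏ p, (MonoidAlgebra.coeff (X p.1 (β p).1)) (β p).2 : ℤ) : R) *
        (Matrix.of fun p q : n × μ =>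
          if q.1 = (β p).1 then θ (MonoidAlgebra.single ((β p).2 : G) 1) p.2 q.2 else 0).det)

open Classical in
/-- FIXS (40 lines), no hypotheses. A sum of an invariant function is the sum over the fixed points
modulo `p`. `∑ f = ∑ v : ZMod p, v * #{a | f a = v}`; each `{a | f a = v}` is an invariant subset, and
`IsPGroup.card_modEq_card_fixedPoints` for the action on it (`SubMulAction` or a direct instance). -/
def s_FIXS : Prop :=
  ∀ (p : ℕ) (P α : Type) [Group P] [Finite P] [Fintype α] [MulAction P α] (f : α → ZMod p),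
    p.Prime → IsPGroup p P → (∀ (g : P) (a : α), f (g • a) = f a) →
    ∑ a, f a = ∑ a ∈ Finset.univ.filter (fun a => ∀ g : P, g • a = a), f a

/-- the restriction matrix of `g` with entries in `ℤ[M^ab]` -/
noncomputable def rab {G : Type} [Group G] (M : Subgroup G) [Fintype (G ⧸ M)]
    [DecidableEq (G ⧸ M)] (x : MonoidAlgebra ℤ G) :
    Matrix (G ⧸ M) (G ⧸ M) (MonoidAlgebra ℤ (Abelianization M)) :=
  (Res M x).map (zmap (Abelianization.of : M →* Abelianization M))

/-- SHFT (50 lines), no hypotheses. `M` normal, `τ` in `G ⧸ M`, `t = τ.out`. `u y` is the class of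
`m_y = t⁻¹ * y.out⁻¹ * (y * τ).out` (in `M`), `α` is induced by `m ↦ t⁻¹ m t` (injective: the inverse is
induced by `m ↦ t m t⁻¹`). `(y τ).out⁻¹ g (x τ).out = m_y⁻¹ (t⁻¹ (y.out⁻¹ g x.out) t) m_x`; both sides are
zero if `y ≠ g • x` (`resEntry_ne`; in the group `G ⧸ M`, `g • x = g * x`). -/
def s_SHFT : Prop :=
  ∀ (G : Type) [Group G] (M : Subgroup G) [M.Normal] [Fintype (G ⧸ M)] [DecidableEq (G ⧸ M)]
    (τ : G ⧸ M), ∃ (α : Abelianization M →* Abelianization M) (u : G ⧸ M → Abelianization M),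
    Function.Injective α ∧ ∀ (g : G) (y x : G ⧸ M),
      rab M (MonoidAlgebra.single g 1) (y * τ) (x * τ) =
        MonoidAlgebra.single (u y)⁻¹ 1 * zmap α (rab M (MonoidAlgebra.single g 1) y x) *
          MonoidAlgebra.single (u x) 1

/-- FBLK (30 lines), no hypotheses. The matrix is `D * (P ⊗ 1)`, `D((i,y),(l,z)) = [i = l] A_i(y,z)`,
`P(l,j) = [j = π l]`: `Matrix.det_blockDiagonal` (after `Equiv.prodComm`) and `Matrix.det_kronecker`. -/
def s_FBLK : Prop :=
  ∀ (n T R : Type) [Fintype n] [DecidableEq n] [Fintype T] [DecidableEq T] [CommRing R]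
    (A : n → Matrix T T R) (π : n → n),
    (Matrix.of fun p q : n × T => if q.1 = π p.1 then A p.1 p.2 q.2 else 0).det =
      (∏ i, (A i).det) * (Matrix.of fun i j : n => if j = π i then (1 : R) else 0).det ^
        Fintype.card T

/-- CONG (150 lines), hypotheses `s_EXPA`, `s_FIXS`, `s_SHFT`, `s_FBLK` (and `s_DAB` if wanted).
`q = p ^ m = |G ⧸ M|`, `c : ℤ[M^ab] → ZMod p` the coefficient at `1` modulo `p`, `V(g) = det rab M g`, a
homomorphism from `G` to the multiplicative monoid of `ℤ[M^ab]`, hence factors through `G^ab`;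
`Λ : ℤ[G^ab] → ZMod p` additive with `Λ(r [g]) = r c(V(g))`. Claim: `c(dab (blk n (Res M) X)) = Λ(dab X)`.
Then `Λ(1) = 1`, and `c(± [a]) ≠ 0` gives `a = 1`. Proof of the claim: EXPA (2) for
`θ = rab M` (a ring homomorphism), `μ = G ⧸ M`, `S` the union of the supports:
`dab (blk n (Res M) X) = ∑_β (∏_p X_(p.1, β₁ p)(β₂ p)) det N_β`, `N_β(p, q) = [q.1 = β₁ p] rab(β₂ p)(p.2, q.2)`.
`G ⧸ M` acts on the `β` by `(τ β)(i, y) = β(i, y τ)`. The coefficient `∏` is invariant (reindex the
product), and with SHFT and `N_β` reindexed by `(i, y) ↦ (i, y τ)`: `det N_β = zmap α (det N_(τ β))`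
(the factors `∏ u(y)⁻¹` and `∏ u(x)` cancel, `Matrix.det_mul_row`, `Matrix.det_mul_column`), and
`c(zmap α w) = c(w)` as `α` is injective. By FIXS only `β` with `β(i, y) = (π i, γ i)` count; for these
the coefficient is `∏_i X_(i, π i)(γ i)^q` and by FBLK `det N_β = ∏ V(γ i) det(P_π)^q`; in `ZMod p`
`x^q = x` (`ZMod.pow_card_pow`), the determinant of `P_π` is an integer; `∏ V(γ i) = V'(∏ [γ i])`. The sum
over `(π, γ)` is `Λ` of the same expansion of `dab X` (EXPA (1) or (2) with `μ = Unit`). -/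
def s_CONG : Prop :=
  ∀ (G n : Type) [Group G] [Fintype n] [DecidableEq n] (p m : ℕ) (M : Subgroup G) [M.Normal]
    [Fintype (G ⧸ M)] [DecidableEq (G ⧸ M)], p.Prime → M.index = p ^ m →
    ∀ (X : Matrix n n (MonoidAlgebra ℤ G)) (a : Abelianization M), dab X = 1 →
      IsPM (dab (blk n (Res M) X)) a → a = 1

/-- SGN (80 lines), no hypotheses. The sign. `B = G ⧸ M` is abelian, `X_B` in `M_n(ℤ[B])` the image of `X`;
`det X_B = 1`, as `ℤ[G] → ℤ[B]` factors through `ℤ[G^ab]`. The augmentation `ℤ[M^ab] → ℤ` maps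
`dab (blk n (Res M) X)` to the determinant of the integral matrix over `n × B` obtained from `X` by the
permutation representation of `G` on `G ⧸ M`, i.e. the regular representation of `ℤ[B]` applied to `X_B`;
this is the norm from `ℤ[B]` to `ℤ` of `det X_B = 1` (`LinearMap.det_restrictScalars`,
`Algebra.norm_eq_matrix_det`, `Mathlib/RingTheory/Norm/Transitivity.lean`; or the determinant of a matrix
of commuting matrices, `Matrix.det_det`), hence `1`. So `dab (blk n (Res M) X) = -1` is impossible. -/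
def s_SGN : Prop :=
  ∀ (G n : Type) [Group G] [Fintype n] [DecidableEq n] (M : Subgroup G) [M.Normal]
    [Fintype (G ⧸ M)] [DecidableEq (G ⧸ M)], (∀ a b : G, (b * a)⁻¹ * (a * b) ∈ M) →
    ∀ X : Matrix n n (MonoidAlgebra ℤ G), dab X = 1 → dab (blk n (Res M) X) ≠ -1

/-! ### Quasi-elementary images -/

/-- GFI (20 lines), no hypotheses. Subgroups of finite index (`Subgroup.fg_of_index_ne_zero`, or
Schreier's lemma in Mathlib) and composition of injections. -/
def s_GFI : Prop :=
  ∀ (G : Type) [Group G] (M : Subgroup G), Group.FG G → HTF G → M.FiniteIndex →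
    Group.FG M ∧ HTF M

/-- HYP (100 lines), hypotheses `s_DTL`, `s_INDL`, `s_CLFA`, `s_CLFB`, `s_CONG`, `s_SGN`, `s_GFI` and
`s_GOOD` (stated below: `∀ (G : Type) [Group G], Group.FG G → TorFin G → Good G`; use it in this form).
Strong induction on `finrank V`, for all `G`, `Q`, `φ`, `n`, `X`. WLOG `φ` surjective (replace `Q` by the
range; subgroups of `QE` groups are `QE`: intersect `C` with the subgroup; the index divides `p ^ m`,
`Subgroup.relIndex_dvd_index_of_normal` or similar). Dimension `0`, `1`: DTL. An invariant subspace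
`W ≠ ⊥, ⊤` of `V` (for `Q`): DTL (3) and induction. Otherwise `ρ` is irreducible of dimension `≥ 2`: CLFA,
CLFB give `I ≤ Q` normal of index `p ^ m`, `m > 0`, `W`. `M = I.comap φ`, normal of index `p ^ m`
(`Subgroup.index_comap_of_surjective`). The classes in `Q ⧸ I` of `φ (x.out)`, `x` in `G ⧸ M`, are
bijective. INDL: `dtL (ρ φ) X = dtL σ (blk n (Res M) X)`, `σ` is the composition of `M → I` (restriction of
`φ`) and the subrepresentation `W` of `I`. `blk n (Res M) X` is invertible (`blkU`), `M` is good (GFI, `hG`;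
`HTF M` and the identity give `TorFin M`), so `dab` of it is `± [a]`, `a = 1` by CONG, the sign is `+` by
SGN; `finrank W <
finrank V` as `finrank V = p ^ m * finrank W`; induction for `M → I`. -/
def s_HYP : Prop :=
  ∀ (G Q k V n : Type) [Group G] [Group Q] [Finite Q] [Field k] [IsAlgClosed k] [AddCommGroup V]
    [Module k V] [FiniteDimensional k V] [Fintype n] [DecidableEq n] (φ : G →* Q)
    (ρ : Q →* Module.End k V) (X : (Matrix n n (MonoidAlgebra ℤ G))ˣ), Group.FG G → HTF G →
    QE Q → dab X.val = 1 → dtL (ρ.comp φ) X.val = 1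

/-! ### Solomon's theorem -/

/-- PERM (100 lines), no hypotheses. Permutation modules with the same character.
Over `ℚ`: `exists_int_intertwiner` gives integral `φ`, `ψ` with `φ ψ = D`, `ψ φ = D`, `D ≠ 0`, so for any
commutative `ℚ`-algebra `K` and any `Z` the matrix `1 ⊗ φ` intertwines the two sums and is invertible:
equal determinants (`Matrix.det_comm'` / `det_conj_of_mul_eq_one`). Then for the generic matrices over
`MvPolynomial (Q × A × A) ℤ` (injective into `MvPolynomial (Q × A × A) ℚ`), then by specialisation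
(`RingHom.map_det`) for all `k` and `Z`. -/
def s_PERM : Prop :=
  ∀ (Q S T A k : Type) [Group Q] [Fintype Q] [Fintype S] [DecidableEq S] [MulAction Q S]
    [Fintype T] [DecidableEq T] [MulAction Q T] [Fintype A] [DecidableEq A] [CommRing k],
    (∀ q, permChar Q S q = permChar Q T q) → ∀ Z : Q → Matrix A A k,
    (∑ q, kroneckerMap (· * ·) (Z q) (pmx S k q)).det =
      (∑ q, kroneckerMap (· * ·) (Z q) (pmx T k q)).det

/-- TPRM (40 lines), hypothesis `s_PERM`. `blk n (rh (tens φ ρ S)) X` is, after reindexing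
`n × (ν × S) ≃ (n × ν) × S`, the sum `∑_q Z_q ⊗ P(q)`, with
`Z_q((i,a),(j,b)) = ∑_(g, φ g = q) X_ij(g) ρ(q)(a,b)` (the same `Z` for `S` and `T`). It may be
easier to define `Z q p p' := F q p p' (X p.1 p'.1)` with additive maps `F q p p' : ℤ[G] →+ R`,
`F q p p' (single g r) = if φ g = q then r * ρ q p.2 p'.2 else 0`, and to use `ext_single`. -/
def s_TPRM : Prop :=
  ∀ (G Q S T R n ν : Type) [Group G] [Group Q] [Fintype Q] [Fintype S] [DecidableEq S]
    [MulAction Q S] [Fintype T] [DecidableEq T] [MulAction Q T] [CommRing R] [Fintype n]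
    [DecidableEq n] [Fintype ν] [DecidableEq ν] (φ : G →* Q) (ρ : Q →* Matrix ν ν R)
    (X : Matrix n n (MonoidAlgebra ℤ G)), (∀ q, permChar Q S q = permChar Q T q) →
    dt (tens φ ρ S) X = dt (tens φ ρ T) X

/-- TSUM (60 lines), hypothesis `s_DTB`. Sums, disjoint unions over a finite type, the point.
(1) conjugation (DTB (4)) by the reindexing matrix of `ν × (S ⊕ T) ≃ ν × S ⊕ ν × T`, then DTB (6) with
`B = 0`; or directly. (2) directly: reindexing `n × (ν × Σ i, S i) ≃ Σ i, (n × (ν × S i))`,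
`Matrix.det_blockDiagonal'`; or induction on `m` from (1) (`Fin.sum_univ_succ`, and
`(Σ i : Fin (m + 1), S i) ≃ S 0 ⊕ Σ i : Fin m, S i.succ` with DTB (4)). (3) reindexing. -/
def s_TSUM : Prop :=
  (∀ (G Q S T R n ν : Type) [Group G] [Group Q] [Fintype S] [DecidableEq S]
    [MulAction Q S] [Fintype T] [DecidableEq T] [MulAction Q T] [CommRing R] [Fintype n]
    [DecidableEq n] [Fintype ν] [DecidableEq ν] (φ : G →* Q) (ρ : Q →* Matrix ν ν R)
    (X : Matrix n n (MonoidAlgebra ℤ G)),
    dt (tens φ ρ (S ⊕ T)) X = dt (tens φ ρ S) X * dt (tens φ ρ T) X) ∧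
  (∀ (G Q R n ν : Type) (m : ℕ) (S : Fin m → Type) [Group G] [Group Q] [∀ i, Fintype (S i)]
    [∀ i, DecidableEq (S i)] [∀ i, MulAction Q (S i)] [CommRing R] [Fintype n]
    [DecidableEq n] [Fintype ν] [DecidableEq ν] (φ : G →* Q) (ρ : Q →* Matrix ν ν R)
    (X : Matrix n n (MonoidAlgebra ℤ G)),
    dt (tens φ ρ (Σ i, S i)) X = ∏ i, dt (tens φ ρ (S i)) X) ∧
  (∀ (G Q R n ν : Type) [Group G] [Group Q] [CommRing R] [Fintype n] [DecidableEq n]
    [Fintype ν] [DecidableEq ν] (φ : G →* Q) (ρ : Q →* Matrix ν ν R)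
    (X : Matrix n n (MonoidAlgebra ℤ G)), dt (tens φ ρ PUnit.{1}) X = dt (ρ.comp φ) X)

/-- TIND (70 lines), no hypotheses. `M = H.comap φ`. `e : G ⧸ M ≃ Q ⧸ H`, `x ↦ φ(x.out) H` (bijective as
`φ` is surjective), `e (g • x) = φ g • e x`. The matrix `P((a, s), (x, b)) = [s = e x] ρ(φ(x.out))(a, b)`
from `(G ⧸ M) × ν` to `ν × (Q ⧸ H)` is invertible and intertwines `ρ φ` induced from `M`,
`x ↦ (blk (G ⧸ M) (rh (ρ φ |_M))) (Res M x)`, with `tens φ ρ (Q ⧸ H)`: both sides at `g` and the entries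
`((a, s), (x, b))`: `[s = e (g • x)] ρ(φ(g x.out))(a, b)`. Then `infl_intertwine` for the two ring
homomorphisms on `ℤ[G]`, `Matrix.det_comm'`, and a reindexing `(n × (G ⧸ M)) × ν ≃ n × ((G ⧸ M) × ν)`
(`Equiv.prodAssoc`), which identifies `blk (n × (G ⧸ M)) (rh _) (blk n (Res M) X)` with `blk n` of the
composite homomorphism `(blk (G ⧸ M) (rh _)) ∘ Res M` (`blk` as a ring homomorphism: additivity is
obvious from the formula). -/
def s_TIND : Prop :=
  ∀ (G Q R n ν : Type) [Group G] [Group Q] [CommRing R] [Fintype n] [DecidableEq n] [Fintype ν]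
    [DecidableEq ν] (φ : G →* Q) (ρ : Q →* Matrix ν ν R) (H : Subgroup Q) [Fintype (Q ⧸ H)]
    [DecidableEq (Q ⧸ H)] [Fintype (G ⧸ H.comap φ)] [DecidableEq (G ⧸ H.comap φ)]
    (X : Matrix n n (MonoidAlgebra ℤ G)), Function.Surjective φ →
    dt (tens φ ρ (Q ⧸ H)) X =
      dt ((ρ.comp φ).comp (H.comap φ).subtype) (blk n (Res (H.comap φ)) X)

/-- SOLQ (50 lines), no hypotheses; import `Pool.Agent.Stark.SOL` (`StarkC.SOL_thm : Stmt_SOL`,
`StarkC.SOL.indFun_eq`, `fxq`). Split the integers `n i` into positive and negative parts, repeating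
`H i` `|n i|` times (index types `Σ i : Fin m, Fin (n i).toNat` transported to `Fin`, or `Finset`/`List`
induction). `permChar Q (Q ⧸ H) q = fxq H q`. -/
def s_SOLQ : Prop :=
  ∀ (Q : Type) [Group Q] [Finite Q], ∃ (a b : ℕ) (H : Fin a → Subgroup Q)
    (K : Fin b → Subgroup Q), (∀ i, QE (H i)) ∧ (∀ i, QE (K i)) ∧
    ∀ [∀ i, Fintype (Q ⧸ H i)] [∀ i, Fintype (Q ⧸ K i)] (q : Q),
      1 + ∑ i, permChar Q (Q ⧸ K i) q = ∑ i, permChar Q (Q ⧸ H i) q

/-- BRH (60 lines), hypotheses `s_DTB`, `s_DAB`, `s_CNV`, `s_HYP`, `s_GFI`, `s_TIND` and `hG` (as in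
HYP). One quasi-elementary subgroup. `M = H.comap φ`, `Y = blk n (Res M) X` (invertible, `blkU`),
`M` is f.g. with `HTF` (GFI), so good: `dab Y = e [g]`, `g ∈ M`, `e = ± 1`. If `n` is empty all is trivial
(`e = g = 1`). Let `D = diagonal(g⁻¹, 1, …, 1)` (`Function.update`, DAB (4), DTB (7)) and, for the sign,
`E = diagonal(e, 1, …, 1)`; it may be easier to use the matrix `diagonal(e g⁻¹, 1, …, 1)`, for which
`dab = e [g⁻¹]` and `dt ρ = e ^ |ν| * det ρ(g⁻¹)` are proved like DAB (4), DTB (7)). `Y' = Y * D * E` is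
invertible and has `dab Y' = 1`, so `dt (ρ φ |_M) Y' = 1` for every `ρ` (HYP for `M → H`, restriction of
`φ`, and `linRep` of `ρ` restricted to `H`, CNV), so `dt (ρ φ |_M) Y = e ^ |ν| * det ρ(φ g)`; TIND. -/
def s_BRH : Prop :=
  ∀ (G Q n : Type) [Group G] [Group Q] [Finite Q] [Fintype n] [DecidableEq n] (φ : G →* Q)
    (H : Subgroup Q) [Fintype (Q ⧸ H)] [DecidableEq (Q ⧸ H)]
    (X : (Matrix n n (MonoidAlgebra ℤ G))ˣ), Function.Surjective φ → Group.FG G → HTF G →
    QE H → ∃ (e : ℤˣ) (g : G), ∀ (k ν : Type) [Field k] [IsAlgClosed k] [Fintype ν]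
      [DecidableEq ν] (ρ : Q →* Matrix ν ν k),
      dt (tens φ ρ (Q ⧸ H)) X.val = ((e : ℤ) : k) ^ Fintype.card ν * (ρ (φ g)).det

/-- BR (80 lines), hypotheses `s_DTB`, `s_TPRM`, `s_TSUM`, `s_SOLQ`, `s_BRH`.
Let `h i`, `k j` be the elements of BRH for the subgroups `H i`, `K j` of SOLQ. For every `ρ`:
`dt (ρ φ) X * ∏ j, dt (tens φ ρ (Q ⧸ K j)) X = ∏ i, dt (tens φ ρ (Q ⧸ H i)) X` by TPRM for the sets
`PUnit ⊕ Σ j, Q ⧸ K j` and `Σ i, Q ⧸ H i` (`permChar_sum`; the permutation characters of a point and of a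
sigma type) and TSUM. So `dt (ρ φ) X = e₁ ^ |ν| * det ρ(φ g₁)`, `g₁ = (∏ k j)⁻¹ ∏ h i` in any order
(`det` is multiplicative; `det ρ(q)` is not zero), `e₁` the product of the signs, for ALL `ρ`, `ν` and `k`.
Apply this also, for the same `k`, to the trivial one dimensional representation: `e₁ = e` in `k` by
DTB (9); and to the one dimensional representation `χ = det ρ`: `e₁ χ(g₁) = e χ(g)` by DTB (9), hence
`det ρ(φ g₁) = det ρ(φ g)`. -/
def s_BR : Prop :=
  ∀ (G Q n : Type) [Group G] [Group Q] [Finite Q] [Fintype n] [DecidableEq n] (φ : G →* Q)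
    (X : (Matrix n n (MonoidAlgebra ℤ G))ˣ) (e : ℤˣ) (g : G), Function.Surjective φ →
    Group.FG G → HTF G → dab X.val = MonoidAlgebra.single (Abelianization.of g) (e : ℤ) →
    ∀ (k ν : Type) [Field k] [IsAlgClosed k] [Fintype ν] [DecidableEq ν]
      (ρ : Q →* Matrix ν ν k),
      dt (ρ.comp φ) X.val = ((e : ℤ) : k) ^ Fintype.card ν * (ρ (φ g)).det

/-! ### Arbitrary fields -/

/-- ARBA (60 lines), no hypotheses. Commutative algebra. (1) `A` is a finitely generated commutative ring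
(`Algebra.FiniteType ℤ A`) and a domain, `c = d` modulo every maximal ideal. `ℤ` is a Jacobson
ring, so `A` is one (`isJacobsonRing_of_finiteType`), the intersection of the maximal ideals is `0`. (2) the residue fields are finite
(`Mathlib/RingTheory/Jacobson/Ring.lean`, `finite_of_finite_type_of_isJacobsonRing` gives that `A ⧸ 𝔪` is a
finite `ℤ`-module; a field which is a finite `ℤ`-module is finite: it is a field of characteristic `p > 0`,
as `ℤ` is not a field, ...; there may be a lemma). (3) the entries of finitely many matrices lie in a f.g.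
subring: `G` f.g., `S` a finite set of generators, closed under inverses, `A` the subring generated by the
entries of the `ρ s`, `s ∈ S`. -/
def s_ARBA : Prop :=
  (∀ (A : Type) [CommRing A] [IsDomain A] (c d : A), Algebra.FiniteType ℤ A →
    (∀ 𝔪 : Ideal A, 𝔪.IsMaximal → c - d ∈ 𝔪) → c = d) ∧
  (∀ (A : Type) [CommRing A] (𝔪 : Ideal A), Algebra.FiniteType ℤ A → 𝔪.IsMaximal →
    Finite (A ⧸ 𝔪)) ∧
  (∀ (G F ν : Type) [Group G] [Field F] [Fintype ν] [DecidableEq ν] (ρ : G →* Matrix ν ν F),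
    Group.FG G → ∃ (A : Subring F) (ρ' : G →* Matrix ν ν A), Algebra.FiniteType ℤ A ∧
      ∀ g, ρ g = (ρ' g).map A.subtype)

/-- ARB (60 lines), hypotheses `s_DTB`, `s_BR`, `s_ARBA`. With `A`, `ρ'` of ARBA (3):
`dt ρ X` is the image of `c = dt ρ' X`, `e ^ |ν| det ρ(g)` the image of `d = e ^ |ν| det ρ'(g)` (DTB (3)). For `𝔪` maximal,
`k` an algebraic closure of `A ⧸ 𝔪`, `f : A → k`: the image of `G` in `GL_ν(A ⧸ 𝔪)` is finite; `Q` = the
quotient of `G` by the kernel of `G → Matrix ν ν (A ⧸ 𝔪)` (a monoid homomorphism to a finite monoid; its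
kernel has finite index), `f ρ'` factors through `Q`; BR: `f c = f d`, so `c - d ∈ 𝔪`. -/
def s_ARB : Prop :=
  ∀ (G n : Type) [Group G] [Fintype n] [DecidableEq n] (X : (Matrix n n (MonoidAlgebra ℤ G))ˣ)
    (e : ℤˣ) (g : G), Group.FG G → HTF G →
    dab X.val = MonoidAlgebra.single (Abelianization.of g) (e : ℤ) →
    ∀ (F ν : Type) [Field F] [Fintype ν] [DecidableEq ν] (ρ : G →* Matrix ν ν F),
      dt ρ X.val = ((e : ℤ) : F) ^ Fintype.card ν * (ρ g).det

/-! ### The abelianisation -/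

/-- TRIV (60 lines), no hypotheses. `A` finite abelian. The class of `X` in `Wh G` has a multiple `N` with
image `0` in `Wh A`: `N [π X]` lies in `trivUnits A`. The determinant defines a homomorphism
`K₁(ℤ[A]) → ℤ[A]ˣ` (`FreeAbelianGroup.lift`, well defined: multiplicative, stable under `stabMat`; the
index type `n` is transported to `Fin`, `cls` in `Lib_helper44/Wh/Cls.lean`), which maps `trivUnits A` into
the group of the `± a`. Look first whether such a homomorphism is already in the library. -/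
def s_TRIV : Prop :=
  ∀ (G A n : Type) [Group G] [CommGroup A] [Finite A] [Fintype n] [DecidableEq n] (π : G →* A)
    (X : (Matrix n n (MonoidAlgebra ℤ G))ˣ), TorFin G →
    ∃ (N : ℕ) (a : A), 0 < N ∧ IsPM ((X.val.map (zmap π)).det ^ N) a

/-- HIG (80 lines), no hypotheses. Higman's theorem. `A` finite abelian, `u ^ N = ± a`; replacing `N` by
`2 N |A|` we have `u ^ N = 1`. Let `*` be the involution `a ↦ a⁻¹` of `ℤ[A]` (a ring homomorphism, `A` is
abelian), `⟨x, y⟩ = ∑_b x(b) y(b)` = the coefficient of `x y*` at `1`, so `⟨x z, y⟩ = ⟨x, y z*⟩`. Let `P = u u*`,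
`P* = P`, `P ^ N = 1`, `w = P - 1`. `∑_(j < N) ⟨w, P^j w⟩ = ⟨w, (∑ P^j) (P - 1)⟩ = 0`, and
`⟨w, P^j w⟩ = ⟨w, u^j u*^j w⟩ = ‖u*^j w‖² ≥ 0` (or with `u`), so for `j = 0`: `w = 0`, `u u* = 1`, and
`∑ u(b)² = 1`: exactly one coefficient of `u` is not zero, and it is `± 1`. -/
def s_HIG : Prop :=
  ∀ (A : Type) [CommGroup A] [Finite A] (u : MonoidAlgebra ℤ A) (N : ℕ) (a : A), 0 < N →
    IsPM (u ^ N) a → ∃ b : A, IsPM u b

/-- RFA (60 lines), no hypotheses. `A` f.g. abelian is residually finite (structure theorem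
`CommGroup.equiv_free_prod_directSum_zmod` or `AddCommGroup.equiv_free_prod_directSum_zmod`): for a finite
set `S` there is a homomorphism `π` to a finite abelian group (in `Type`) which is injective on `S`. For
`S` the support of `u`: `zmap π u = ± b` has the same coefficients as `u`, so `u = ± a`. -/
def s_RFA : Prop :=
  ∀ (A : Type) [CommGroup A] (u : MonoidAlgebra ℤ A), Group.FG A →
    (∀ (B : Type) [CommGroup B] [Finite B] (π : A →* B), ∃ b : B, IsPM (zmap π u) b) →
    ∃ a : A, IsPM u a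

/-- GOOD (30 lines), hypotheses `s_TRIV`, `s_HIG`, `s_RFA`. For `π : G^ab → B`: `zmap π (dab X)` is the
determinant of `X.map (zmap (π ∘ of))`; `G^ab` is f.g.; `Abelianization.of` is surjective. -/
def s_GOOD : Prop := ∀ (G : Type) [Group G], Group.FG G → TorFin G → Good G

/-- FING (30 lines), hypotheses `s_GOOD`, `s_ARB`; the theorem for all groups `G` with `HTF G`, by
`Pool.Agent.SUR.LOC.lift` (`Pool/Agent/SUR/LOC.lean`): `X` comes from a f.g. subgroup `G₀`, which has
`HTF G₀`; take the `g` of `G₀` (GOOD) and restrict `ρ` to `G₀` (DTB (8), hypothesis `s_DTB`). -/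
def s_FING : Prop :=
  ∀ (G : Type) [Group G], HTF G → ∀ (m : ℕ) (X : GLn (MonoidAlgebra ℤ G) m),
    ∃ (e : ℤˣ) (g : G), ∀ (F : Type) [Field F] (n : ℕ) (ρ : G →* Matrix (Fin n) (Fin n) F),
      dt ρ X.val = ((e : ℤ) : F) ^ n * (ρ g).det

end Pool.Agent.DET
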