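import Pool.Agent.DET.St

/-!
# Determinants over group rings: module TSUM, sums of permutation representations
-/

set_option autoImplicit false

namespace Pool.Agent.DET

open Pool.Agent.WhK Matrix

namespace TSUM

section

variable {G R n ν ν' : Type} [Group G] [CommRing R] [Fintype n] [DecidableEq n] [Fintype ν]
  [DecidableEq ν] [Fintype ν'] [DecidableEq ν']

/-- a representation with renamed indices -/
def rei (e : ν ≃ ν') (ρ : G →* Matrix ν ν R) : G →* Matrix ν' ν' R where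
  toFun g := (ρ g).submatrix e.symm e.symm
  map_one' := by rw [map_one, Matrix.submatrix_one_equiv]
  map_mul' a b := by rw [map_mul, Matrix.submatrix_mul_equiv]

theorem dt_rei (h : s_DTB) (e : ν ≃ ν') (ρ : G →* Matrix ν ν R) (ρ' : G →* Matrix ν' ν' R)
    (hρ : ∀ g, ρ' g = (ρ g).submatrix e.symm e.symm) (X : Matrix n n (MonoidAlgebra ℤ G)) :
    dt ρ X = dt ρ' X := by
  refine h.2.2.2.1 G R n ν ν' ρ ρ' ((1 : Matrix ν ν R).submatrix e.symm (Equiv.refl ν))
    ((1 : Matrix ν ν R).submatrix (Equiv.refl ν) e.symm) X ?_ ?_ ?_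
  · rw [Matrix.submatrix_mul_equiv, one_mul, Matrix.submatrix_one_equiv]
  · have h1 := Matrix.submatrix_mul_equiv (1 : Matrix ν ν R) (1 : Matrix ν ν R)
      (Equiv.refl ν) e.symm (Equiv.refl ν)
    rw [h1, one_mul, Matrix.submatrix_one_equiv]
  · intro g
    rw [hρ g]
    have h1 := Matrix.submatrix_mul_equiv (ρ g) (1 : Matrix ν ν R)
      e.symm e.symm (Equiv.refl ν)
    rw [h1, mul_one]
    have h2 := Matrix.submatrix_mul_equiv (1 : Matrix ν ν R) (ρ g)
      e.symm (Equiv.refl ν) (Equiv.refl ν)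
    rw [one_mul] at h2
    have h3 : (ρ g).submatrix (Equiv.refl ν) (Equiv.refl ν) = ρ g := by
      ext i j
      rfl
    rw [h3] at h2
    exact h2

theorem rh_single (ρ : G →* Matrix ν ν R) (g : G) (r : ℤ) :
    rh ρ (MonoidAlgebra.single g r) = r • ρ g := by
  unfold rh
  exact MonoidAlgebra.lift_single ρ g r

end

section

variable {G Q R n ν : Type} [Group G] [Group Q] [CommRing R] [Fintype n] [DecidableEq n]
  [Fintype ν] [DecidableEq ν] (φ : G →* Q) (ρ : Q →* Matrix ν ν R)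

theorem tens_apply (S : Type) [Fintype S] [DecidableEq S] [MulAction Q S] (g : G) (a b : ν)
    (s s' : S) : tens φ ρ S g (a, s) (b, s') =
      ρ (φ g) a b * if s = φ g • s' then 1 else 0 := rfl

theorem one (h : s_DTB) (S T : Type) [Fintype S] [DecidableEq S]
    [MulAction Q S] [Fintype T] [DecidableEq T] [MulAction Q T]
    (X : Matrix n n (MonoidAlgebra ℤ G)) :
    dt (tens φ ρ (S ⊕ T)) X = dt (tens φ ρ S) X * dt (tens φ ρ T) X := by
  rw [dt_rei h (Equiv.prodSumDistrib ν S T) (tens φ ρ (S ⊕ T))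
    (rei (Equiv.prodSumDistrib ν S T) (tens φ ρ (S ⊕ T))) (fun g => rfl) X]
  refine h.2.2.2.2.2.1 G R n (ν × S) (ν × T) _ (tens φ ρ S) (tens φ ρ T) (fun _ => 0) X ?_
  intro g
  ext (⟨a, s⟩ | ⟨a, s⟩) (⟨b, s'⟩ | ⟨b, s'⟩)
  · show tens φ ρ (S ⊕ T) g (a, Sum.inl s) (b, Sum.inl s') = tens φ ρ S g (a, s) (b, s')
    rw [tens_apply, tens_apply]
    congr 1
    by_cases h1 : s = φ g • s'
    · rw [if_pos h1, if_pos]
      rw [h1]
      rfl
    · rw [if_neg h1, if_neg]
      intro h2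
      exact h1 (Sum.inl_injective h2)
  · show tens φ ρ (S ⊕ T) g (a, Sum.inl s) (b, Sum.inr s') = 0
    rw [tens_apply, if_neg, mul_zero]
    intro h2
    exact absurd h2 (by rintro ⟨⟩)
  · show tens φ ρ (S ⊕ T) g (a, Sum.inr s) (b, Sum.inl s') = 0
    rw [tens_apply, if_neg, mul_zero]
    intro h2
    exact absurd h2 (by rintro ⟨⟩)
  · show tens φ ρ (S ⊕ T) g (a, Sum.inr s) (b, Sum.inr s') = tens φ ρ T g (a, s) (b, s')
    rw [tens_apply, tens_apply]
    congr 1
    by_cases h1 : s = φ g • s'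
    · rw [if_pos h1, if_pos]
      rw [h1]
      rfl
    · rw [if_neg h1, if_neg]
      intro h2
      exact h1 (Sum.inr_injective h2)

theorem three (h : s_DTB) (X : Matrix n n (MonoidAlgebra ℤ G)) :
    dt (tens φ ρ PUnit.{1}) X = dt (ρ.comp φ) X := by
  refine dt_rei h (Equiv.prodPUnit ν) _ _ (fun g => ?_) X
  ext a b
  show ρ (φ g) a b = tens φ ρ PUnit g (a, PUnit.unit) (b, PUnit.unit)
  rw [tens_apply, if_pos rfl, mul_one]

variable {m : ℕ} (S : Fin m → Type) [∀ i, Fintype (S i)] [∀ i, DecidableEq (S i)]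
  [∀ i, MulAction Q (S i)]

theorem rh_sigma (x : MonoidAlgebra ℤ G) (l : Fin m) (s : S l) (l' : Fin m) (s' : S l')
    (a b : ν) : rh (tens φ ρ (Σ i, S i)) x (a, ⟨l, s⟩) (b, ⟨l', s'⟩) =
      blockDiagonal' (fun i => rh (tens φ ρ (S i)) x) ⟨l, (a, s)⟩ ⟨l', (b, s')⟩ := by
  induction x using MonoidAlgebra.induction_linear with
  | zero =>
    have e : (fun i => rh (tens φ ρ (S i)) 0) = 0 := by
      funext i
      exact map_zero _
    rw [map_zero, e, blockDiagonal'_zero]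
    rfl
  | add x y hx hy =>
    have e : (fun i => rh (tens φ ρ (S i)) (x + y)) =
        (fun i => rh (tens φ ρ (S i)) x) + (fun i => rh (tens φ ρ (S i)) y) := by
      funext i
      exact map_add _ _ _
    rw [map_add, e, blockDiagonal'_add, Matrix.add_apply, Matrix.add_apply, hx, hy]
  | single g r =>
    rw [rh_single, Matrix.smul_apply, tens_apply]
    by_cases hl : l = l'
    · subst hl
      rw [blockDiagonal'_apply_eq, rh_single, Matrix.smul_apply, tens_apply]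
      congr 2
      by_cases h1 : s = φ g • s'
      · rw [if_pos h1, if_pos]
        rw [h1]
        rfl
      · rw [if_neg h1, if_neg]
        intro h2
        exact h1 (sigma_mk_injective h2)
    · rw [blockDiagonal'_apply_ne _ _ _ hl, if_neg, mul_zero, smul_zero]
      intro h2
      exact hl (congrArg Sigma.fst h2)

/-- the elements of one summand -/
def fib {m : ℕ} (B : Fin m → Type) (k : Fin m) : {a : Σ i, B i // a.1 = k} ≃ B k where
  toFun a := a.2 ▸ a.1.2
  invFun x := ⟨⟨k, x⟩, rfl⟩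
  left_inv := by
    rintro ⟨⟨i, x⟩, rfl⟩
    rfl
  right_inv _ := rfl

theorem det_bd {m : ℕ} (B : Fin m → Type) [∀ i, Fintype (B i)] [∀ i, DecidableEq (B i)]
    (d : ∀ i, Matrix (B i) (B i) R) : (blockDiagonal' d).det = ∏ i, (d i).det := by
  rw [BlockTriangular.det_fintype (blockTriangular_blockDiagonal' d)]
  refine Finset.prod_congr rfl fun k _ => ?_
  rw [← det_submatrix_equiv_self (fib B k) (d k)]
  congr 1
  ext ⟨⟨i, x⟩, hi⟩ ⟨⟨j, y⟩, hj⟩
  have hi' : i = k := hi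
  have hj' : j = k := hj
  subst hi'
  subst hj'
  show blockDiagonal' d ⟨_, x⟩ ⟨_, y⟩ = d _ x y
  rw [blockDiagonal'_apply_eq]

/-- the reindexing -/
def eq2 (n ν : Type) {m : ℕ} (S : Fin m → Type) :
    n × (ν × Σ i, S i) ≃ Σ i, (n × (ν × S i)) where
  toFun p := ⟨p.2.2.1, (p.1, (p.2.1, p.2.2.2))⟩
  invFun p := (p.2.1, (p.2.2.1, ⟨p.1, p.2.2.2⟩))
  left_inv _ := rfl
  right_inv _ := rfl

theorem two (X : Matrix n n (MonoidAlgebra ℤ G)) :
    dt (tens φ ρ (Σ i, S i)) X = ∏ i, dt (tens φ ρ (S i)) X := by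
  have e : blk n (rh (tens φ ρ (Σ i, S i))) X =
      (blockDiagonal' (fun i => blk n (rh (tens φ ρ (S i))) X)).submatrix (eq2 n ν S)
        (eq2 n ν S) := by
    ext ⟨i, a, l, s⟩ ⟨j, b, l', s'⟩
    show rh (tens φ ρ (Σ i, S i)) (X i j) (a, ⟨l, s⟩) (b, ⟨l', s'⟩) =
      blockDiagonal' (fun i => blk n (rh (tens φ ρ (S i))) X) ⟨l, (i, (a, s))⟩ ⟨l', (j, (b, s'))⟩
    rw [rh_sigma]
    by_cases hl : l = l'
    · subst hl
      rw [blockDiagonal'_apply_eq, blockDiagonal'_apply_eq]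
      rfl
    · rw [blockDiagonal'_apply_ne _ _ _ hl, blockDiagonal'_apply_ne _ _ _ hl]
  unfold dt
  rw [e, det_submatrix_equiv_self, det_bd]

end

end TSUM

theorem t_TSUM (h : s_DTB) : s_TSUM :=
  ⟨fun _ _ S T _ _ _ _ _ _ _ _ _ _ _ _ _ _ _ _ φ ρ X => TSUM.one φ ρ h S T X,
    fun _ _ _ _ _ _ S _ _ _ _ _ _ _ _ _ _ φ ρ X => TSUM.two φ ρ S X,
    fun _ _ _ _ _ _ _ _ _ _ _ _ φ ρ X => TSUM.three φ ρ h X⟩

end Pool.Agent.DET
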