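import Pool.Agent.DET.XTOR

/-!
# Determinants over arbitrary fields, for one matrix
-/

set_option autoImplicit false

namespace Pool.Agent.DET

open Pool.Agent.WhK Matrix

namespace XARB

/-- the statement for finite images -/
def s_XBR : Prop :=
  ∀ (G Q n : Type) [Group G] [Group Q] [Finite Q] [Fintype n] [DecidableEq n] (φ : G →* Q)
      (X : (Matrix n n (MonoidAlgebra ℤ G))ˣ) (e : ℤˣ) (g : G), Function.Surjective φ →
      Group.FG G → TX X → dab X.val = MonoidAlgebra.single (Abelianization.of g) (e : ℤ) →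
      ∀ (k ν : Type) [Field k] [IsAlgClosed k] [Fintype ν] [DecidableEq ν]
        (ρ : Q →* Matrix ν ν k),
        dt (ρ.comp φ) X.val = ((e : ℤ) : k) ^ Fintype.card ν * (ρ (φ g)).det

/-- the residue field argument for one maximal ideal -/
theorem mem_max (hD : s_DTB) (hB : s_XBR) (G n : Type) [Group G] [Fintype n] [DecidableEq n]
    (X : (Matrix n n (MonoidAlgebra ℤ G))ˣ) (e : ℤˣ) (g : G) (hFG : Group.FG G) (hH : TX X)
    (hP : dab X.val = MonoidAlgebra.single (Abelianization.of g) (e : ℤ)) (A ν : Type) [CommRing A] [Fintype ν]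
    [DecidableEq ν] (ρ' : G →* Matrix ν ν A) (𝔪 : Ideal A) (hm : 𝔪.IsMaximal)
    (hfin : Finite (A ⧸ 𝔪)) :
    dt ρ' X.val - ((e : ℤ) : A) ^ Fintype.card ν * (ρ' g).det ∈ 𝔪 := by
  letI : Field (A ⧸ 𝔪) := Ideal.Quotient.field 𝔪
  let f0 : A →+* A ⧸ 𝔪 := Ideal.Quotient.mk 𝔪
  let f1 : A ⧸ 𝔪 →+* AlgebraicClosure (A ⧸ 𝔪) := algebraMap _ _
  let f : A →+* AlgebraicClosure (A ⧸ 𝔪) := f1.comp f0
  let θ : G →* (Matrix ν ν (A ⧸ 𝔪))ˣ := (f0.mapMatrix.toMonoidHom.comp ρ').toHomUnits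
  haveI : Finite (Matrix ν ν (A ⧸ 𝔪)) := inferInstanceAs (Finite (ν → ν → A ⧸ 𝔪))
  haveI : Finite (Matrix ν ν (A ⧸ 𝔪))ˣ := Finite.of_injective _ Units.val_injective
  let φ : G →* θ.range := θ.rangeRestrict
  let ρQ : θ.range →* Matrix ν ν (AlgebraicClosure (A ⧸ 𝔪)) :=
    (f1.mapMatrix.toMonoidHom).comp ((Units.coeHom _).comp θ.range.subtype)
  have hcomp : ρQ.comp φ = f.mapMatrix.toMonoidHom.comp ρ' := by
    ext x i j
    rfl
  have h1 := hB G θ.range n φ X e g θ.rangeRestrict_surjective hFG hH hP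
    (AlgebraicClosure (A ⧸ 𝔪)) ν ρQ
  have h2 : dt (ρQ.comp φ) X.val = f (dt ρ' X.val) := by
    rw [hcomp]
    exact hD.2.2.1 G A (AlgebraicClosure (A ⧸ 𝔪)) n ν f ρ' X.val
  have h3 : (ρQ (φ g)).det = f (ρ' g).det := by
    have h4 : ρQ (φ g) = f.mapMatrix (ρ' g) := DFunLike.congr_fun hcomp g
    rw [h4, RingHom.map_det]
  rw [h2, h3] at h1
  have h5 : f (dt ρ' X.val - ((e : ℤ) : A) ^ Fintype.card ν * (ρ' g).det) = 0 := by
    rw [map_sub, map_mul, map_pow, map_intCast, h1, sub_self]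
  have h6 : f0 (dt ρ' X.val - ((e : ℤ) : A) ^ Fintype.card ν * (ρ' g).det) = 0 :=
    f1.injective (h5.trans (map_zero f1).symm)
  exact Ideal.Quotient.eq_zero_iff_mem.1 h6

end XARB

theorem t_XARB (hD : s_DTB) (hB : XARB.s_XBR) (hA : s_ARBA)
    (G n : Type) [Group G] [Fintype n] [DecidableEq n] (X : (Matrix n n (MonoidAlgebra ℤ G))ˣ)
    (e : ℤˣ) (g : G) (hFG : Group.FG G) (hH : TX X)
    (hP : dab X.val = MonoidAlgebra.single (Abelianization.of g) (e : ℤ))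
    (F ν : Type) [Field F] [Fintype ν] [DecidableEq ν] (ρ : G →* Matrix ν ν F) :
    dt ρ X.val = ((e : ℤ) : F) ^ Fintype.card ν * (ρ g).det := by
  obtain ⟨A, ρ', hfin, hρ⟩ := hA.2.2 G F ν ρ hFG
  have hcomp : A.subtype.mapMatrix.toMonoidHom.comp ρ' = ρ := by
    ext x i j
    rw [hρ x]
    rfl
  have hc : A.subtype (dt ρ' X.val) = dt ρ X.val := by
    rw [← hD.2.2.1 G A F n ν A.subtype ρ' X.val, hcomp]
  have hd : A.subtype (ρ' g).det = (ρ g).det := by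
    rw [RingHom.map_det]
    congr 1
    exact (hρ g).symm
  rw [← hc, ← hd]
  have h := hA.1 A (dt ρ' X.val) (((e : ℤ) : A) ^ Fintype.card ν * (ρ' g).det) hfin (fun 𝔪 hm =>
    XARB.mem_max hD hB G n X e g hFG hH hP A ν ρ' 𝔪 hm (hA.2.1 A 𝔪 hfin hm))
  rw [h, map_mul, map_pow, map_intCast]

end Pool.Agent.DET
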