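import Pool.Agent.DET.TRIV
import Pool.Agent.DET.BRH

/-!
# Matrices whose classes have torsion images in the `K₁` of the finite quotients
-/

set_option autoImplicit false

namespace Pool.Agent.DET

open Pool.Agent.WhK Matrix

/-- the images of the class of `X` in `K₁(ℤ[Γ])`, `Γ` finite, are torsion -/
def TX {G n : Type} [Group G] [Fintype n] [DecidableEq n]
    (X : (Matrix n n (MonoidAlgebra ℤ G))ˣ) : Prop :=
  ∀ (Γ : Type) [Group Γ] [Finite Γ] (π : G →* Γ),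
    ∃ N : ℕ, 0 < N ∧ N • K1.map (ringMap π) (cls X) = 0

namespace XTOR

/-- the group elements as units -/
noncomputable def gH (Γ : Type) [Group Γ] : Γ →* (MonoidAlgebra ℤ Γ)ˣ :=
  (MonoidAlgebra.of ℤ Γ).toHomUnits

theorem triv_le (Γ : Type) [Group Γ] [Finite Γ] :
    trivUnits Γ ≤ AddCommGroup.torsion (K1 (MonoidAlgebra ℤ Γ)) := by
  unfold trivUnits
  rw [AddSubgroup.closure_le]
  have hg : ∀ g : Γ, IsOfFinOrder (gUnit g) := by
    intro g
    have e : gUnit g = gH Γ g := Units.ext rfl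
    rw [e]
    exact MonoidHom.isOfFinOrder (gH Γ) (isOfFinOrder_of_finite g)
  have hg' : ∀ g : Γ, IsOfFinOrder (-gUnit g) := by
    intro g
    obtain ⟨k, hk, h⟩ := isOfFinOrder_iff_pow_eq_one.1 (hg g)
    refine isOfFinOrder_iff_pow_eq_one.2 ⟨2 * k, by omega, ?_⟩
    rw [pow_mul, neg_sq, ← pow_mul, mul_comm 2 k, pow_mul, h, one_pow]
  have hu : ∀ u : (MonoidAlgebra ℤ Γ)ˣ, IsOfFinOrder u →
      K1.ofUnit u ∈ AddCommGroup.torsion (K1 (MonoidAlgebra ℤ Γ)) := by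
    intro u hu
    obtain ⟨k, hk, h⟩ := isOfFinOrder_iff_pow_eq_one.1 hu
    have h1 : k • K1.ofUnit u = 0 := by
      have h2 : K1.unitHom _ (u ^ k) = 1 := by rw [h, map_one]
      rw [map_pow] at h2
      exact congrArg Multiplicative.toAdd h2
    exact isOfFinAddOrder_iff_nsmul_eq_zero.2 ⟨k, hk, h1⟩
  rintro x ⟨g, rfl | rfl⟩
  · exact hu _ (hg g)
  · exact hu _ (hg' g)

theorem triv_tors {Γ : Type} [Group Γ] [Finite Γ] {y : K1 (MonoidAlgebra ℤ Γ)}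
    (hy : y ∈ trivUnits Γ) : ∃ N : ℕ, 0 < N ∧ N • y = 0 :=
  isOfFinAddOrder_iff_nsmul_eq_zero.1 (triv_le Γ hy)

variable {G n : Type} [Group G] [Fintype n] [DecidableEq n]

theorem tx_of_wh {X : (Matrix n n (MonoidAlgebra ℤ G))ˣ}
    (h : ∀ (Γ : Type) [Group Γ] [Finite Γ] (π : G →* Γ),
      ∃ N : ℕ, 0 < N ∧ N • Wh.map π (Wh.mk (cls X)) = 0) : TX X := by
  intro Γ _ _ π
  obtain ⟨N, hN, h1⟩ := h Γ π
  rw [Wh.map_mk] at h1
  have h2 : N • K1.map (ringMap π) (cls X) ∈ trivUnits Γ := by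
    rw [← QuotientAddGroup.eq_zero_iff]
    exact h1
  obtain ⟨k, hk, h3⟩ := triv_tors h2
  exact ⟨k * N, Nat.mul_pos hk hN, by rw [mul_smul]; exact h3⟩

theorem tx_mul {X Y : (Matrix n n (MonoidAlgebra ℤ G))ˣ} (hX : TX X) (hY : TX Y) :
    TX (X * Y) := by
  intro Γ _ _ π
  obtain ⟨N, hN, h1⟩ := hX Γ π
  obtain ⟨k, hk, h2⟩ := hY Γ π
  refine ⟨N * k, Nat.mul_pos hN hk, ?_⟩
  rw [cls_mul, map_add, smul_add, mul_smul N k (K1.map (ringMap π) (cls Y)), h2, smul_zero,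
    add_zero, mul_comm, mul_smul, h1, smul_zero]

theorem tx_of_fin {X : (Matrix n n (MonoidAlgebra ℤ G))ˣ}
    (h : ∀ (Γ : Type) [Group Γ] [Finite Γ] (π : G →* Γ),
      IsOfFinOrder (Units.map (ringMap π).mapMatrix.toMonoidHom X :
        (Matrix n n (MonoidAlgebra ℤ Γ))ˣ)) : TX X := by
  intro Γ _ _ π
  obtain ⟨k, hk, h1⟩ := isOfFinOrder_iff_pow_eq_one.1 (h Γ π)
  refine ⟨k, hk, ?_⟩
  rw [K1.map_cls, ← cls_pow, h1, cls_one]

theorem tx_one : TX (1 : (Matrix n n (MonoidAlgebra ℤ G))ˣ) :=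
  tx_of_fin fun Γ _ _ π => by
    rw [map_one]
    exact IsOfFinOrder.one

/-- the homomorphism `u ↦ diagonal(1, …, u, …, 1)` -/
noncomputable def dH {R : Type} [Ring R] (i₀ : n) : Rˣ →* (Matrix n n R)ˣ :=
  Units.map ((Matrix.diagonalRingHom n R : (n → R) →+* Matrix n n R).toMonoidHom.comp
    (MonoidHom.mulSingle (fun _ : n => R) i₀))

theorem dU_eq {R : Type} [Ring R] (i₀ : n) (u : Rˣ) : BRH.dU i₀ u = dH i₀ u := rfl

theorem map_dH {R S : Type} [Ring R] [Ring S] (f : R →+* S) (i₀ : n) (u : Rˣ) :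
    Units.map f.mapMatrix.toMonoidHom (dH i₀ u) = dH i₀ (Units.map f.toMonoidHom u) := by
  refine Units.ext ?_
  show (Matrix.diagonal (Function.update 1 i₀ u.val)).map f =
    Matrix.diagonal (Function.update 1 i₀ (f u.val))
  rw [Matrix.diagonal_map (map_zero f)]
  congr 1
  funext j
  by_cases hj : j = i₀
  · subst hj
    simp
  · simp [Function.update_of_ne hj]

theorem tx_g (i₀ : n) (g : G) : TX (BRH.dU i₀ (BRH.gU g)) :=
  tx_of_fin fun Γ _ _ π => by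
    have e : Units.map (ringMap π).toMonoidHom (BRH.gU g) = gH Γ (π g) :=
      Units.ext (ringMap_single π g 1)
    rw [dU_eq, map_dH, e]
    exact MonoidHom.isOfFinOrder ((dH i₀).comp (gH Γ)) (isOfFinOrder_of_finite (π g))

theorem tx_neg (i₀ : n) : TX (BRH.dU i₀ (-1 : (MonoidAlgebra ℤ G)ˣ)) :=
  tx_of_fin fun Γ _ _ π => by
    rw [dU_eq]
    refine isOfFinOrder_iff_pow_eq_one.2 ⟨2, two_pos, ?_⟩
    rw [← map_pow, ← map_pow, neg_one_sq, map_one, map_one]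

end XTOR

end Pool.Agent.DET
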