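import Pool.Agent.DET.BR
import Pool.Agent.DET.XTOR

/-! # Determinants for finite images, for one matrix -/

set_option autoImplicit false

namespace Pool.Agent.DET

open Pool.Agent.WhK Matrix

/-- finite images, for one matrix -/
theorem t_XBR (h1 : s_DTB) (h2 : s_TPRM) (h3 : s_TSUM) (h4 : s_SOLQ)
    (h5 : ∀ (G Q n : Type) [Group G] [Group Q] [Finite Q] [Fintype n] [DecidableEq n]
      (φ : G →* Q) (H : Subgroup Q) [Fintype (Q ⧸ H)] [DecidableEq (Q ⧸ H)]
      (X : (Matrix n n (MonoidAlgebra ℤ G))ˣ), Function.Surjective φ → Group.FG G → TX X →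
      QE H → ∃ (e : ℤˣ) (g : G), ∀ (k ν : Type) [Field k] [IsAlgClosed k] [Fintype ν]
        [DecidableEq ν] (ρ : Q →* Matrix ν ν k),
        dt (tens φ ρ (Q ⧸ H)) X.val = ((e : ℤ) : k) ^ Fintype.card ν * (ρ (φ g)).det) :
    ∀ (G Q n : Type) [Group G] [Group Q] [Finite Q] [Fintype n] [DecidableEq n] (φ : G →* Q)
      (X : (Matrix n n (MonoidAlgebra ℤ G))ˣ) (e : ℤˣ) (g : G), Function.Surjective φ →
      Group.FG G → TX X → dab X.val = MonoidAlgebra.single (Abelianization.of g) (e : ℤ) →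
      ∀ (k ν : Type) [Field k] [IsAlgClosed k] [Fintype ν] [DecidableEq ν]
        (ρ : Q →* Matrix ν ν k),
        dt (ρ.comp φ) X.val = ((e : ℤ) : k) ^ Fintype.card ν * (ρ (φ g)).det := by
  classical
  intro G Q n _ _ _ _ _ φ X e g hφ hFG hHTF hdab k ν _ _ _ _ ρ
  have := Fintype.ofFinite Q
  obtain ⟨a, b, H, K, hH, hK, hc⟩ := h4 Q
  have i1 : ∀ i, Fintype (Q ⧸ H i) := fun i => Fintype.ofFinite _
  have i2 : ∀ i, Fintype (Q ⧸ K i) := fun i => Fintype.ofFinite _
  have hBH := fun i => h5 G Q n φ (H i) X hφ hFG hHTF (hH i)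
  have hBK := fun i => h5 G Q n φ (K i) X hφ hFG hHTF (hK i)
  choose eH gH hHH using hBH
  choose eK gK hKK using hBK
  -- the formula for all representations
  have key : ∀ (μ : Type) [Fintype μ] [DecidableEq μ] (σ : Q →* Matrix μ μ k),
      dt (σ.comp φ) X.val *
        (((∏ j, (((eK j : ℤˣ) : ℤ) : k)) ^ Fintype.card μ) * ∏ j, (σ (φ (gK j))).det) =
        ((∏ i, (((eH i : ℤˣ) : ℤ) : k)) ^ Fintype.card μ) * ∏ i, (σ (φ (gH i))).det := by
    intro μ _ _ σ
    have h6 := BR.core h2 h3 G Q n φ X.val a b H K (fun q => hc q) k μ σ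
    rw [Finset.prod_congr rfl (fun j _ => hKK j k μ σ),
      Finset.prod_congr rfl (fun i _ => hHH i k μ σ), Finset.prod_mul_distrib,
      Finset.prod_mul_distrib, Finset.prod_pow, Finset.prod_pow] at h6
    exact h6
  set EK : k := ∏ j, (((eK j : ℤˣ) : ℤ) : k) with hEK
  set EH : k := ∏ i, (((eH i : ℤˣ) : ℤ) : k) with hEH
  have hu : ∀ z : ℤˣ, (((z : ℤ) : k)) ≠ 0 := by
    intro z
    rcases Int.units_eq_one_or z with h | h <;> simp [h]
  have hEK0 : EK ≠ 0 := Finset.prod_ne_zero_iff.2 fun j _ => hu _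
  have hEH0 : EH ≠ 0 := Finset.prod_ne_zero_iff.2 fun j _ => hu _
  -- characters
  have hchar : ∀ χ : Q →* k, ((e : ℤ) : k) * χ (φ g) * (EK * ∏ j, χ (φ (gK j))) =
      EH * ∏ i, χ (φ (gH i)) := by
    intro χ
    have h7 := key Unit ((Matrix.scalar Unit).toMonoidHom.comp χ)
    have h8 := h1.2.2.2.2.2.2.2.2 G k n (χ.comp φ) X.val g (e : ℤ) hdab
    have h9 : (((Matrix.scalar Unit).toMonoidHom.comp χ).comp φ : G →* Matrix Unit Unit k) =
        (Matrix.scalar Unit).toMonoidHom.comp (χ.comp φ) := rfl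
    have h10 : ∀ q : Q, (((Matrix.scalar Unit).toMonoidHom.comp χ) q : Matrix Unit Unit k).det =
        χ q := by
      intro q
      simp
    rw [h9, h8] at h7
    simp only [h10, Fintype.card_unit, pow_one] at h7
    exact h7
  have hone := hchar 1
  simp only [MonoidHom.one_apply, Finset.prod_const_one, mul_one] at hone
  -- the determinant character
  have hdet := hchar (Matrix.detMonoidHom.comp ρ)
  have hd : ∀ q, (Matrix.detMonoidHom.comp ρ) q = (ρ q).det := fun q => rfl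
  simp only [hd] at hdet
  have hdet0 : ∀ q, (ρ q).det ≠ 0 := by
    intro q h
    have h11 : (ρ q).det * (ρ q⁻¹).det = 1 := by
      rw [← Matrix.det_mul, ← map_mul, mul_inv_cancel, map_one, Matrix.det_one]
    rw [h, zero_mul] at h11
    exact zero_ne_one h11
  have hfin := key ν ρ
  have he0 : ((e : ℤ) : k) ≠ 0 := hu e
  have hPK : ∏ j, (ρ (φ (gK j))).det ≠ 0 := Finset.prod_ne_zero_iff.2 fun j _ => hdet0 _
  -- det ρ(φ g) * ∏ K = ∏ H
  have h12 : (ρ (φ g)).det * ∏ j, (ρ (φ (gK j))).det = ∏ i, (ρ (φ (gH i))).det := by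
    apply mul_left_cancel₀ hEH0
    rw [← hdet, ← hone]
    ring
  have h13 : (EK ^ Fintype.card ν * ∏ j, (ρ (φ (gK j))).det) ≠ 0 :=
    mul_ne_zero (pow_ne_zero _ hEK0) hPK
  apply mul_right_cancel₀ h13
  rw [hfin, ← h12, ← hone, mul_pow]
  ring

end Pool.Agent.DET
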