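import Pool.Agent.DET.XHYP

/-! # One quasi-elementary subgroup, for one matrix -/

set_option autoImplicit false

namespace Pool.Agent.DET

open Pool.Agent.WhK Matrix

open BRH in
/-- one quasi-elementary subgroup -/
theorem t_XBRH (hD : s_DTB) (hA : s_DAB) (hC : s_CNV)
    (hH : ∀ (G Q k V n : Type) [Group G] [Group Q] [Finite Q] [Field k] [IsAlgClosed k]
      [AddCommGroup V] [Module k V] [FiniteDimensional k V] [Fintype n] [DecidableEq n]
      (φ : G →* Q) (ρ : Q →* Module.End k V) (X : (Matrix n n (MonoidAlgebra ℤ G))ˣ),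
      Group.FG G → TX X → QE Q → dab X.val = 1 → dtL (ρ.comp φ) X.val = 1) (hT : s_TIND) :
    ∀ (G Q n : Type) [Group G] [Group Q] [Finite Q] [Fintype n] [DecidableEq n] (φ : G →* Q)
    (H : Subgroup Q) [Fintype (Q ⧸ H)] [DecidableEq (Q ⧸ H)]
    (X : (Matrix n n (MonoidAlgebra ℤ G))ˣ), Function.Surjective φ → Group.FG G → TX X →
    QE H → ∃ (e : ℤˣ) (g : G), ∀ (k ν : Type) [Field k] [IsAlgClosed k] [Fintype ν]
      [DecidableEq ν] (ρ : Q →* Matrix ν ν k),
      dt (tens φ ρ (Q ⧸ H)) X.val = ((e : ℤ) : k) ^ Fintype.card ν * (ρ (φ g)).det := by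
  classical
  obtain ⟨-, D2, -, -, -, -, D7, -, -⟩ := hD
  obtain ⟨-, A2, -, A4, -⟩ := hA
  intro G Q n _ _ _ _ _ φ H _ _ X hφ hfg hTX hQE
  rcases isEmpty_or_nonempty n with hn | hn
  · refine ⟨1, 1, fun k ν _ _ _ _ ρ => ?_⟩
    unfold dt
    rw [Matrix.det_isEmpty, map_one, map_one]
    simp
  set M : Subgroup G := H.comap φ with hM
  have hMfi : M.FiniteIndex := by
    refine ⟨?_⟩
    rw [hM, H.index_comap_of_surjective hφ]
    exact Subgroup.index_ne_zero_of_finite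
  haveI : Fintype (G ⧸ M) := Fintype.ofFinite _
  have hMfg : Group.FG M := Subgroup.fg_of_index_ne_zero M
  set Y : (Matrix (n × (G ⧸ M)) (n × (G ⧸ M)) (MonoidAlgebra ℤ M))ˣ := blkU n (Res M) X with hY
  have hYv : Y.val = blk n (Res M) X.val := rfl
  have hTY : TX Y := t_XRES G n M X hTX
  obtain ⟨g, hg⟩ := t_XGOOD M _ Y hMfg hTY
  obtain ⟨n0⟩ := hn
  let i₀ : n × (G ⧸ M) := (n0, ((1 : G) : G ⧸ M))
  -- the restriction of `φ`
  let ψ : M →* H := (φ.comp M.subtype).codRestrict H (fun m => m.2)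
  -- the main computation
  have main : ∀ (E : (Matrix (n × (G ⧸ M)) (n × (G ⧸ M)) (MonoidAlgebra ℤ M))ˣ) (e : ℤ),
      TX E →
      dab (Y.val * (dU i₀ (gU g⁻¹)).val * E.val) = 1 →
      (∀ (k ν : Type) [Field k] [Fintype ν] [DecidableEq ν] (σ : M →* Matrix ν ν k),
        dt σ E.val = ((e : ℤ) : k) ^ Fintype.card ν) → e * e = 1 →
      ∀ (k ν : Type) [Field k] [IsAlgClosed k] [Fintype ν] [DecidableEq ν]
        (ρ : Q →* Matrix ν ν k),
      dt (tens φ ρ (Q ⧸ H)) X.val = ((e : ℤ) : k) ^ Fintype.card ν * (ρ (φ g)).det := by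
    intro E e hE h1 h2 h3 k ν _ _ _ _ ρ
    rw [hT G Q k n ν φ ρ H X.val hφ]
    have h4 := hH M H k (ν → k) (n × (G ⧸ M)) ψ (linRep (ρ.comp H.subtype))
      (Y * dU i₀ (gU g⁻¹) * E) hMfg
      (XTOR.tx_mul (XTOR.tx_mul hTY (XTOR.tx_g i₀ g⁻¹)) hE) hQE h1
    have h5 : (linRep (ρ.comp H.subtype)).comp ψ =
        linRep ((ρ.comp φ).comp M.subtype) := rfl
    rw [h5, hC, Units.val_mul, Units.val_mul, D2, D2, h2] at h4
    have h6 : dt ((ρ.comp φ).comp M.subtype) (dU i₀ (gU g⁻¹)).val =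
        (((ρ.comp φ).comp M.subtype) g⁻¹).det := D7 _ _ _ _ _ i₀ g⁻¹
    rw [h6, hYv] at h4
    have h7 : (((ρ.comp φ).comp M.subtype) g⁻¹).det * (ρ (φ g)).det = 1 := by
      rw [← Matrix.det_mul]
      have : ((ρ.comp φ).comp M.subtype) g⁻¹ * ρ (φ g) = 1 := by
        have h8 : ρ (φ g) = ((ρ.comp φ).comp M.subtype) g := rfl
        rw [h8, ← map_mul, inv_mul_cancel, map_one]
      rw [this, Matrix.det_one]
    have h9 : (((e : ℤ) : k) ^ Fintype.card ν) * (((e : ℤ) : k) ^ Fintype.card ν) = 1 := by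
      rw [← mul_pow, ← Int.cast_mul, h3, Int.cast_one, one_pow]
    linear_combination (((e : ℤ) : k) ^ Fintype.card ν * (ρ (φ g)).det) * h4 -
      (((e : ℤ) : k) ^ Fintype.card ν * ((e : ℤ) : k) ^ Fintype.card ν *
        dt ((ρ.comp φ).comp M.subtype) (blk n (Res M) X.val)) * h7 -
      (dt ((ρ.comp φ).comp M.subtype) (blk n (Res M) X.val)) * h9
  have hdabD : dab (dU i₀ (gU g⁻¹)).val = MonoidAlgebra.single (Abelianization.of g⁻¹) 1 :=
    A4 M _ i₀ g⁻¹
  rcases hg with hg | hg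
  · refine ⟨1, g, ?_⟩
    have h1 := main 1 1 XTOR.tx_one ?_ ?_ (by norm_num)
    · exact h1
    · rw [Units.val_one, mul_one, A2, hg, hdabD, MonoidAlgebra.single_mul_single, ← map_mul,
        mul_inv_cancel, map_one, mul_one]
      rfl
    · intro k ν _ _ _ σ
      rw [Units.val_one, Int.cast_one, one_pow]
      unfold dt
      rw [map_one, Matrix.det_one]
  · refine ⟨-1, g, ?_⟩
    have h1 := main (dU i₀ (-1)) (-1) (XTOR.tx_neg i₀) ?_ ?_ (by norm_num)
    · exact h1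
    · have h2 : dab (dU i₀ (-1 : (MonoidAlgebra ℤ M)ˣ)).val = -1 := dab_sgn i₀
      rw [A2, A2, hg, hdabD, MonoidAlgebra.single_mul_single, ← map_mul,
        mul_inv_cancel, map_one, mul_one, h2]
      rw [mul_neg, mul_one, ← MonoidAlgebra.single_neg, neg_neg]
      rfl
    · intro k ν _ _ _ σ
      have h2 := dt_sgn σ i₀
      rw [Int.cast_neg, Int.cast_one]
      exact h2

end Pool.Agent.DET
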