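import Pool.Agent.DET.XFIN
import Pool.Agent.SUR.LOC

/-!
# `K₁` and direct limits, and the matrices whose class in `Wh G` has finite order
-/

set_option autoImplicit false

namespace Pool.Agent.DET

open Pool.Agent.WhK Matrix FINR

namespace XCOL

section Pairs

variable {R S T : Type} [Ring R] [Ring S] [Ring T]

/-- the map on pairs -/
def mp (f : R →+* S) (x : MatPair R) : MatPair S := ⟨x.n, GLn.map f x.n x.X⟩

/-- the map on the free abelian groups -/
noncomputable def fm (f : R →+* S) : FreeAbelianGroup (MatPair R) →+ FreeAbelianGroup (MatPair S) :=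
  FreeAbelianGroup.map (mp f)

theorem fm_gen (f : R →+* S) (n : ℕ) (X : GLn R n) : fm f (K1.gen n X) = K1.gen n (GLn.map f n X) :=
  FreeAbelianGroup.map_of_apply _

theorem mp_injective (f : R →+* S) (hf : Function.Injective f) : Function.Injective (mp f) := by
  rintro ⟨n, X⟩ ⟨k, Y⟩ h
  have h1 : n = k := congrArg MatPair.n h
  subst h1
  have h2 : GLn.map f n X = GLn.map f n Y := eq_of_heq (MatPair.mk.inj h).2
  have h3 : X.val.map f = Y.val.map f :=
    congrArg (fun Z : (Matrix (Fin n) (Fin n) S)ˣ => Z.val) h2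
  congr 1
  exact Units.ext (Matrix.ext fun i j => hf (congrFun (congrFun h3 i) j))

theorem fm_injective (f : R →+* S) (hf : Function.Injective f) : Function.Injective (fm f) := by
  have : Nonempty (MatPair R) := ⟨⟨0, 1⟩⟩
  have h : ∀ x, FreeAbelianGroup.map (Function.invFun (mp f)) (FreeAbelianGroup.map (mp f) x) =
      x := by
    intro x
    rw [← FreeAbelianGroup.map_comp_apply, Function.invFun_comp (mp_injective f hf),
      FreeAbelianGroup.map_id_apply]
  exact Function.LeftInverse.injective h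

theorem fm_comp (g : S →+* T) (f : R →+* S) (x : FreeAbelianGroup (MatPair R)) :
    fm g (fm f x) = fm (g.comp f) x := by
  show FreeAbelianGroup.map (mp g) (FreeAbelianGroup.map (mp f) x) = _
  rw [← FreeAbelianGroup.map_comp_apply]
  rfl

variable (R) in
/-- the relations -/
def Rel : AddSubgroup (FreeAbelianGroup (MatPair R)) :=
  AddSubgroup.closure (K1.relMul R ∪ K1.relStab R)

theorem fm_relMulElt (f : R →+* S) (n : ℕ) (X Y : GLn R n) :
    fm f (K1.relMulElt n X Y) = K1.relMulElt n (GLn.map f n X) (GLn.map f n Y) := by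
  unfold K1.relMulElt
  rw [map_sub, map_sub, fm_gen, fm_gen, fm_gen, map_mul]

theorem fm_relStabElt (f : R →+* S) (m n : ℕ) (hmn : m ≤ n) (X : GLn R m) :
    fm f (K1.relStabElt m n hmn X) = K1.relStabElt m n hmn (GLn.map f m X) := by
  unfold K1.relStabElt
  rw [map_sub, fm_gen, fm_gen]
  congr 2
  refine Units.ext ?_
  exact (stabMat_map f m n X.val).symm

theorem fm_rel (f : R →+* S) {z : FreeAbelianGroup (MatPair R)} (hz : z ∈ Rel R) :
    fm f z ∈ Rel S := by
  have h : Rel R ≤ (Rel S).comap (fm f) := by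
    unfold Rel
    rw [AddSubgroup.closure_le]
    rintro z (⟨n, X, Y, rfl⟩ | ⟨m, n, hmn, X, rfl⟩)
    · refine AddSubgroup.subset_closure (Or.inl ⟨n, _, _, fm_relMulElt f n X Y⟩)
    · refine AddSubgroup.subset_closure (Or.inr ⟨m, n, hmn, _, fm_relStabElt f m n hmn X⟩)
  exact h hz

theorem map_mk (f : R →+* S) (z : FreeAbelianGroup (MatPair R)) :
    K1.map f (QuotientAddGroup.mk z : K1 R) = (QuotientAddGroup.mk (fm f z) : K1 S) := by
  induction z using FreeAbelianGroup.induction_on with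
  | zero =>
    rw [map_zero]
    exact map_zero (K1.map f)
  | of x => exact K1.map_mk f x.n x.X
  | neg x hx =>
    rw [map_neg]
    exact (map_neg (K1.map f) _).trans (congrArg Neg.neg hx)
  | add x y hx hy =>
    rw [map_add]
    exact (map_add (K1.map f) _ _).trans (congrArg₂ (· + ·) hx hy)

end Pairs

section Groups

variable {G : Type} [Group G]

/-- inclusions of subgroups -/
noncomputable def inc {A B : Subgroup G} (h : A ≤ B) : MonoidAlgebra ℤ A →+* MonoidAlgebra ℤ B :=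
  ringMap (Subgroup.inclusion h)

theorem sub_inc {A B : Subgroup G} (h : A ≤ B) :
    (ringMap B.subtype).comp (inc h) = ringMap A.subtype := by
  unfold inc
  rw [ringMap_comp]
  rfl

theorem fg_bot' : (⊥ : Subgroup G).FG :=
  ⟨∅, by rw [Finset.coe_empty, Subgroup.closure_empty]⟩

theorem triv_inc {A B : Subgroup G} (h : A ≤ B) {y : K1 (MonoidAlgebra ℤ A)}
    (hy : y ∈ trivUnits A) : K1.map (inc h) y ∈ trivUnits B := by
  unfold inc
  exact trivUnits_le (Subgroup.inclusion h) hy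

theorem rel_desc (z : FreeAbelianGroup (MatPair (MonoidAlgebra ℤ G)))
    (hz : z ∈ Rel (MonoidAlgebra ℤ G)) :
    ∃ (A : Subgroup G) (_ : A.FG) (y : FreeAbelianGroup (MatPair (MonoidAlgebra ℤ A))),
      y ∈ Rel (MonoidAlgebra ℤ A) ∧ fm (ringMap A.subtype) y = z := by
  unfold Rel at hz
  induction hz using AddSubgroup.closure_induction with
  | mem z hz =>
    rcases hz with ⟨n, X, Y, rfl⟩ | ⟨m, n, hmn, X, rfl⟩
    · obtain ⟨A, hA, X₀, hX⟩ := SUR.LOC.lift n X
      obtain ⟨B, hB, Y₀, hY⟩ := SUR.LOC.lift n Y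
      refine ⟨A ⊔ B, hA.sup hB, K1.relMulElt n (GLn.map (inc le_sup_left) n X₀)
        (GLn.map (inc le_sup_right) n Y₀),
        AddSubgroup.subset_closure (Or.inl ⟨n, _, _, rfl⟩), ?_⟩
      rw [fm_relMulElt]
      have h1 : GLn.map (ringMap (A ⊔ B).subtype) n (GLn.map (inc le_sup_left) n X₀) = X := by
        rw [← hX, ← sub_inc (le_sup_left : A ≤ A ⊔ B)]
        rfl
      have h2 : GLn.map (ringMap (A ⊔ B).subtype) n (GLn.map (inc le_sup_right) n Y₀) = Y := by
        rw [← hY, ← sub_inc (le_sup_right : B ≤ A ⊔ B)]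
        rfl
      rw [h1, h2]
    · obtain ⟨A, hA, X₀, hX⟩ := SUR.LOC.lift m X
      refine ⟨A, hA, K1.relStabElt m n hmn X₀,
        AddSubgroup.subset_closure (Or.inr ⟨m, n, hmn, _, rfl⟩), ?_⟩
      rw [fm_relStabElt, hX]
  | zero => exact ⟨⊥, fg_bot', 0, (Rel _).zero_mem, map_zero _⟩
  | add a b _ _ ha hb =>
    obtain ⟨A, hA, y, hy, hya⟩ := ha
    obtain ⟨B, hB, w, hw, hwb⟩ := hb
    refine ⟨A ⊔ B, hA.sup hB, fm (inc le_sup_left) y + fm (inc le_sup_right) w,
      AddSubgroup.add_mem _ (fm_rel _ hy) (fm_rel _ hw), ?_⟩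
    rw [map_add, fm_comp, fm_comp, sub_inc, sub_inc, hya, hwb]
  | neg a _ ha =>
    obtain ⟨A, hA, y, hy, hya⟩ := ha
    exact ⟨A, hA, -y, AddSubgroup.neg_mem _ hy, by rw [map_neg, hya]⟩

/-- an element which vanishes in `K₁(ℤ[G])` vanishes in `K₁(ℤ[B])`, `B` a finitely generated subgroup -/
theorem k1_desc (A : Subgroup G) (hA : A.FG) (x : K1 (MonoidAlgebra ℤ A))
    (hx : K1.map (ringMap A.subtype) x = 0) :
    ∃ (B : Subgroup G) (_ : B.FG) (h : A ≤ B), K1.map (inc h) x = 0 := by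
  obtain ⟨z, rfl⟩ := QuotientAddGroup.mk_surjective x
  have h1 : (QuotientAddGroup.mk (fm (ringMap A.subtype) z) : K1 (MonoidAlgebra ℤ G)) = 0 :=
    (map_mk _ z).symm.trans hx
  have h2 : fm (ringMap A.subtype) z ∈ Rel (MonoidAlgebra ℤ G) :=
    (QuotientAddGroup.eq_zero_iff _).1 h1
  obtain ⟨B, hB, y, hy, hyz⟩ := rel_desc _ h2
  refine ⟨A ⊔ B, hA.sup hB, le_sup_left, ?_⟩
  have h3 : fm (inc (le_sup_left : A ≤ A ⊔ B)) z = fm (inc (le_sup_right : B ≤ A ⊔ B)) y := by
    apply fm_injective (ringMap (A ⊔ B).subtype) (SUR.LOC.inj _)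
    rw [fm_comp, fm_comp, sub_inc, sub_inc, hyz]
  refine (map_mk _ z).trans ?_
  refine (QuotientAddGroup.eq_zero_iff _).2 ?_
  rw [h3]
  exact fm_rel _ hy

/-- trivial units come from finitely generated subgroups -/
theorem triv_desc (x : K1 (MonoidAlgebra ℤ G)) (hx : x ∈ trivUnits G) :
    ∃ (A : Subgroup G) (_ : A.FG) (y : K1 (MonoidAlgebra ℤ A)), y ∈ trivUnits A ∧
      K1.map (ringMap A.subtype) y = x := by
  unfold trivUnits at hx
  induction hx using AddSubgroup.closure_induction with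
  | mem x hx =>
    obtain ⟨g, hg⟩ := hx
    have hA : (Subgroup.zpowers g).FG := ⟨{g}, by
      rw [Finset.coe_singleton, Subgroup.zpowers_eq_closure]⟩
    let g' : Subgroup.zpowers g := ⟨g, Subgroup.mem_zpowers g⟩
    have h1 : Units.map (ringMap (Subgroup.zpowers g).subtype).toMonoidHom (gUnit g') = gUnit g :=
      Units.ext (ringMap_single _ _ _)
    rcases hg with rfl | rfl
    · refine ⟨Subgroup.zpowers g, hA, K1.ofUnit (gUnit g'),
        AddSubgroup.subset_closure ⟨g', Or.inl rfl⟩, ?_⟩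
      rw [K1.map_ofUnit, h1]
    · refine ⟨Subgroup.zpowers g, hA, K1.ofUnit (-gUnit g'),
        AddSubgroup.subset_closure ⟨g', Or.inr rfl⟩, ?_⟩
      rw [K1.map_ofUnit]
      congr 1
      refine Units.ext ?_
      show ringMap _ (-(gUnit g').val) = -(gUnit g).val
      rw [map_neg, ← h1]
      rfl
  | zero => exact ⟨⊥, fg_bot', 0, (trivUnits _).zero_mem, map_zero _⟩
  | add a b _ _ ha hb =>
    obtain ⟨A, hA, y, hy, hya⟩ := ha
    obtain ⟨B, hB, w, hw, hwb⟩ := hb
    have h1 : K1.map (inc (le_sup_left : A ≤ A ⊔ B)) y ∈ trivUnits (A ⊔ B : Subgroup G) :=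
      triv_inc le_sup_left hy
    have h2 : K1.map (inc (le_sup_right : B ≤ A ⊔ B)) w ∈ trivUnits (A ⊔ B : Subgroup G) :=
      triv_inc le_sup_right hw
    have h3 := (trivUnits (A ⊔ B : Subgroup G)).add_mem h1 h2
    refine ⟨A ⊔ B, hA.sup hB, _, h3, ?_⟩
    rw [map_add, K1.map_comp, K1.map_comp, sub_inc, sub_inc, hya, hwb]
  | neg a _ ha =>
    obtain ⟨A, hA, y, hy, hya⟩ := ha
    exact ⟨A, hA, -y, AddSubgroup.neg_mem _ hy, by rw [map_neg, hya]⟩

/-- an element which vanishes in `Wh G` vanishes in `Wh B`, `B` a finitely generated subgroup -/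
theorem wh_desc (A : Subgroup G) (hA : A.FG) (x : Wh A) (hx : Wh.map A.subtype x = 0) :
    ∃ (B : Subgroup G) (_ : B.FG) (h : A ≤ B), Wh.map (Subgroup.inclusion h) x = 0 := by
  obtain ⟨y, rfl⟩ := Wh.exists_mk x
  rw [Wh.map_mk] at hx
  have h1 : K1.map (ringMap A.subtype) y ∈ trivUnits G := (QuotientAddGroup.eq_zero_iff _).1 hx
  obtain ⟨B, hB, t, ht, hty⟩ := triv_desc _ h1
  have hC : (A ⊔ B).FG := hA.sup hB
  obtain ⟨D, hD, hle, h2⟩ := k1_desc (A ⊔ B) hC
    (K1.map (inc le_sup_left) y - K1.map (inc le_sup_right) t) (by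
      rw [map_sub, K1.map_comp, K1.map_comp, sub_inc, sub_inc, hty, sub_self])
  refine ⟨D, hD, le_sup_left.trans hle, ?_⟩
  rw [map_sub, sub_eq_zero] at h2
  rw [Wh.map_mk]
  refine (QuotientAddGroup.eq_zero_iff _).2 ?_
  have h3 : K1.map (ringMap (Subgroup.inclusion (le_sup_left.trans hle))) y =
      K1.map (inc hle) (K1.map (inc le_sup_left) y) := by
    unfold inc
    rw [K1.map_comp, ringMap_comp]
    rfl
  rw [h3, h2]
  exact triv_inc hle (triv_inc le_sup_right ht)

end Groups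

end XCOL

open XCOL XTOR in
/-- **Elements of finite order.** -/
theorem det_order (G : Type) [Group G] (m : ℕ) (X : (Matrix (Fin m) (Fin m) (MonoidAlgebra ℤ G))ˣ)
    (N : ℕ) (hN : 0 < N) (h : N • Wh.mk (cls X) = 0) :
    ∃ (e : ℤˣ) (g : G), ∀ (R : Type) [CommRing R] [IsReduced R] (n : ℕ) (ρ : G →* GL (Fin n) R),
      (blocks ρ X.val).det = ((e : ℤ) : R) ^ n * (ρ g).val.det := by
  obtain ⟨A, hA, X₀, hX⟩ := SUR.LOC.lift m X
  have e1 : Wh.map A.subtype (Wh.mk (K1.mk m X₀)) = Wh.mk (cls X) := by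
    rw [Wh.map_mk, K1.map_mk, hX, cls_eq (Equiv.refl (Fin m))]
    rfl
  obtain ⟨B, hB, hle, h1⟩ := wh_desc A hA (N • Wh.mk (K1.mk m X₀)) (by
    rw [map_nsmul, e1, h])
  have hBfg : Group.FG B := (Group.fg_iff_subgroup_fg B).2 hB
  let X₁ : (Matrix (Fin m) (Fin m) (MonoidAlgebra ℤ B))ˣ := GLn.map (inc hle) m X₀
  have e2 : Wh.map (Subgroup.inclusion hle) (Wh.mk (K1.mk m X₀)) = Wh.mk (cls X₁) := by
    rw [Wh.map_mk]
    refine congrArg Wh.mk ((K1.map_mk _ m X₀).trans ?_)
    rw [cls_eq (Equiv.refl (Fin m))]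
    rfl
  rw [map_nsmul, e2] at h1
  obtain ⟨e, g, heg⟩ := det_TX B hBfg m X₁ (tx_of_wh fun Γ _ _ π => ⟨N, hN, by
    rw [← map_nsmul, h1, map_zero]⟩)
  refine ⟨e, g, fun R _ _ n ρ => ?_⟩
  have h2 := heg R n (ρ.comp B.subtype)
  have h3 : X.val = X₁.val.map (zmap B.subtype) := by
    have h4 : X = GLn.map (ringMap B.subtype) m (GLn.map (inc hle) m X₀) := by
      rw [← hX, ← sub_inc hle]
      rfl
    exact congrArg Units.val h4
  have h5 := t_DTB.2.2.2.2.2.2.2.1 G B R (Fin m) (Fin n) B.subtype (toM ρ) X₁.val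
  rw [blocks_det] at h2 ⊢
  rw [h3, ← h5]
  exact h2

end Pool.Agent.DET
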