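import Pool.Agent.DET.Final3
import Pool.Agent.DET.XBRH
import Pool.Agent.DET.XBR
import Pool.Agent.DET.XARB
import Pool.Agent.SUR.XUNC

/-!
# Determinants for groups with elements of finite order

Let `G` be finitely generated with `SurjW G` and finitely many conjugacy classes of elements of finite order.
For each invertible matrix `X` over `ℤ[G]` there are `N > 0` and one unit `w` of `ℤ[G]`, a product of elements
of `G` and of units of the rings `ℤ[C]`, `C` a finite cyclic subgroup, with `det ρ(X) ^ N = det ρ(w)` for all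
representations `ρ` of `G` over reduced commutative rings.
-/

set_option autoImplicit false

namespace Pool.Agent.DET

open Pool.Agent.WhK Matrix FINR

theorem t_XBR' : XARB.s_XBR :=
  t_XBR t_DTB (t_TPRM t_PERM) (t_TSUM t_DTB) t_SOLQ
    (t_XBRH t_DTB t_DAB t_CNV (t_XHYP t_DTL t_INDL t_CLFA t_CLFB t_CONG' t_SGN) t_TIND)

/-- the determinants of a matrix with `TX`, over fields -/
theorem dt_TX (G n : Type) [Group G] [Fintype n] [DecidableEq n] (hfg : Group.FG G)
    (X : (Matrix n n (MonoidAlgebra ℤ G))ˣ) (hT : TX X) :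
    ∃ (e : ℤˣ) (g : G), ∀ (F ν : Type) [Field F] [Fintype ν] [DecidableEq ν]
      (ρ : G →* Matrix ν ν F),
      dt ρ X.val = ((e : ℤ) : F) ^ Fintype.card ν * (ρ g).det := by
  obtain ⟨g, hg⟩ := t_XGOOD G n X hfg hT
  obtain ⟨e, he⟩ : ∃ e : ℤˣ, dab X.val = MonoidAlgebra.single (Abelianization.of g) (e : ℤ) := by
    rcases hg with hg | hg
    · exact ⟨1, hg⟩
    · exact ⟨-1, hg⟩
  exact ⟨e, g, fun F ν _ _ _ ρ => t_XARB t_DTB t_XBR' t_ARBA G n X e g hfg hT he F ν ρ⟩

/-- the determinants of a matrix with `TX`, over reduced rings -/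
theorem det_TX (G : Type) [Group G] (hfg : Group.FG G) (m : ℕ)
    (X : (Matrix (Fin m) (Fin m) (MonoidAlgebra ℤ G))ˣ) (hT : TX X) :
    ∃ (e : ℤˣ) (g : G), ∀ (R : Type) [CommRing R] [IsReduced R] (n : ℕ) (ρ : G →* GL (Fin n) R),
      (blocks ρ X.val).det = ((e : ℤ) : R) ^ n * (ρ g).val.det := by
  obtain ⟨e, g, h⟩ := dt_TX G (Fin m) hfg X hT
  refine ⟨e, g, fun R _ _ n ρ => eq_of_prime _ _ fun F _ f => ?_⟩
  have hD := t_DTB
  rw [blocks_det, ← hD.2.2.1 G R F (Fin m) (Fin n) f (toM ρ) X.val, map_mul, map_pow, map_intCast,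
    RingHom.map_det]
  have h3 := h F (Fin n) (f.mapMatrix.toMonoidHom.comp (toM ρ))
  rw [Fintype.card_fin] at h3
  exact h3

/-- the units of `ℤ[G]` which are products of elements of `G` and of units of the rings `ℤ[C]`, `C` a finite
cyclic subgroup of `G` -/
noncomputable def finUnits (G : Type) [Group G] : Subgroup (MonoidAlgebra ℤ G)ˣ :=
  Subgroup.closure {w | (∃ g : G, w = gUnit g) ∨ ∃ (C : Subgroup G) (_ : Finite C)
    (_ : IsCyclic C) (v : (MonoidAlgebra ℤ C)ˣ), w = unitsMap C.subtype v}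

namespace XFIN

variable {G R ν : Type} [Group G] [CommRing R] [Fintype ν] [DecidableEq ν]

/-- the determinant on `K₁(ℤ[G])` for a representation -/
noncomputable def detK (ρ : G →* Matrix ν ν R) : K1 (MonoidAlgebra ℤ G) →+ Additive Rˣ :=
  TRIV.dK.comp (XRES.trK (rh ρ))

theorem detK_cls {ι : Type} [Fintype ι] [DecidableEq ι] (ρ : G →* Matrix ν ν R)
    (X : (Matrix ι ι (MonoidAlgebra ℤ G))ˣ) : ((detK ρ (cls X)).toMul : R) = dt ρ X.val := by
  show ((TRIV.dK (XRES.trK (rh ρ) (cls X))).toMul : R) = _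
  rw [XRES.trK_cls, TRIV.dK_cls]
  rfl

theorem detK_ofUnit (ρ : G →* Matrix ν ν R) (w : (MonoidAlgebra ℤ G)ˣ) :
    ((detK ρ (K1.ofUnit w)).toMul : R) = (rh ρ w.val).det := by
  have h1 : K1.ofUnit w = cls (Units.map (Matrix.scalar (Fin 1)).toMonoidHom w :
      (Matrix (Fin 1) (Fin 1) (MonoidAlgebra ℤ G))ˣ) := by
    rw [cls_eq (Equiv.refl (Fin 1))]
    rfl
  rw [h1, detK_cls]
  unfold dt
  let e : Fin 1 × ν ≃ ν := Equiv.uniqueProd ν (Fin 1)
  rw [← Matrix.det_submatrix_equiv_self e.symm]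
  congr 1

theorem rh_units {R : Type} [CommRing R] {k : ℕ} (ρ : G →* GL (Fin k) R) (e : ℤˣ) (g : G)
    (w : (MonoidAlgebra ℤ G)ˣ) :
    (rh (toM ρ) ((e : ℤ) • ((gUnit g).val * w.val))).det =
      ((e : ℤ) : R) ^ k * (ρ g).val.det * (rh (toM ρ) w.val).det := by
  have h1 : rh (toM ρ) (gUnit g).val = (ρ g).val := by
    show MonoidAlgebra.lift ℤ _ _ (toM ρ) (MonoidAlgebra.single g 1) = _
    rw [MonoidAlgebra.lift_single, one_smul]
    rfl
  rw [map_zsmul, map_mul, h1, ← Int.cast_smul_eq_zsmul R, Matrix.det_smul, Matrix.det_mul,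
    Fintype.card_fin, mul_assoc]

end XFIN

open XFIN XTOR in
/-- the theorem -/
theorem det_fin (G : Type) [Group G] (hfg : Group.FG G) (hG : Pool.Agent.SUR.SurjW G)
    (hc : {K : ConjClasses G | ∃ g : G, IsOfFinOrder g ∧ ConjClasses.mk g = K}.Finite)
    (m : ℕ) (X : (Matrix (Fin m) (Fin m) (MonoidAlgebra ℤ G))ˣ) :
    ∃ N : ℕ, 0 < N ∧ ∃ w ∈ finUnits G, ∀ (R : Type) [CommRing R] [IsReduced R] (n : ℕ)
      (ρ : G →* GL (Fin n) R), (blocks ρ X.val).det ^ N = (rh (toM ρ) w.val).det := by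
  obtain ⟨N, hN, w, hw, h⟩ := Pool.Agent.SUR.uniform_cyc G hG hc (Wh.mk (cls X))
  obtain ⟨k, Z, hZ⟩ := K1.exists_mk (N • cls X - K1.ofUnit w)
  let Z' : (Matrix (Fin k) (Fin k) (MonoidAlgebra ℤ G))ˣ := Z
  have hZ' : cls Z' = N • cls X - K1.ofUnit w := by
    rw [hZ, cls_eq (Equiv.refl (Fin k))]
    rfl
  have hT : TX Z' := tx_of_wh fun Γ _ _ π => by
    obtain ⟨l, hl, h1⟩ := h Γ π
    refine ⟨l, hl, ?_⟩
    rw [hZ']
    exact h1
  obtain ⟨e, g, heg⟩ := dt_TX G (Fin k) hfg Z' hT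
  have hcyc : Pool.Agent.SUR.cycUnits G ≤ finUnits G := by
    refine Subgroup.closure_mono ?_
    rintro v ⟨C, h1, h2, v', h3⟩
    exact Or.inr ⟨C, h1, h2, v', h3⟩
  have hneg : (-1 : (MonoidAlgebra ℤ G)ˣ) ∈ finUnits G := by
    refine Subgroup.subset_closure (Or.inr ⟨⊥, inferInstance, inferInstance, -1, ?_⟩)
    refine Units.ext ?_
    show (-1 : MonoidAlgebra ℤ G) = ringMap (⊥ : Subgroup G).subtype (-1)
    rw [map_neg, map_one]
  have hgm : gUnit g ∈ finUnits G := Subgroup.subset_closure (Or.inl ⟨g, rfl⟩)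
  obtain ⟨w', hw', hv⟩ : ∃ w' ∈ finUnits G, w'.val = (e : ℤ) • ((gUnit g).val * w.val) := by
    rcases Int.units_eq_one_or e with he | he
    · refine ⟨gUnit g * w, (finUnits G).mul_mem hgm (hcyc hw), ?_⟩
      rw [he, Units.val_one, one_smul, Units.val_mul]
    · refine ⟨-1 * (gUnit g * w), (finUnits G).mul_mem hneg
        ((finUnits G).mul_mem hgm (hcyc hw)), ?_⟩
      rw [he, Units.val_mul, Units.val_mul, Units.val_neg, Units.val_neg, Units.val_one,
        Units.val_one, neg_smul, one_smul, neg_mul, one_mul]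
  refine ⟨N, hN, w', hw', fun R _ _ n ρ => ?_⟩
  rw [hv, rh_units, blocks_det]
  -- the relation in the units of `R`
  have h1 := congrArg (detK (toM ρ)) hZ'
  rw [map_sub, map_nsmul, eq_sub_iff_add_eq] at h1
  have h2 := congrArg (fun u : Additive Rˣ => (u.toMul : R)) h1
  simp only [toMul_add, toMul_nsmul, Units.val_mul, Units.val_pow_eq_pow_val] at h2
  rw [detK_cls, detK_cls, detK_ofUnit] at h2
  rw [← h2]
  congr 1
  refine eq_of_prime _ _ fun F _ f => ?_
  have hD := t_DTB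
  rw [← hD.2.2.1 G R F (Fin k) (Fin n) f (toM ρ) Z'.val, map_mul, map_pow, map_intCast,
    RingHom.map_det]
  have h3 := heg F (Fin n) (f.mapMatrix.toMonoidHom.comp (toM ρ))
  rw [Fintype.card_fin] at h3
  exact h3

end Pool.Agent.DET
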