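import Pool.Agent.DET.XTOR
import Pool.Agent.DET.HIG
import Pool.Agent.DET.RFA

/-!
# The determinants over the abelianized group ring of matrices with `TX` are trivial units
-/

set_option autoImplicit false

namespace Pool.Agent.DET

open Pool.Agent.WhK Matrix

theorem t_XTRIV (G A n : Type) [Group G] [CommGroup A] [Finite A] [Fintype n] [DecidableEq n]
    (π : G →* A) (X : (Matrix n n (MonoidAlgebra ℤ G))ˣ) (hT : TX X) :
    ∃ (N : ℕ) (a : A), 0 < N ∧ IsPM ((X.val.map (zmap π)).det ^ N) a := by
  obtain ⟨N, hN, h⟩ := hT A π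
  rw [K1.map_cls] at h
  refine ⟨N, 1, hN, Or.inl ?_⟩
  have h1 := congrArg (fun y => ((TRIV.dK y).toMul : MonoidAlgebra ℤ A)) h
  simp only [map_nsmul, map_zero, toMul_nsmul, Units.val_pow_eq_pow_val, toMul_zero,
    Units.val_one] at h1
  rw [TRIV.dK_cls] at h1
  exact h1

theorem t_XGOOD (G n : Type) [Group G] [Fintype n] [DecidableEq n]
    (X : (Matrix n n (MonoidAlgebra ℤ G))ˣ) (hfg : Group.FG G) (hT : TX X) :
    ∃ g : G, IsPM (dab X.val) (Abelianization.of g) := by
  have hfa : Group.FG (Abelianization G) :=
    Group.fg_of_surjective (f := (Abelianization.of : G →* Abelianization G))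
      (fun x => QuotientGroup.mk_surjective x)
  obtain ⟨a, ha⟩ := t_RFA (Abelianization G) (dab X.val) hfa fun B _ _ π => by
    obtain ⟨N, b, hN, hb⟩ := t_XTRIV G B n (π.comp Abelianization.of) X hT
    have h : (X.val.map (zmap (π.comp Abelianization.of))).det = zmap π (dab X.val) := by
      unfold dab
      rw [RingHom.map_det]
      refine congrArg Matrix.det (Matrix.ext fun a b => ?_)
      simp only [RingHom.mapMatrix_apply, Matrix.map_apply]
      have h : zmap (π.comp Abelianization.of) =
          (zmap π).comp (zmap (Abelianization.of : G →* Abelianization G)) := by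
        refine MonoidAlgebra.ringHom_ext' (RingHom.ext_int _ _) ?_
        ext x
        simp [zmap]
      exact DFunLike.congr_fun h (X.val a b)
    rw [h] at hb
    exact t_HIG B _ N b hN hb
  obtain ⟨g, rfl⟩ := QuotientGroup.mk_surjective a
  exact ⟨g, ha⟩

end Pool.Agent.DET
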