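import Pool.Agent.DET.XTOR

/-!
# Restriction to subgroups of finite index preserves `TX`
-/

set_option autoImplicit false

namespace Pool.Agent.DET

open Pool.Agent.WhK Matrix

namespace XRES

section Transfer

variable {Λ Λ' S : Type} [Ring Λ] [Ring Λ'] [Fintype S] [DecidableEq S]
  (θ : Λ →+* Matrix S S Λ')

theorem cls_blkU_reU {ι κ : Type} [Fintype ι] [DecidableEq ι] [Fintype κ] [DecidableEq κ]
    (e : ι ≃ κ) (X : (Matrix ι ι Λ)ˣ) : cls (blkU κ θ (reU e X)) = cls (blkU ι θ X) := by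
  have h : blkU κ θ (reU e X) = reU (Equiv.prodCongr e (Equiv.refl S)) (blkU ι θ X) :=
    Units.ext rfl
  rw [h, cls_reU]

theorem cls_blkU_diagU {ι κ : Type} [Fintype ι] [DecidableEq ι] [Fintype κ] [DecidableEq κ]
    (X : (Matrix ι ι Λ)ˣ) :
    cls (blkU (ι ⊕ κ) θ (diagU X (1 : (Matrix κ κ Λ)ˣ))) = cls (blkU ι θ X) := by
  have h : reU (Equiv.sumProdDistrib ι κ S) (blkU (ι ⊕ κ) θ (diagU X (1 : (Matrix κ κ Λ)ˣ))) =
      diagU (blkU ι θ X) (blkU κ θ (1 : (Matrix κ κ Λ)ˣ)) := by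
    refine Units.ext (Matrix.ext fun p q => ?_)
    rcases p with ⟨i, s⟩ | ⟨i, s⟩ <;> rcases q with ⟨j, t⟩ | ⟨j, t⟩
    · rfl
    · show θ 0 s t = 0
      rw [map_zero]
      rfl
    · show θ 0 s t = 0
      rw [map_zero]
      rfl
    · rfl
  rw [← cls_reU (Equiv.sumProdDistrib ι κ S), h, map_one, cls_diagU_one]

/-- the class of the transfer of a pair -/
noncomputable def trP (x : MatPair Λ) : K1 Λ' := cls (blkU (Fin x.n) θ x.X)

theorem rel : AddSubgroup.closure (K1.relMul Λ ∪ K1.relStab Λ) ≤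
    (FreeAbelianGroup.lift (trP θ)).ker := by
  rw [AddSubgroup.closure_le]
  rintro x (⟨n, X, Y, rfl⟩ | ⟨m, n, hmn, X, rfl⟩)
  · rw [SetLike.mem_coe, AddMonoidHom.mem_ker, K1.relMulElt, map_sub, map_sub, K1.gen, K1.gen,
      K1.gen, FreeAbelianGroup.lift_apply_of, FreeAbelianGroup.lift_apply_of,
      FreeAbelianGroup.lift_apply_of, sub_sub, sub_eq_zero]
    exact (congrArg cls (map_mul (blkU (Fin n) θ) X Y)).trans (cls_mul _ _)
  · rw [SetLike.mem_coe, AddMonoidHom.mem_ker, K1.relStabElt, map_sub, K1.gen, K1.gen,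
      FreeAbelianGroup.lift_apply_of, FreeAbelianGroup.lift_apply_of, sub_eq_zero]
    obtain ⟨k, rfl⟩ := Nat.exists_eq_add_of_le hmn
    show cls (blkU (Fin (m + k)) θ (stabGL Λ m (m + k) hmn X)) = cls (blkU (Fin m) θ X)
    have h := stab_eq (m := k) (R := Λ) X
    exact (congrArg (fun Z => cls (blkU (Fin (m + k)) θ Z)) h.symm).trans
      ((cls_blkU_reU θ _ _).trans (cls_blkU_diagU θ X))

/-- the transfer on `K₁` -/
noncomputable def trK : K1 Λ →+ K1 Λ' :=
  QuotientAddGroup.lift _ (FreeAbelianGroup.lift (trP θ)) (rel θ)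

theorem trK_mk (n : ℕ) (X : GLn Λ n) : trK θ (K1.mk n X) = cls (blkU (Fin n) θ X) := by
  show QuotientAddGroup.lift _ _ _ (QuotientAddGroup.mk _) = _
  rw [QuotientAddGroup.lift_mk]
  exact FreeAbelianGroup.lift_apply_of _ _

theorem trK_cls {ι : Type} [Fintype ι] [DecidableEq ι] (X : (Matrix ι ι Λ)ˣ) :
    trK θ (cls X) = cls (blkU ι θ X) := by
  exact (trK_mk θ _ _).trans (cls_blkU_reU θ (Fintype.equivFin ι) X)

end Transfer

section Core

variable {G Γ n : Type} [Group G] [Group Γ] [Fintype n] [DecidableEq n]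

theorem bij (π : G →* Γ) (hπ : Function.Surjective π) (C : Subgroup Γ) :
    Function.Bijective (fun x : G ⧸ C.comap π => (π x.out : Γ ⧸ C)) := by
  constructor
  · intro x y h
    have h1 : (π x.out)⁻¹ * π y.out ∈ C := QuotientGroup.eq.1 h
    rw [← map_inv, ← map_mul] at h1
    have h2 : ((x.out : G) : G ⧸ C.comap π) = (y.out : G) := QuotientGroup.eq.2 h1
    rwa [QuotientGroup.out_eq', QuotientGroup.out_eq'] at h2
  · intro q
    obtain ⟨q, rfl⟩ := QuotientGroup.mk_surjective q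
    obtain ⟨g, rfl⟩ := hπ q
    refine ⟨(g : G ⧸ C.comap π), ?_⟩
    refine QuotientGroup.eq.2 ?_
    rw [← map_inv, ← map_mul]
    have h2 : (((g : G ⧸ C.comap π).out : G) : G ⧸ C.comap π) = (g : G) :=
      QuotientGroup.out_eq' _
    exact QuotientGroup.eq.1 h2

/-- the bijection of the cosets -/
noncomputable def eqv (π : G →* Γ) (hπ : Function.Surjective π) (C : Subgroup Γ) :
    G ⧸ C.comap π ≃ Γ ⧸ C := Equiv.ofBijective _ (bij π hπ C)

theorem eqv_smul (π : G →* Γ) (hπ : Function.Surjective π) (C : Subgroup Γ) (g : G)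
    (x : G ⧸ C.comap π) : eqv π hπ C (g • x) = π g • eqv π hπ C x := by
  show ((π (g • x).out : Γ) : Γ ⧸ C) = ((π g * π x.out : Γ) : Γ ⧸ C)
  refine QuotientGroup.eq.2 ?_
  rw [← map_mul, ← map_inv, ← map_mul]
  exact (mem_iff_coset (C.comap π) g (g • x) x).2 rfl

theorem cmem (π : G →* Γ) (hπ : Function.Surjective π) (C : Subgroup Γ) (x : G ⧸ C.comap π) :
    ((eqv π hπ C x).out)⁻¹ * π x.out ∈ C := by
  rw [← QuotientGroup.eq, QuotientGroup.out_eq']
  rfl

variable (π : G →* Γ) (hπ : Function.Surjective π) (C : Subgroup Γ)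
  [Fintype (G ⧸ C.comap π)] [DecidableEq (G ⧸ C.comap π)] [Fintype (Γ ⧸ C)]
  [DecidableEq (Γ ⧸ C)]

/-- the diagonal matrix which compares the representatives -/
noncomputable def dg : Matrix (G ⧸ C.comap π) (G ⧸ C.comap π) (MonoidAlgebra ℤ C) :=
  Matrix.diagonal fun x => MonoidAlgebra.single ⟨_, cmem π hπ C x⟩ 1

noncomputable def dg' : Matrix (G ⧸ C.comap π) (G ⧸ C.comap π) (MonoidAlgebra ℤ C) :=
  Matrix.diagonal fun x => MonoidAlgebra.single (⟨_, cmem π hπ C x⟩ : C)⁻¹ 1

omit [Fintype (Γ ⧸ C)] [DecidableEq (Γ ⧸ C)] in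
theorem dg_mul : dg π hπ C * dg' π hπ C = 1 := by
  unfold dg dg'
  rw [Matrix.diagonal_mul_diagonal, ← Matrix.diagonal_one]
  congr 1
  funext x
  rw [MonoidAlgebra.single_mul_single, mul_inv_cancel, one_mul]
  rfl

omit [Fintype (Γ ⧸ C)] [DecidableEq (Γ ⧸ C)] in
theorem dg'_mul : dg' π hπ C * dg π hπ C = 1 := by
  unfold dg dg'
  rw [Matrix.diagonal_mul_diagonal, ← Matrix.diagonal_one]
  congr 1
  funext x
  rw [MonoidAlgebra.single_mul_single, inv_mul_cancel, one_mul]
  rfl

/-- the reindexed restriction -/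
noncomputable def θ'' : MonoidAlgebra ℤ G →+*
    Matrix (G ⧸ C.comap π) (G ⧸ C.comap π) (MonoidAlgebra ℤ C) :=
  ((Matrix.reindexAlgEquiv ℤ (MonoidAlgebra ℤ C) (eqv π hπ C).symm).toAlgHom.toRingHom).comp
    ((Res C).comp (zmap π))

theorem θ''_apply (x : MonoidAlgebra ℤ G) (y z : G ⧸ C.comap π) :
    θ'' π hπ C x y z = Res C (zmap π x) (eqv π hπ C y) (eqv π hπ C z) := rfl

theorem intertwine (x : MonoidAlgebra ℤ G) :
    dg π hπ C * (Res (C.comap π) x).map (zmap (π.subgroupComap C)) =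
      θ'' π hπ C x * dg π hπ C := by
  let F : MonoidAlgebra ℤ G →+ Matrix (G ⧸ C.comap π) (G ⧸ C.comap π) (MonoidAlgebra ℤ C) :=
    { toFun := fun x => dg π hπ C * (Res (C.comap π) x).map (zmap (π.subgroupComap C))
      map_zero' := by
        rw [map_zero, Matrix.map_zero _ (map_zero _), Matrix.mul_zero]
      map_add' := fun x y => by
        rw [map_add, Matrix.map_add _ (map_add _), Matrix.mul_add] }
  let F' : MonoidAlgebra ℤ G →+ Matrix (G ⧸ C.comap π) (G ⧸ C.comap π) (MonoidAlgebra ℤ C) :=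
    { toFun := fun x => θ'' π hπ C x * dg π hπ C
      map_zero' := by rw [map_zero, Matrix.zero_mul]
      map_add' := fun x y => by rw [map_add, Matrix.add_mul] }
  refine ext_single F F' (fun g => ?_) x
  show dg π hπ C * (Res (C.comap π) (MonoidAlgebra.single g 1)).map (zmap (π.subgroupComap C)) =
    θ'' π hπ C (MonoidAlgebra.single g 1) * dg π hπ C
  have e0 : zmap π (MonoidAlgebra.single g 1) = MonoidAlgebra.single (π g) 1 :=
    ringMap_single π g 1
  refine Matrix.ext fun y x => ?_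
  unfold dg
  rw [Matrix.diagonal_mul, Matrix.mul_diagonal, Matrix.map_apply, θ''_apply, e0, Res_single,
    Res_single, one_smul, one_smul]
  show MonoidAlgebra.single _ 1 * zmap (π.subgroupComap C) (resEntry (C.comap π) g y x) =
    resEntry C (π g) (eqv π hπ C y) (eqv π hπ C x) * _
  by_cases hy : y = g • x
  · subst hy
    have e : resEntry C (π g) (eqv π hπ C (g • x)) (eqv π hπ C x) =
        resEntry C (π g) (π g • eqv π hπ C x) (eqv π hπ C x) := by rw [eqv_smul]
    rw [e, resEntry_smul, resEntry_smul, MonoidAlgebra.mapDomainRingHom_apply,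
      MonoidAlgebra.mapDomain_single, MonoidAlgebra.single_mul_single,
      MonoidAlgebra.single_mul_single]
    congr 1
    apply Subtype.ext
    show ((eqv π hπ C (g • x)).out)⁻¹ * π (g • x).out *
        π (((g • x).out)⁻¹ * (g * x.out)) =
      ((π g • eqv π hπ C x).out)⁻¹ * (π g * (eqv π hπ C x).out) *
        (((eqv π hπ C x).out)⁻¹ * π x.out)
    rw [eqv_smul, map_mul, map_inv, map_mul]
    group
  · rw [resEntry_ne hy, map_zero, mul_zero, resEntry_ne, zero_mul]
    intro h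
    apply hy
    apply (eqv π hπ C).injective
    rw [h, eqv_smul]

include hπ in
theorem compareK (X : (Matrix n n (MonoidAlgebra ℤ G))ˣ) :
    K1.map (ringMap (π.subgroupComap C)) (cls (blkU n (Res (C.comap π)) X)) =
      trK (Res C) (K1.map (ringMap π) (cls X)) := by
  rw [K1.map_cls, K1.map_cls, trK_cls]
  let θ : MonoidAlgebra ℤ G →+* Matrix (G ⧸ C.comap π) (G ⧸ C.comap π) (MonoidAlgebra ℤ C) :=
    (zmap (π.subgroupComap C)).mapMatrix.comp (Res (C.comap π))
  let T : (Matrix (n × (G ⧸ C.comap π)) (n × (G ⧸ C.comap π)) (MonoidAlgebra ℤ C))ˣ :=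
    ⟨infl n (dg π hπ C), infl n (dg' π hπ C), by
      rw [infl_mul, dg_mul]
      have := infl_smul_one (n := n) (S := G ⧸ C.comap π) (Λ := MonoidAlgebra ℤ C) 1
      rwa [one_smul, one_smul] at this, by
      rw [infl_mul, dg'_mul]
      have := infl_smul_one (n := n) (S := G ⧸ C.comap π) (Λ := MonoidAlgebra ℤ C) 1
      rwa [one_smul, one_smul] at this⟩
  have h1 : T * blkU n θ X = blkU n (θ'' π hπ C) X * T :=
    Units.ext (infl_intertwine θ (θ'' π hπ C) (dg π hπ C) (intertwine π hπ C) X.val)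
  have h2 : cls (blkU n θ X) = cls (blkU n (θ'' π hπ C) X) := by
    have h3 := congrArg cls h1
    rw [cls_mul, cls_mul, add_comm] at h3
    exact add_right_cancel h3
  have h4 : blkU n (θ'' π hπ C) X = reU (Equiv.prodCongr (Equiv.refl n) (eqv π hπ C).symm)
      (blkU n ((Res C).comp (zmap π)) X) := Units.ext rfl
  rw [h4, cls_reU] at h2
  exact h2

end Core

end XRES

open XRES XTOR in
/-- restriction to subgroups of finite index preserves `TX` -/
theorem t_XRES (G n : Type) [Group G] [Fintype n] [DecidableEq n] (M : Subgroup G)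
    [Fintype (G ⧸ M)] [DecidableEq (G ⧸ M)] (X : (Matrix n n (MonoidAlgebra ℤ G))ˣ)
    (hX : TX X) : TX (blkU n (Res M) X) := by
  classical
  intro Γ' _ _ π'
  have hM : M.FiniteIndex := Subgroup.finiteIndex_of_finite_quotient
  let L₀ : Subgroup G := π'.ker.map M.subtype
  have hL₀ : L₀.FiniteIndex := by
    have h1 : π'.ker.FiniteIndex := inferInstance
    refine ⟨?_⟩
    rw [Subgroup.index_map_subtype]
    exact mul_ne_zero h1.index_ne_zero hM.index_ne_zero
  let L : Subgroup G := L₀.normalCore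
  have hL : L.FiniteIndex := inferInstance
  have hLM : L ≤ M := (Subgroup.normalCore_le L₀).trans (by
    rintro _ ⟨m, _, rfl⟩
    exact m.2)
  let π : G →* G ⧸ L := QuotientGroup.mk' L
  have hπ : Function.Surjective π := QuotientGroup.mk'_surjective L
  obtain ⟨C, hC⟩ : ∃ C : Subgroup (G ⧸ L), M = C.comap π := ⟨M.map π, by
    rw [Subgroup.comap_map_eq, QuotientGroup.ker_mk', sup_eq_left.2 hLM]⟩
  have : Finite (G ⧸ L) := inferInstance
  -- the factorization of `π'`
  have key : ∀ (M' : Subgroup G) (hM' : M' = C.comap π) [Fintype (G ⧸ M')]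
      [DecidableEq (G ⧸ M')] (π' : M' →* Γ') (_ : ∀ m : M', (m : G) ∈ L → π' m = 1),
      ∃ N : ℕ, 0 < N ∧ N • K1.map (ringMap π') (cls (blkU n (Res M') X)) = 0 := by
    intro M' hM' _ _ π' hk
    subst hM'
    let _ : Fintype ((G ⧸ L) ⧸ C) := Fintype.ofFinite _
    obtain ⟨N, hN, h1⟩ := hX (G ⧸ L) π
    have h2 := XRES.compareK π hπ C X
    let f := π.subgroupComap C
    have hf : Function.Surjective f := π.subgroupComap_surjective_of_surjective C hπ
    let ψ : C →* Γ' := f.liftOfSurjective hf ⟨π', fun m hm => by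
      rw [MonoidHom.mem_ker] at hm ⊢
      apply hk
      have h3 : π (m : G) = 1 := congrArg Subtype.val hm
      exact (QuotientGroup.eq_one_iff (m : G)).1 h3⟩
    have hψ : ψ.comp f = π' := by
      refine MonoidHom.ext fun m => ?_
      exact f.liftOfRightInverse_comp_apply _ (Function.rightInverse_surjInv hf) _ m
    refine ⟨N, hN, ?_⟩
    have h4 : K1.map (ringMap π') (cls (blkU n (Res (C.comap π)) X)) =
        K1.map (ringMap ψ) (trK (Res C) (K1.map (ringMap π) (cls X))) := by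
      rw [← h2, K1.map_comp, ringMap_comp]
      rw [show (ψ.comp (π.subgroupComap C)) = π' from hψ]
    rw [h4, ← map_nsmul, ← map_nsmul, h1, map_zero, map_zero]
  refine key M hC π' fun m hm => ?_
  obtain ⟨m', hm', h3⟩ := Subgroup.normalCore_le L₀ hm
  have h4 : m' = m := Subtype.ext h3
  rw [← h4]
  exact hm'

end Pool.Agent.DET
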